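import Pool.Agent.helper12.FD.Defs

/-! Word length lemmas and the basic lemmas on the HNN extension. -/

namespace Pool.Agent.helper12.FD

open HNNExtension

section W

variable {G : Type*} [Group G] {S : Set G}

theorem W_one (n : ℕ) : W S (1 : G) n := ⟨[], by simp, by simp, by simp⟩

theorem W_mono {g : G} {m n : ℕ} (h : W S g m) (hmn : m ≤ n) : W S g n := by
  obtain ⟨l, h1, h2, h3⟩ := h
  exact ⟨l, h1.trans hmn, h2, h3⟩

theorem W_mul {g h : G} {m n : ℕ} (hg : W S g m) (hh : W S h n) : W S (g * h) (m + n) := by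
  obtain ⟨l, h1, h2, h3⟩ := hg
  obtain ⟨l', h1', h2', h3'⟩ := hh
  refine ⟨l ++ l', by simp; omega, ?_, by simp [h3, h3']⟩
  intro x hx
  rcases List.mem_append.1 hx with hx | hx
  · exact h2 x hx
  · exact h2' x hx

theorem W_of_mem {g : G} (hg : g ∈ S) : W S g 1 := ⟨[g], by simp, by simp [hg], by simp⟩

theorem W_of_inv_mem {g : G} (hg : g⁻¹ ∈ S) : W S g 1 := ⟨[g], by simp, by simp [hg], by simp⟩

theorem W_inv {g : G} {n : ℕ} (hg : W S g n) : W S g⁻¹ n := by
  obtain ⟨l, h1, h2, h3⟩ := hg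
  refine ⟨(l.map (fun x => x⁻¹)).reverse, by simpa using h1, ?_, ?_⟩
  · intro x hx
    simp only [List.mem_reverse, List.mem_map] at hx
    obtain ⟨y, hy, rfl⟩ := hx
    rcases h2 y hy with h | h
    · right; simpa using h
    · left; exact h
  · rw [← h3, List.prod_inv_reverse]

theorem W_zero {g : G} (hg : W S g 0) : g = 1 := by
  obtain ⟨l, h1, h2, h3⟩ := hg
  have : l = [] := by simpa using h1
  subst this
  simpa using h3.symm

theorem W_pow {g : G} {K : ℕ} (hg : W S g K) (n : ℕ) : W S (g ^ n) (K * n) := by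
  induction n with
  | zero => simpa using W_one 0
  | succ n ih =>
    rw [pow_succ]
    exact W_mul ih hg

theorem W_zpow {g : G} {K : ℕ} (hg : W S g K) (j : ℤ) : W S (g ^ j) (K * j.natAbs) := by
  obtain ⟨n, rfl | rfl⟩ := j.eq_nat_or_neg
  · simpa using W_pow hg n
  · simpa using W_inv (W_pow hg n)

/-- induction on word length, letters added on the left -/
theorem W_induction {P : G → ℕ → Prop} (h1 : P 1 0)
    (h2 : ∀ y g n, (y ∈ S ∨ y⁻¹ ∈ S) → P g n → P (y * g) (n + 1))
    (h3 : ∀ g m n, m ≤ n → P g m → P g n) {g : G} {n : ℕ} (hg : W S g n) : P g n := by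
  obtain ⟨l, hl1, hl2, rfl⟩ := hg
  refine h3 _ _ _ hl1 ?_
  clear hl1
  induction l with
  | nil => simpa using h1
  | cons y l ih =>
    rw [List.prod_cons, List.length_cons]
    exact h2 _ _ _ (hl2 y (by simp)) (ih (fun x hx => hl2 x (by simp [hx])))

theorem W_mem_closure {g : G} {n : ℕ} (hg : W S g n) : g ∈ Subgroup.closure S := by
  refine W_induction (P := fun g _ => g ∈ Subgroup.closure S) (one_mem _) ?_ ?_ hg
  · intro y g n hy hg
    refine mul_mem ?_ hg
    rcases hy with hy | hy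
    · exact Subgroup.subset_closure hy
    · have := Subgroup.inv_mem _ (Subgroup.subset_closure hy)
      simpa using this
  · intro g m n _ h
    exact h

theorem exists_W {g : G} (hg : g ∈ Subgroup.closure S) : ∃ n, W S g n := by
  induction hg using Subgroup.closure_induction with
  | mem x hx => exact ⟨1, W_of_mem hx⟩
  | one => exact ⟨0, W_one 0⟩
  | mul x y _ _ hx hy =>
    obtain ⟨m, hm⟩ := hx
    obtain ⟨n, hn⟩ := hy
    exact ⟨_, W_mul hm hn⟩
  | inv x _ hx =>
    obtain ⟨m, hm⟩ := hx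
    exact ⟨_, W_inv hm⟩

/-- change of generating set -/
theorem W_trans {S' : Set G} {K : ℕ} (h : ∀ x ∈ S, W S' x K) {g : G} {n : ℕ} (hg : W S g n) :
    W S' g (K * n) := by
  refine W_induction (P := fun g n => W S' g (K * n)) (by simpa using W_one 0) ?_ ?_ hg
  · intro y g n hy hg
    have : W S' y K := by
      rcases hy with hy | hy
      · exact h y hy
      · have := W_inv (h _ hy)
        simpa using this
    have h2 := W_mul this hg
    refine W_mono h2 (by ring_nf; omega)
  · intro g m n hmn h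
    exact W_mono h (Nat.mul_le_mul_left _ hmn)

theorem W_map {G' : Type*} [Group G'] (f : G →* G') {g : G} {n : ℕ} (hg : W S g n) :
    W (f '' S) (f g) n := by
  obtain ⟨l, h1, h2, h3⟩ := hg
  refine ⟨l.map f, by simpa using h1, ?_, by rw [← h3, map_list_prod]⟩
  intro x hx
  obtain ⟨y, hy, rfl⟩ := List.mem_map.1 hx
  rcases h2 y hy with h | h
  · left; exact ⟨y, h, rfl⟩
  · right; exact ⟨y⁻¹, h, by simp⟩

theorem W_subset {S' : Set G} (h : S ⊆ S') {g : G} {n : ℕ} (hg : W S g n) : W S' g n := by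
  obtain ⟨l, h1, h2, h3⟩ := hg
  refine ⟨l, h1, ?_, h3⟩
  intro x hx
  rcases h2 x hx with h' | h'
  · left; exact h h'
  · right; exact h h'

theorem exists_bound {S' : Set G} (hf : S.Finite) (h : ∀ x ∈ S, x ∈ Subgroup.closure S') :
    ∃ K, ∀ x ∈ S, W S' x K := by
  classical
  choose! n hn using fun x (hx : x ∈ S) => exists_W (h x hx)
  refine ⟨hf.toFinset.sup n, ?_⟩
  intro x hx
  exact W_mono (hn x hx) (Finset.le_sup (f := n) (by simpa using hx))

variable {p : G →* Multiplicative ℤ}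

theorem W_p {K : ℕ} (h : ∀ x ∈ S, (p x).toAdd.natAbs ≤ K) {g : G} {n : ℕ} (hg : W S g n) :
    (p g).toAdd.natAbs ≤ K * n := by
  refine W_induction (P := fun g n => (p g).toAdd.natAbs ≤ K * n) (by simp) ?_ ?_ hg
  · intro y g n hy hg
    have hy' : (p y).toAdd.natAbs ≤ K := by
      rcases hy with hy | hy
      · exact h y hy
      · have := h _ hy
        simpa using this
    rw [map_mul, toAdd_mul]
    have h1 := Int.natAbs_add_le (p y).toAdd (p g).toAdd
    have : K * (n + 1) = K + K * n := by ring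
    omega
  · intro g m n hmn h
    exact h.trans (Nat.mul_le_mul_left _ hmn)

theorem Grd.W_p (h : Grd G S p) {g : G} {n : ℕ} (hg : W S g n) :
    (p g).toAdd.natAbs ≤ n := by
  have := FD.W_p (K := 1) (p := p) (S := S) (fun x hx => by
    have := h.one x hx
    rw [Int.abs_eq_natAbs] at this
    omega) hg
  simpa using this

theorem zpow_inj_of_p {a : G} (ha : p a = Multiplicative.ofAdd 1) {i j : ℤ}
    (h : a ^ i = a ^ j) : i = j := by
  have := congrArg (fun x => (p x).toAdd) h
  simpa [ha] using this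

theorem p_zpow {a : G} (ha : p a = Multiplicative.ofAdd 1) (i : ℤ) :
    (p (a ^ i)).toAdd = i := by
  simp [ha]

end W

section hnn

variable {G : Type*} [Group G] {a b : G} {φ : Subgroup.zpowers a ≃* Subgroup.zpowers b}
  {p : G →* Multiplicative ℤ}

theorem exists_phi (ha : p a = Multiplicative.ofAdd 1) (hb : p b = Multiplicative.ofAdd 1) :
    ∃ φ : Subgroup.zpowers a ≃* Subgroup.zpowers b, Ph a b φ := by
  have h : ∀ {c : G}, p c = Multiplicative.ofAdd 1 →
      Function.Bijective (zpowersHom (Subgroup.zpowers c) ⟨c, Subgroup.mem_zpowers c⟩) := by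
    intro c hc
    constructor
    · intro x y hxy
      have h1 := congrArg (fun z : Subgroup.zpowers c => (z : G)) hxy
      simp only [zpowersHom_apply, SubgroupClass.coe_zpow] at h1
      exact zpow_inj_of_p hc h1
    · rintro ⟨x, n, rfl⟩
      exact ⟨Multiplicative.ofAdd n, by ext; simp⟩
  refine ⟨(MulEquiv.ofBijective _ (h ha)).symm.trans (MulEquiv.ofBijective _ (h hb)), ?_⟩
  unfold Ph
  have h1 : (MulEquiv.ofBijective _ (h ha)) (Multiplicative.ofAdd 1) =
      (⟨a, Subgroup.mem_zpowers a⟩ : Subgroup.zpowers a) := by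
    ext; simp
  have h2 := (MulEquiv.ofBijective _ (h ha)).symm_apply_apply (Multiplicative.ofAdd 1)
  rw [h1] at h2
  rw [MulEquiv.trans_apply, h2]
  ext; simp

theorem phi_zpow (h : Ph a b φ) (j : ℤ) :
    (φ ⟨a ^ j, ⟨j, rfl⟩⟩ : G) = b ^ j := by
  have h1 : (⟨a ^ j, ⟨j, rfl⟩⟩ : Subgroup.zpowers a) = ⟨a, Subgroup.mem_zpowers a⟩ ^ j := by
    ext; simp
  rw [h1, map_zpow, h]
  simp

theorem p_phi (ha : p a = Multiplicative.ofAdd 1) (hb : p b = Multiplicative.ofAdd 1)
    (h : Ph a b φ) (x : Subgroup.zpowers a) : p (φ x : G) = p (x : G) := by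
  obtain ⟨x, j, rfl⟩ := x
  change p (φ ⟨a ^ j, ⟨j, rfl⟩⟩ : G) = p (a ^ j)
  rw [phi_zpow h, map_zpow, map_zpow, ha, hb]

/-- extension of `p` to the HNN extension, trivial on the stable letter -/
noncomputable def pe (p : G →* Multiplicative ℤ) (ha : p a = Multiplicative.ofAdd 1)
    (hb : p b = Multiplicative.ofAdd 1) (h : Ph a b φ) :
    HNNExtension G (Subgroup.zpowers a) (Subgroup.zpowers b) φ →* Multiplicative ℤ :=
  HNNExtension.lift p 1 (fun x => by rw [one_mul, mul_one, p_phi ha hb h])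

@[simp] theorem pe_of (ha : p a = Multiplicative.ofAdd 1)
    (hb : p b = Multiplicative.ofAdd 1) (h : Ph a b φ) (g : G) :
    pe p ha hb h (of g) = p g := by
  simp [pe]

@[simp] theorem pe_t (ha : p a = Multiplicative.ofAdd 1)
    (hb : p b = Multiplicative.ofAdd 1) (h : Ph a b φ) :
    pe p ha hb h t = 1 := by
  simp [pe]

/-- `X ^ u c(u) ^ j = c(-u) ^ j X ^ u` -/
theorem slide (h : Ph a b φ) (u : ℤˣ) (j : ℤ) :
    (t ^ (u : ℤ) * of (cg a b u ^ j) :
      HNNExtension G (Subgroup.zpowers a) (Subgroup.zpowers b) φ) =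
    of (cg a b (-u) ^ j) * t ^ (u : ℤ) := by
  have key : (t * of (a ^ j) :
      HNNExtension G (Subgroup.zpowers a) (Subgroup.zpowers b) φ) = of (b ^ j) * t := by
    have h1 := HNNExtension.t_mul_of (φ := φ) (⟨a ^ j, ⟨j, rfl⟩⟩ : Subgroup.zpowers a)
    rw [phi_zpow h] at h1
    exact h1
  rcases Int.units_eq_one_or u with rfl | rfl
  · simpa [cg] using key
  · have : (-1 : ℤˣ) ≠ 1 := by decide
    simp only [cg, this, if_false, neg_neg, if_true, Units.val_neg, Units.val_one, zpow_neg,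
      zpow_one]
    rw [inv_mul_eq_iff_eq_mul, ← mul_assoc, key, mul_assoc, mul_inv_cancel, mul_one]

theorem mem_toSubgroup_iff (u : ℤˣ) (g : G) :
    g ∈ toSubgroup (Subgroup.zpowers a) (Subgroup.zpowers b) u ↔ ∃ j : ℤ, cg a b u ^ j = g := by
  rcases Int.units_eq_one_or u with rfl | rfl
  · simp [cg, Subgroup.mem_zpowers_iff]
  · have : (-1 : ℤˣ) ≠ 1 := by decide
    simp [cg, Subgroup.mem_zpowers_iff]

end hnn

end Pool.Agent.helper12.FD
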