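import Mathlib

/-!
# Distortion functions of subgroups of free-by-cyclic groups: definitions

Base group `G`, elements `a b : G` of infinite order (`p a = p b = 1` for a homomorphism `p` to the
integers), `E = HNNExtension G ⟨a⟩ ⟨b⟩ φ` with `φ a = b`; `X` denotes Mathlib's stable letter `t`,
so `X * a ^ j = b ^ j * X`.
-/

namespace Pool.Agent.helper12.FD

open HNNExtension

/-- `W S g n`: `g` is a product of at most `n` elements of `S ∪ S⁻¹`. -/
def W {G : Type*} [Group G] (S : Set G) (g : G) (n : ℕ) : Prop :=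
  ∃ l : List G, l.length ≤ n ∧ (∀ x ∈ l, x ∈ S ∨ x⁻¹ ∈ S) ∧ l.prod = g

/-- The functions `f_1 n = 2 n`, `f_{k+1} n = (f_k + 1)^n (0)` (index shifted: `fk 0 n = 2 n`). -/
def iter (f : ℕ → ℕ) (n : ℕ) : ℕ := (fun m => f m + 1)^[n] 0

/-- `fk k` is the function `f_{k+1}` of the hierarchy: `fk 0 n = 2 n`, `fk (k+1) = iter (fk k)`. -/
def fk : ℕ → ℕ → ℕ
  | 0 => fun n => 2 * n
  | k + 1 => iter (fk k)

section lines

variable {G : Type*} [Group G] (a b : G)

/-- generator of the line subgroup `toSubgroup ⟨a⟩ ⟨b⟩ u` -/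
def cg (u : ℤˣ) : G := if u = 1 then a else b

/-- the isomorphism between two cyclic groups is the one matching the generators -/
def Ph (φ : Subgroup.zpowers a ≃* Subgroup.zpowers b) : Prop :=
  φ ⟨a, Subgroup.mem_zpowers a⟩ = ⟨b, Subgroup.mem_zpowers b⟩

end lines

/-- growth properties of the functions of level at least two -/
structure Gr (F : ℕ → ℕ) : Prop where
  mono : StrictMono F
  zero : F 0 = 0
  dbl : ∃ D : ℕ, ∀ n, 2 * F n ≤ F (n + D)

/-- growth properties needed to iterate -/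
structure Gr0 (f : ℕ → ℕ) : Prop where
  mono : StrictMono f
  zero : f 0 = 0
  sup : ∃ N : ℕ, ∀ n, N ≤ n → 2 * n ≤ f n

/-- A group with a finite generating set and a homomorphism to the integers which is at most `1`
in absolute value on the generators. -/
structure Grd (G : Type*) [Group G] (S : Set G) (p : G →* Multiplicative ℤ) : Prop where
  fin : S.Finite
  gen : Subgroup.closure S = ⊤
  one : ∀ x ∈ S, |(p x).toAdd| ≤ 1

/-- register bound on the lines of a gadget: `b = true` is the output line `t`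
(potential `m` allows registers up to `f m`), `b = false` is the input line `s`. -/
def val (f : ℕ → ℕ) (b : Bool) (m : ℕ) (j : ℤ) : Prop :=
  if b then j.natAbs ≤ f m else j.natAbs ≤ m

/-- the two lines of a gadget -/
def ln {G : Type*} (s t : G) (b : Bool) : G := if b then t else s

/-- A gadget computing `f`: `s ^ N ∈ H t ^ (f N)`. -/
structure Gad {G : Type*} [Group G] (S : Set G) (p : G →* Multiplicative ℤ) (H : Subgroup G)
    (T : Set G) (s t : G) (f : ℕ → ℕ) : Prop where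
  ps : p s = Multiplicative.ofAdd 1
  pt : p t = Multiplicative.ofAdd 1
  fin : T.Finite
  gen : Subgroup.closure T = H
  rel : ∀ N : ℕ, s ^ N * (t ^ (f N))⁻¹ ∈ H
  z1 : ∀ i : ℤ, s ^ i * t ∉ H
  mul : ∃ C : ℕ, ∀ (c d : Bool) (m n : ℕ) (w : G) (j j' : ℤ), W S w n → val f c m j →
    ln s t c ^ j * w * (ln s t d ^ j')⁻¹ ∈ H →
    val f d (C * (m + n + 1)) j' ∧
      W T (ln s t c ^ j * w * (ln s t d ^ j')⁻¹) (f (C * (m + n + 1)))
  add : ∃ C : ℕ, ∀ (m n : ℕ) (w : G) (j j' : ℤ), W S w n → j.natAbs ≤ f m →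
    t ^ j * w * (t ^ j')⁻¹ ∈ H →
    j'.natAbs ≤ f (m + C * (n + 1)) ∧ W T (t ^ j * w * (t ^ j')⁻¹) (f (m + C * (n + 1)))

/-- A composite gadget computing `F`: `σ ^ N ∈ K τ ^ (F N)`. -/
structure Out {G : Type*} [Group G] (S : Set G) (p : G →* Multiplicative ℤ) (K : Subgroup G)
    (T : Set G) (σ τ : G) (F : ℕ → ℕ) : Prop where
  pσ : p σ = Multiplicative.ofAdd 1
  pτ : p τ = Multiplicative.ofAdd 1
  fin : T.Finite
  gen : Subgroup.closure T = K
  rel : ∀ N : ℕ, σ ^ N * (τ ^ (F N))⁻¹ ∈ K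
  add : ∃ C : ℕ, ∀ (m n : ℕ) (w : G) (j j' : ℤ), W S w n → j.natAbs ≤ F m →
    τ ^ j * w * (τ ^ j')⁻¹ ∈ K →
    j'.natAbs ≤ F (m + C * (n + 1)) ∧ W T (τ ^ j * w * (τ ^ j')⁻¹) (F (m + C * (n + 1)))

/-- free-by-cyclic with projection `p` -/
def FBC (G : Type*) [Group G] (p : G →* Multiplicative ℤ) : Prop :=
  ∃ (r : ℕ) (φ : MulAut (FreeGroup (Fin r)))
    (e : G ≃* FreeGroup (Fin r) ⋊[zpowersHom _ φ] Multiplicative ℤ),
    1 ≤ r ∧ ∀ g, (e g).right = p g

/-- `f ≼ g` up to the usual equivalence -/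
def Dom (f g : ℕ → ℕ) : Prop := ∃ C : ℕ, 1 ≤ C ∧ ∀ n, f n ≤ C * g (C * n + C) + C * n + C

/-- `f ≃ g` -/
def Eqv (f g : ℕ → ℕ) : Prop := Dom f g ∧ Dom g f

/-- word length with respect to `S ∪ S⁻¹` -/
noncomputable def wlen {G : Type*} [Group G] (S : Set G) (g : G) : ℕ := sInf {n | W S g n}

/-- distortion function: the largest `|h|_T` with `h ∈ H`, `|h|_S ≤ n`. -/
noncomputable def dist {G : Type*} [Group G] (S T : Set G) (H : Subgroup G) (n : ℕ) : ℕ :=
  sSup {k | ∃ h ∈ H, wlen S h ≤ n ∧ wlen T h = k}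

end Pool.Agent.helper12.FD
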