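import Pool.Agent.helper12.FD.Wl

/-!
Module FD-Fbc: an HNN extension of a free-by-cyclic group `G` along cyclic groups generated by
elements `a, b` with `p a = p b = 1` is free-by-cyclic.

Proof. Rebase first: if `e : G ≃* F_r ⋊_ψ ℤ` with projection `p` and `p a = 1` then
`e a = (v, 1)` and replacing `ψ` by `conj(v) ∘ ψ` one gets `e' : G ≃* F_r ⋊_ψ' ℤ` with
`e' a = inr (ofAdd 1)` and the same projection. So assume `e a = inr (ofAdd 1)`; then
`e b = inl u * inr (ofAdd 1)` for some `u : F_r`.
Let `F' = FreeGroup (Option (Fin r))` (transported to `FreeGroup (Fin (r + 1))` at the end), `x` the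
new letter, `ψ'` the automorphism equal to `ψ` on the old letters and `ψ' x = u⁻¹ * x` (inverse:
`ψ⁻¹` on old letters, `x ↦ ψ⁻¹(u) * x`). In `E` one has `X a X⁻¹ = b = u a`, so
`a X a⁻¹ = u⁻¹ X`. The maps
* `E → F' ⋊_ψ' ℤ`: `HNNExtension.lift` of `G ≃ F_r ⋊_ψ ℤ → F' ⋊_ψ' ℤ`, `X ↦ inl x`;
* `F' ⋊_ψ' ℤ → E`: `SemidirectProduct.lift` of `FreeGroup.lift (old ↦ of (e⁻¹ (inl old)), x ↦ X)` and
  `n ↦ of a ^ n`
are inverse to each other (check on generators: `HNNExtension.hom_ext`, `SemidirectProduct.hom_ext`,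
`FreeGroup.ext_hom`).
-/

namespace Pool.Agent.helper12.FD

open HNNExtension

section general

variable {N H : Type*} [Group N] [Group H]

theorem Fbc_zpow (ψ : MulAut N) (f : N →* H) (h : H) (hc : ∀ x, f (ψ x) = h * f x * h⁻¹)
    (n : ℤ) (x : N) : f ((ψ ^ n) x) = h ^ n * f x * (h ^ n)⁻¹ := by
  induction n using Int.induction_on generalizing x with
  | zero => simp
  | succ n ih =>
    rw [zpow_add_one, MulAut.mul_apply, ih, hc, zpow_add_one, mul_inv_rev]
    simp only [mul_assoc]
  | pred n ih =>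
    have h1 : f (ψ⁻¹ x) = h⁻¹ * f x * h := by
      have h2 := hc (ψ⁻¹ x)
      rw [MulAut.apply_inv_self] at h2
      rw [h2]
      simp only [mul_assoc, inv_mul_cancel_left, inv_mul_cancel, mul_one]
    rw [zpow_sub_one, MulAut.mul_apply, ih, h1, zpow_sub_one, mul_inv_rev, inv_inv]
    simp only [mul_assoc]

/-- homomorphisms out of a semidirect product with `ℤ` -/
def Fbc_lift (ψ : MulAut N) (f : N →* H) (h : H) (hc : ∀ x, f (ψ x) = h * f x * h⁻¹) :
    N ⋊[zpowersHom _ ψ] Multiplicative ℤ →* H :=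
  SemidirectProduct.lift f (zpowersHom H h) (by
    intro g
    ext x
    simp only [MonoidHom.comp_apply, MulEquiv.coe_toMonoidHom, MulAut.conj_apply,
      zpowersHom_apply]
    exact Fbc_zpow ψ f h hc g.toAdd x)

@[simp] theorem Fbc_lift_inl (ψ : MulAut N) (f : N →* H) (h : H)
    (hc : ∀ x, f (ψ x) = h * f x * h⁻¹) (x : N) :
    Fbc_lift ψ f h hc (SemidirectProduct.inl x) = f x := by
  simp [Fbc_lift]

@[simp] theorem Fbc_lift_inr (ψ : MulAut N) (f : N →* H) (h : H)
    (hc : ∀ x, f (ψ x) = h * f x * h⁻¹) (n : Multiplicative ℤ) :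
    Fbc_lift ψ f h hc (SemidirectProduct.inr n) = h ^ n.toAdd := by
  simp [Fbc_lift]

theorem Fbc_hom_ext {ψ : MulAut N} {f g : N ⋊[zpowersHom _ ψ] Multiplicative ℤ →* H}
    (h1 : ∀ x, f (SemidirectProduct.inl x) = g (SemidirectProduct.inl x))
    (h2 : f (SemidirectProduct.inr (Multiplicative.ofAdd 1)) =
      g (SemidirectProduct.inr (Multiplicative.ofAdd 1))) : f = g := by
  refine SemidirectProduct.hom_ext ?_ ?_
  · ext x
    exact h1 x
  · exact MonoidHom.ext_mint h2

theorem Fbc_inr (ψ : MulAut N) (x : N) :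
    (SemidirectProduct.inl (ψ x) : N ⋊[zpowersHom _ ψ] Multiplicative ℤ) =
      SemidirectProduct.inr (Multiplicative.ofAdd 1) * SemidirectProduct.inl x *
        (SemidirectProduct.inr (Multiplicative.ofAdd 1))⁻¹ := by
  have h := SemidirectProduct.inl_aut (φ := zpowersHom (MulAut N) ψ) (Multiplicative.ofAdd 1) x
  rw [zpowersHom_apply, toAdd_ofAdd, zpow_one] at h
  rw [h, map_inv]

/-- change of the free kernel -/
theorem Fbc_of {G : Type*} [Group G] {p : G →* Multiplicative ℤ} {r : ℕ}
    (c : N ≃* FreeGroup (Fin r)) (ψ : MulAut N) (hr : 1 ≤ r)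
    (e : G ≃* N ⋊[zpowersHom _ ψ] Multiplicative ℤ) (he : ∀ g, (e g).right = p g) :
    FBC G p := by
  refine ⟨r, MulAut.congr c ψ, e.trans (SemidirectProduct.congr c (MulEquiv.refl _) ?_), hr, ?_⟩
  · intro g
    ext x
    simp only [MulEquiv.trans_apply, zpowersHom_apply, MulEquiv.refl_apply]
    rw [← map_zpow]
    simp [MulAut.congr]
  · intro g
    rw [← he g]
    rfl

end general

theorem fbc_rebase {G : Type*} [Group G] {p : G →* Multiplicative ℤ} (h : FBC G p) {a : G}
    (ha : p a = Multiplicative.ofAdd 1) :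
    ∃ (r : ℕ) (φ : MulAut (FreeGroup (Fin r)))
      (e : G ≃* FreeGroup (Fin r) ⋊[zpowersHom _ φ] Multiplicative ℤ),
      (∀ g, (e g).right = p g) ∧ e a = SemidirectProduct.inr (Multiplicative.ofAdd 1) := by
  obtain ⟨r, φ, e, -, he⟩ := h
  obtain ⟨v, hv⟩ : ∃ v, e a = SemidirectProduct.inl v *
      SemidirectProduct.inr (Multiplicative.ofAdd 1) := by
    refine ⟨(e a).left, ?_⟩
    rw [← ha, ← he a, SemidirectProduct.inl_left_mul_inr_right]
  let φ' : MulAut (FreeGroup (Fin r)) := MulAut.conj v * φ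
  have hφ' : ∀ x, φ' x = v * φ x * v⁻¹ := fun x => by simp [φ']
  let f1 : FreeGroup (Fin r) ⋊[zpowersHom _ φ] Multiplicative ℤ →*
      FreeGroup (Fin r) ⋊[zpowersHom _ φ'] Multiplicative ℤ :=
    Fbc_lift φ SemidirectProduct.inl
      (SemidirectProduct.inl v⁻¹ * SemidirectProduct.inr (Multiplicative.ofAdd 1)) (by
        intro x
        have h1 := Fbc_inr φ' x
        have h2 : φ x = v⁻¹ * φ' x * v := by
          rw [hφ']
          simp only [mul_assoc, inv_mul_cancel_left, inv_mul_cancel, mul_one]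
        have h3 : (SemidirectProduct.inl (v⁻¹ * φ' x * v) :
            FreeGroup (Fin r) ⋊[zpowersHom _ φ'] Multiplicative ℤ) =
            SemidirectProduct.inl v⁻¹ * SemidirectProduct.inl (φ' x) *
              SemidirectProduct.inl v := by
          simp only [map_mul]
        rw [h2, h3, h1, map_inv]
        simp only [mul_assoc, mul_inv_rev, inv_inv])
  let f2 : FreeGroup (Fin r) ⋊[zpowersHom _ φ'] Multiplicative ℤ →*
      FreeGroup (Fin r) ⋊[zpowersHom _ φ] Multiplicative ℤ :=
    Fbc_lift φ' SemidirectProduct.inl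
      (SemidirectProduct.inl v * SemidirectProduct.inr (Multiplicative.ofAdd 1)) (by
        intro x
        have h1 := Fbc_inr φ x
        rw [hφ', map_mul, map_mul, h1, map_inv]
        simp only [mul_assoc, mul_inv_rev])
  have h12 : f1.comp f2 = MonoidHom.id _ := by
    refine Fbc_hom_ext ?_ ?_
    · intro x
      simp [f1, f2]
    · simp [f1, f2]
  have h21 : f2.comp f1 = MonoidHom.id _ := by
    refine Fbc_hom_ext ?_ ?_
    · intro x
      simp [f1, f2]
    · simp [f1, f2]
  have hr : SemidirectProduct.rightHom.comp f1 = SemidirectProduct.rightHom := by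
    refine Fbc_hom_ext ?_ ?_
    · intro x
      simp [f1]
    · simp [f1]
  refine ⟨r, φ', e.trans (MonoidHom.toMulEquiv f1 f2 h21 h12), ?_, ?_⟩
  · intro g
    have h3 := DFunLike.congr_fun hr (e g)
    rw [← he g]
    exact h3
  · change f1 (e a) = _
    rw [hv]
    simp [f1]

section ext

variable {α : Type*}

/-- inclusion of the old letters -/
def Fbc_io : FreeGroup α →* FreeGroup (Option α) := FreeGroup.map some

@[simp] theorem Fbc_io_of (i : α) : Fbc_io (FreeGroup.of i) = FreeGroup.of (some i) := by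
  simp [Fbc_io]

/-- homomorphisms out of the free group with one more letter -/
def Fbc_fl {H : Type*} [Group H] (f : FreeGroup α →* H) (x : H) : FreeGroup (Option α) →* H :=
  FreeGroup.lift (fun o => o.elim x (fun i => f (FreeGroup.of i)))

@[simp] theorem Fbc_fl_none {H : Type*} [Group H] (f : FreeGroup α →* H) (x : H) :
    Fbc_fl f x (FreeGroup.of none) = x := by
  simp [Fbc_fl]

@[simp] theorem Fbc_fl_io {H : Type*} [Group H] (f : FreeGroup α →* H) (x : H)
    (y : FreeGroup α) : Fbc_fl f x (Fbc_io y) = f y := by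
  have h : (Fbc_fl f x).comp Fbc_io = f := by
    ext i
    simp [Fbc_fl]
  exact DFunLike.congr_fun h y

theorem Fbc_fl_ext {H : Type*} [Group H] {f g : FreeGroup (Option α) →* H}
    (h1 : ∀ y, f (Fbc_io y) = g (Fbc_io y)) (h2 : f (FreeGroup.of none) = g (FreeGroup.of none)) :
    f = g := by
  ext o
  rcases o with _ | i
  · exact h2
  · have := h1 (FreeGroup.of i)
    simpa using this

/-- the extended automorphism -/
def Fbc_aut (ψ : MulAut (FreeGroup α)) (u : FreeGroup α) : MulAut (FreeGroup (Option α)) :=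
  MonoidHom.toMulEquiv
    (Fbc_fl (Fbc_io.comp ψ.toMonoidHom) ((Fbc_io u)⁻¹ * FreeGroup.of none))
    (Fbc_fl (Fbc_io.comp (ψ⁻¹).toMonoidHom) (Fbc_io (ψ⁻¹ u) * FreeGroup.of none))
    (by
      refine Fbc_fl_ext ?_ ?_
      · intro y
        simp
      · simp)
    (by
      refine Fbc_fl_ext ?_ ?_
      · intro y
        simp
      · simp)

@[simp] theorem Fbc_aut_io (ψ : MulAut (FreeGroup α)) (u y : FreeGroup α) :
    Fbc_aut ψ u (Fbc_io y) = Fbc_io (ψ y) := by
  change Fbc_fl (Fbc_io.comp ψ.toMonoidHom) ((Fbc_io u)⁻¹ * FreeGroup.of none) (Fbc_io y) = _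
  simp

@[simp] theorem Fbc_aut_none (ψ : MulAut (FreeGroup α)) (u : FreeGroup α) :
    Fbc_aut ψ u (FreeGroup.of none) = (Fbc_io u)⁻¹ * FreeGroup.of none := by
  change Fbc_fl (Fbc_io.comp ψ.toMonoidHom) ((Fbc_io u)⁻¹ * FreeGroup.of none) (FreeGroup.of none) = _
  simp

end ext

theorem fbc_hnn {G : Type*} [Group G] {p : G →* Multiplicative ℤ} (h : FBC G p) {a b : G}
    (ha : p a = Multiplicative.ofAdd 1) (hb : p b = Multiplicative.ofAdd 1)
    {φ : Subgroup.zpowers a ≃* Subgroup.zpowers b} (hφ : Ph a b φ) :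
    FBC (HNNExtension G (Subgroup.zpowers a) (Subgroup.zpowers b) φ) (pe p ha hb hφ) := by
  obtain ⟨r, ψ, e, he, hea⟩ := fbc_rebase h ha
  obtain ⟨u, hu⟩ : ∃ u, e b = SemidirectProduct.inl u *
      SemidirectProduct.inr (Multiplicative.ofAdd 1) := by
    refine ⟨(e b).left, ?_⟩
    rw [← hb, ← he b, SemidirectProduct.inl_left_mul_inr_right]
  -- the map from `F_r ⋊ ℤ`
  let k : FreeGroup (Fin r) ⋊[zpowersHom _ ψ] Multiplicative ℤ →*
      FreeGroup (Option (Fin r)) ⋊[zpowersHom _ (Fbc_aut ψ u)] Multiplicative ℤ :=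
    Fbc_lift ψ (SemidirectProduct.inl.comp Fbc_io)
      (SemidirectProduct.inr (Multiplicative.ofAdd 1)) (by
        intro x
        have h1 := Fbc_inr (Fbc_aut ψ u) (Fbc_io x)
        rw [Fbc_aut_io] at h1
        simpa using h1)
  have kinl : ∀ y, k (SemidirectProduct.inl y) = SemidirectProduct.inl (Fbc_io y) := by
    intro y
    simp [k]
  have kinr : k (SemidirectProduct.inr (Multiplicative.ofAdd 1)) =
      SemidirectProduct.inr (Multiplicative.ofAdd 1) := by
    simp [k]
  let fw : HNNExtension G (Subgroup.zpowers a) (Subgroup.zpowers b) φ →*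
      FreeGroup (Option (Fin r)) ⋊[zpowersHom _ (Fbc_aut ψ u)] Multiplicative ℤ :=
    HNNExtension.lift (k.comp e.toMonoidHom) (SemidirectProduct.inl (FreeGroup.of none)) (by
      rintro ⟨_, j, rfl⟩
      have h1 : (φ ⟨a ^ j, ⟨j, rfl⟩⟩ : G) = b ^ j := phi_zpow hφ j
      change _ * (k.comp e.toMonoidHom) (a ^ j) =
        (k.comp e.toMonoidHom) (φ ⟨a ^ j, ⟨j, rfl⟩⟩ : G) * _
      rw [h1, map_zpow, map_zpow]
      have h2 : SemiconjBy (SemidirectProduct.inl (FreeGroup.of none) :
          FreeGroup (Option (Fin r)) ⋊[zpowersHom _ (Fbc_aut ψ u)] Multiplicative ℤ)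
          ((k.comp e.toMonoidHom) a) ((k.comp e.toMonoidHom) b) := by
        change _ * k (e a) = k (e b) * _
        rw [hea, hu, map_mul, kinl, kinr]
        have h3 := Fbc_inr (Fbc_aut ψ u) (FreeGroup.of none)
        rw [Fbc_aut_none, map_mul, map_inv, eq_mul_inv_iff_mul_eq, mul_assoc,
          inv_mul_eq_iff_eq_mul] at h3
        rw [h3, mul_assoc]
      exact (h2.zpow_right j).eq)
  have fwof : ∀ g, fw (of g) = k (e g) := by
    intro g
    simp [fw]
  have fwt : fw t = SemidirectProduct.inl (FreeGroup.of none) := by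
    simp [fw]
  -- the map back
  let m : FreeGroup (Option (Fin r)) →*
      HNNExtension G (Subgroup.zpowers a) (Subgroup.zpowers b) φ :=
    Fbc_fl ((of.comp e.symm.toMonoidHom).comp SemidirectProduct.inl) t
  have mio : ∀ y, m (Fbc_io y) = of (e.symm (SemidirectProduct.inl y)) := by
    intro y
    simp [m]
  have mno : m (FreeGroup.of none) = t := by
    simp [m]
  have hea' : e.symm (SemidirectProduct.inr (Multiplicative.ofAdd 1)) = a := by
    rw [← hea, MulEquiv.symm_apply_apply]
  have hub : b = e.symm (SemidirectProduct.inl u) * a := by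
    have h1 : e.symm (e b) = e.symm (SemidirectProduct.inl u *
      SemidirectProduct.inr (Multiplicative.ofAdd 1)) := by rw [hu]
    rw [MulEquiv.symm_apply_apply, map_mul, hea'] at h1
    exact h1
  have hm : ∀ x, m (Fbc_aut ψ u x) = of a * m x * (of a)⁻¹ := by
    have h1 : m.comp (Fbc_aut ψ u).toMonoidHom =
        (MulAut.conj (of a : HNNExtension G (Subgroup.zpowers a) (Subgroup.zpowers b)
          φ)).toMonoidHom.comp m := by
      refine Fbc_fl_ext ?_ ?_
      · intro y
        change m (Fbc_aut ψ u (Fbc_io y)) = of a * m (Fbc_io y) * (of a)⁻¹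
        rw [Fbc_aut_io, mio, mio, Fbc_inr]
        simp only [map_mul, map_inv, hea']
      · change m (Fbc_aut ψ u (FreeGroup.of none)) = of a * m (FreeGroup.of none) * (of a)⁻¹
        rw [Fbc_aut_none, map_mul, map_inv, mio, mno, inv_mul_eq_iff_eq_mul,
          eq_comm, ← mul_assoc, mul_inv_eq_iff_eq_mul, ← mul_assoc, ← map_mul, ← hub]
        have h2 := slide hφ 1 1
        simpa [cg] using h2.symm
    intro x
    exact DFunLike.congr_fun h1 x
  let bw : FreeGroup (Option (Fin r)) ⋊[zpowersHom _ (Fbc_aut ψ u)] Multiplicative ℤ →*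
      HNNExtension G (Subgroup.zpowers a) (Subgroup.zpowers b) φ :=
    Fbc_lift (Fbc_aut ψ u) m (of a) hm
  have bwinl : ∀ y, bw (SemidirectProduct.inl y) = m y := by
    intro y
    simp [bw]
  have bwinr : bw (SemidirectProduct.inr (Multiplicative.ofAdd 1)) = of a := by
    simp [bw]
  have hbk : bw.comp k = of.comp e.symm.toMonoidHom := by
    refine Fbc_hom_ext ?_ ?_
    · intro y
      change bw (k _) = of (e.symm _)
      rw [kinl, bwinl, mio]
    · change bw (k _) = of (e.symm _)
      rw [kinr, bwinr, hea']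
  have h1 : bw.comp fw = MonoidHom.id _ := by
    refine HNNExtension.hom_ext ?_ ?_
    · ext g
      change bw (fw (of g)) = of g
      rw [fwof]
      have := DFunLike.congr_fun hbk (e g)
      change bw (k (e g)) = of (e.symm (e g)) at this
      rw [this, MulEquiv.symm_apply_apply]
    · change bw (fw t) = t
      rw [fwt, bwinl, mno]
  have h2 : fw.comp bw = MonoidHom.id _ := by
    refine Fbc_hom_ext ?_ ?_
    · have h3 : (fw.comp bw).comp SemidirectProduct.inl =
          (SemidirectProduct.inl : FreeGroup (Option (Fin r)) →*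
            FreeGroup (Option (Fin r)) ⋊[zpowersHom _ (Fbc_aut ψ u)] Multiplicative ℤ) := by
        refine Fbc_fl_ext ?_ ?_
        · intro y
          change fw (bw (SemidirectProduct.inl (Fbc_io y))) = SemidirectProduct.inl (Fbc_io y)
          rw [bwinl, mio, fwof, MulEquiv.apply_symm_apply, kinl]
        · change fw (bw (SemidirectProduct.inl (FreeGroup.of none))) =
            SemidirectProduct.inl (FreeGroup.of none)
          rw [bwinl, mno, fwt]
      intro x
      exact DFunLike.congr_fun h3 x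
    · change fw (bw (SemidirectProduct.inr (Multiplicative.ofAdd 1))) =
        SemidirectProduct.inr (Multiplicative.ofAdd 1)
      rw [bwinr, fwof, hea, kinr]
  have hk : SemidirectProduct.rightHom.comp k = SemidirectProduct.rightHom := by
    refine Fbc_hom_ext ?_ ?_
    · intro y
      change SemidirectProduct.rightHom (k _) = _
      rw [kinl, SemidirectProduct.rightHom_inl, SemidirectProduct.rightHom_inl]
    · change SemidirectProduct.rightHom (k _) = _
      rw [kinr, SemidirectProduct.rightHom_inr, SemidirectProduct.rightHom_inr]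
  have hr : SemidirectProduct.rightHom.comp fw = pe p ha hb hφ := by
    refine HNNExtension.hom_ext ?_ ?_
    · ext g
      change SemidirectProduct.rightHom (fw (of g)) = pe p ha hb hφ (of g)
      rw [fwof, pe_of, ← he g]
      exact DFunLike.congr_fun hk (e g)
    · change SemidirectProduct.rightHom (fw t) = pe p ha hb hφ t
      rw [fwt, pe_t, SemidirectProduct.rightHom_inl]
  exact Fbc_of (r := r + 1) (FreeGroup.freeGroupCongr (finSuccEquiv r).symm) (Fbc_aut ψ u)
    (Nat.le_add_left 1 r) (MonoidHom.toMulEquiv fw bw h1 h2) (fun g => DFunLike.congr_fun hr g)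

end Pool.Agent.helper12.FD
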