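import Pool.Agent.helper12.FD.Cm

/-!
Module FD-Ineq: the compositions `cmp l` for non-increasing lists `l` of numbers `≥ 1` are pairwise
inequivalent (they form a chain of order type `ω ^ ω`).

Write `F ≪ G` (`Ll F G` below) for: for every `C` there is `N` with
`C * F (C * n + C) + C * n + C ≤ G n` for all `n ≥ N`... use it with larger `C` to get strict inequalities.
1. `Ll F G` implies `¬ Dom G F`: take `C` from `Dom G F`, apply `Ll` with `C + 1`.
2. `Ll id (fk k)` for `k ≥ 1`: `fk k` is at least `fk 1 n = 2 ^ n - 1` (`fk` is monotone in `k` up to the trivial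
   `fk (k+1) n ≥ fk k (n - 1) + 1`; or use `gr_fk`: `Gr` gives exponential growth, see the proof of `gr0_of_gr`
   and `dbl_pow_fun`: `2 ^ i * F 1 ≤ F (1 + i * D)`).
3. If `Ll F G`, `F`, `G` monotone, `k ≥ 1`, then `Ll (fk k ∘ F) (fk k ∘ G)`: with `D` from `Gr (fk k)` and `C ≤ 2 ^ C`,
   `C * fk k x + y ≤ fk k (x + C * D) + y ≤ fk k (x + C * D + y)` (`dbl_pow_fun`, `add_le`), where
   `x = F (C * n + C)`, `y = C * n + C`, and `x + C * D + y ≤ G n` for large `n` by `Ll F G` with the constant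
   `C * D + C + 1` and monotonicity of `F`.
4. If `j < k` and all entries of `l` are `≤ j` and `≥ 1`, then `Ll (cmp l) (fk k)`. Enough `k = j + 1` for all
   entries `≤ j` (`fk (k+1)` is eventually at least `fk k`, or compare with `Ll` and item 2). Induction on `l`:
   `l = []` is item 2. For `i :: l`, `1 ≤ i ≤ j`: by induction `Ll (cmp l) (fk (j+1))`, so (item 3)
   `Ll (fk i ∘ cmp l) (fk i ∘ fk (j+1))`, and `fk i (fk (j+1) n) ≤ fk j (fk (j+1) n + c) ≤ fk (j+1) (n + c')` for `i ≤ j`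
   (`fk j (iter (fk j) n) + 1 = iter (fk j) (n+1)`); absorb the shift `n + c'` (use `Ll` at `n - c'`, i.e. state
   everything for `fun n => G (n + c)`: `Ll F (fun n => G (n + c))` implies `Ll F G` for monotone `F`, since
   `C * F (C * n + C) ≤ C' * F (C' * (n - c) + C')` with `C' = C * (c + 2)`, `n ≥ c`).
   Here `fk i x ≤ fk j (x + c)` for `1 ≤ i ≤ j`: from `fk (i+1) (n+1) = fk i (fk (i+1) n) + 1 ≥ fk i n + 1` one gets
   `fk i n ≤ fk (i+1) (n+1)`, so `c = j - i`.
5. Lexicographic comparison: for `l ≠ l'` both non-increasing with entries `≥ 1`: remove the common prefix; then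
   either one is empty (item 2 and `cmp (k :: l) n ≥ fk k n`) or the heads differ, `k' < k` (item 4 for the list with
   the smaller head, all its entries are `≤ k'`; `fk k n ≤ fk k (cmp l n)`). Then put back the prefix by item 3.
   (Induction on the lists.)
-/

namespace Pool.Agent.helper12.FD

/-- `F` is much smaller than `G` -/
def Ll (F G : ℕ → ℕ) : Prop := ∀ C : ℕ, ∃ N : ℕ, ∀ n, N ≤ n → C * F (C * n + C) + C * n + C ≤ G n

theorem Ineq_mono (l : List ℕ) : StrictMono (cmp l) := by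
  induction l with
  | nil => exact strictMono_id
  | cons k l ih => exact (gr0_fk k).mono.comp ih

theorem Ineq_not_dom {F G : ℕ → ℕ} (hF : Monotone F) (h : Ll F G) : ¬ Dom G F := by
  rintro ⟨C, -, hC⟩
  obtain ⟨N, hN⟩ := h (C + 1)
  have h1 := hN N le_rfl
  have h2 := hC N
  have h3 : F (C * N + C) ≤ F ((C + 1) * N + (C + 1)) := hF (by nlinarith)
  have h4 : C * F (C * N + C) ≤ C * F ((C + 1) * N + (C + 1)) := Nat.mul_le_mul_left _ h3
  have h5 : (C + 1) * F ((C + 1) * N + (C + 1)) =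
      C * F ((C + 1) * N + (C + 1)) + F ((C + 1) * N + (C + 1)) := by ring
  have h6 : (C + 1) * N = C * N + N := by ring
  omega

theorem Ineq_trans {F G G' : ℕ → ℕ} (h : Ll F G) (h' : ∀ n, G n ≤ G' n) : Ll F G' := by
  intro C
  obtain ⟨N, hN⟩ := h C
  exact ⟨N, fun n hn => (hN n hn).trans (h' n)⟩

theorem Ineq_shift {F G : ℕ → ℕ} (hF : Monotone F) (c : ℕ) (h : Ll F fun n => G (n + c)) :
    Ll F G := by
  intro C
  obtain ⟨N, hN⟩ := h (C * (c + 2))
  refine ⟨N + c, fun n hn => ?_⟩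
  obtain ⟨m, rfl⟩ : ∃ m, n = m + c := ⟨n - c, by omega⟩
  refine le_trans ?_ (hN m (by omega))
  have h1 : C ≤ C * (c + 2) := Nat.le_mul_of_pos_right _ (by omega)
  have h2 : C * (m + c) + C ≤ C * (c + 2) * m + C * (c + 2) := by
    have : C * m ≤ C * (c + 2) * m := Nat.mul_le_mul_right _ h1
    nlinarith
  have h3 := Nat.mul_le_mul h1 (hF h2)
  omega

/-- superlinear growth -/
theorem Ineq_sup {F : ℕ → ℕ} (h : Gr F) (A : ℕ) : ∃ N, ∀ n, N ≤ n → A * n + A ≤ F n := by
  obtain ⟨D, hD⟩ := h.dbl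
  refine ⟨2 * (2 * A * D) + 1, fun n hn => ?_⟩
  obtain ⟨m, rfl⟩ : ∃ m, n = m + 2 * A * D := ⟨n - 2 * A * D, by omega⟩
  have h1 := dbl_pow_fun hD (2 * A) m
  have h2 : 2 * A ≤ 2 ^ (2 * A) := Nat.lt_two_pow_self.le
  have h3 := Nat.mul_le_mul h2 (le_self h.mono m)
  have h4 : A * (m + 2 * A * D) + A ≤ 2 * A * m := by
    have h5 : 2 * A * D + 1 ≤ m := by omega
    have h6 := Nat.mul_le_mul_left A h5
    nlinarith
  omega

theorem Ineq_id {F : ℕ → ℕ} (h : Gr F) : Ll id F := by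
  intro C
  obtain ⟨N, hN⟩ := Ineq_sup h (C * C + C)
  refine ⟨N, fun n hn => le_trans (le_of_eq ?_) (hN n hn)⟩
  simp only [id]
  ring

theorem Ineq_comp {F G H : ℕ → ℕ} (hH : Gr H) (hF : Monotone F) (h : Ll F G) :
    Ll (H ∘ F) (H ∘ G) := by
  intro C
  obtain ⟨D, hD⟩ := hH.dbl
  obtain ⟨N, hN⟩ := h (C * D + C + 1)
  refine ⟨N, fun n hn => ?_⟩
  have h1 := hN n hn
  change C * H (F (C * n + C)) + C * n + C ≤ H (G n)
  have h2 : C * H (F (C * n + C)) ≤ H (F (C * n + C) + C * D) :=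
    (Nat.mul_le_mul_right _ Nat.lt_two_pow_self.le).trans (dbl_pow_fun hD C _)
  have h3 := add_le hH.mono (F (C * n + C) + C * D) (C * n + C)
  have h4 : F (C * n + C) + C * D + (C * n + C) ≤ G n := by
    refine le_trans ?_ h1
    have h5 : F (C * n + C) ≤ F ((C * D + C + 1) * n + (C * D + C + 1)) := by
      apply hF
      have : C * n ≤ (C * D + C + 1) * n := Nat.mul_le_mul_right _ (by omega)
      omega
    have h6 : F ((C * D + C + 1) * n + (C * D + C + 1)) ≤
        (C * D + C + 1) * F ((C * D + C + 1) * n + (C * D + C + 1)) :=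
      Nat.le_mul_of_pos_left _ (by omega)
    have h7 : C * n ≤ (C * D + C + 1) * n := Nat.mul_le_mul_right _ (by omega)
    omega
  have h5 := hH.mono.monotone h4
  omega

theorem Ineq_fk_succ (i n : ℕ) : fk i n ≤ fk (i + 1) (n + 1) := by
  change fk i n ≤ iter (fk i) (n + 1)
  rw [iter_succ]
  have h1 : n ≤ iter (fk i) n := le_self (gr_iter (gr0_fk i)).mono n
  have h2 := (gr0_fk i).mono.monotone h1
  omega

theorem Ineq_fk_add (i c n : ℕ) : fk i n ≤ fk (i + c) (n + c) := by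
  induction c with
  | zero => exact le_rfl
  | succ c ih => exact ih.trans (Ineq_fk_succ _ _)

theorem Ineq_fk_fk {i j : ℕ} (hij : i ≤ j) (n : ℕ) :
    fk i (fk (j + 1) n) ≤ fk (j + 1) (n + (j - i + 1)) := by
  have h1 := Ineq_fk_add i (j - i) (fk (j + 1) n)
  rw [Nat.add_sub_cancel' hij] at h1
  have h2 := add_le (gr0_fk (j + 1)).mono n (j - i)
  have h3 := (gr0_fk j).mono.monotone h2
  have h4 : fk (j + 1) (n + (j - i + 1)) = fk j (fk (j + 1) (n + (j - i))) + 1 :=
    iter_succ (fk j) (n + (j - i))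
  omega

theorem Ineq_cmp_le {l : List ℕ} {j : ℕ} (h1 : ∀ k ∈ l, 1 ≤ k) (h2 : ∀ k ∈ l, k ≤ j) :
    Ll (cmp l) (fk (j + 1)) := by
  induction l with
  | nil => exact Ineq_id (gr_fk j)
  | cons i l ih =>
    have ih' := ih (fun k hk => h1 k (List.mem_cons_of_mem _ hk))
      (fun k hk => h2 k (List.mem_cons_of_mem _ hk))
    have hi1 := h1 i List.mem_cons_self
    have hi2 := h2 i List.mem_cons_self
    obtain ⟨i', rfl⟩ : ∃ i', i = i' + 1 := ⟨i - 1, by omega⟩
    have h3 := Ineq_comp (gr_fk i') (Ineq_mono l).monotone ih'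
    exact Ineq_shift (Ineq_mono ((i' + 1) :: l)).monotone (j - (i' + 1) + 1)
      (Ineq_trans h3 fun n => Ineq_fk_fk hi2 n)

theorem Ineq_cmp_lt {l : List ℕ} {j k : ℕ} (h1 : ∀ i ∈ l, 1 ≤ i) (h2 : ∀ i ∈ l, i ≤ j)
    (hjk : j < k) : Ll (cmp l) (fk k) := by
  refine Ineq_shift (Ineq_mono l).monotone (k - (j + 1)) (Ineq_trans (Ineq_cmp_le h1 h2) fun n => ?_)
  have h3 := Ineq_fk_add (j + 1) (k - (j + 1)) n
  rwa [Nat.add_sub_cancel' (by omega : j + 1 ≤ k)] at h3

theorem Ineq_lt {k k' : ℕ} {l l' : List ℕ} (h : (k :: l).Pairwise (· ≥ ·))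
    (h1 : ∀ i ∈ k :: l, 1 ≤ i) (hk : k < k') : Ll (cmp (k :: l)) (cmp (k' :: l')) := by
  refine Ineq_trans (Ineq_cmp_lt h1 (j := k) ?_ hk) fun n => ?_
  · intro i hi
    rcases List.mem_cons.1 hi with h2 | h2
    · exact h2.le
    · exact (List.pairwise_cons.1 h).1 i h2
  · exact (gr0_fk k').mono.monotone (le_self (Ineq_mono l') n)

theorem cmp_ineq {l l' : List ℕ} (h : l.Pairwise (· ≥ ·)) (h' : l'.Pairwise (· ≥ ·))
    (h1 : ∀ k ∈ l, 1 ≤ k) (h1' : ∀ k ∈ l', 1 ≤ k) (hne : l ≠ l') :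
    Ll (cmp l) (cmp l') ∨ Ll (cmp l') (cmp l) := by
  induction l generalizing l' with
  | nil =>
    cases l' with
    | nil => exact absurd rfl hne
    | cons k' l' => exact Or.inl (Ineq_id (gr_cmp _ (List.cons_ne_nil _ _) h1'))
  | cons k l ih =>
    cases l' with
    | nil => exact Or.inr (Ineq_id (gr_cmp _ (List.cons_ne_nil _ _) h1))
    | cons k' l' =>
      rcases lt_trichotomy k k' with hk | hk | hk
      · exact Or.inl (Ineq_lt h h1 hk)
      · subst hk
        have hk1 := h1 k List.mem_cons_self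
        obtain ⟨i, rfl⟩ : ∃ i, k = i + 1 := ⟨k - 1, by omega⟩
        have h2 := ih (List.pairwise_cons.1 h).2 (List.pairwise_cons.1 h').2
          (fun i hi => h1 i (List.mem_cons_of_mem _ hi))
          (fun i hi => h1' i (List.mem_cons_of_mem _ hi)) (fun e => hne (by rw [e]))
        rcases h2 with h2 | h2
        · exact Or.inl (Ineq_comp (gr_fk i) (Ineq_mono l).monotone h2)
        · exact Or.inr (Ineq_comp (gr_fk i) (Ineq_mono l').monotone h2)
      · exact Or.inr (Ineq_lt h' h1' hk)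

theorem not_eqv {l l' : List ℕ} (h : l.Pairwise (· ≥ ·)) (h' : l'.Pairwise (· ≥ ·))
    (h1 : ∀ k ∈ l, 1 ≤ k) (h1' : ∀ k ∈ l', 1 ≤ k) (hne : l ≠ l') :
    ¬ Eqv (cmp l) (cmp l') := by
  rintro ⟨h2, h3⟩
  rcases cmp_ineq h h' h1 h1' hne with h4 | h4
  · exact Ineq_not_dom (Ineq_mono l).monotone h4 h3
  · exact Ineq_not_dom (Ineq_mono l').monotone h4 h2

end Pool.Agent.helper12.FD
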