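import Pool.Agent.helper12.FD.Fun

/-! The compositions of the functions `fk k`. -/

namespace Pool.Agent.helper12.FD

/-- composition of the functions `fk k` for `k` in the list (the first one outermost) -/
def cmp : List ℕ → ℕ → ℕ
  | [] => id
  | k :: l => fk k ∘ cmp l

theorem gr_cmp : ∀ (l : List ℕ), l ≠ [] → (∀ k ∈ l, 1 ≤ k) → Gr (cmp l)
  | [], h, _ => absurd rfl h
  | [k], _, h => by
    obtain ⟨k', rfl⟩ : ∃ k', k = k' + 1 := ⟨k - 1, by have := h k (by simp); omega⟩
    exact gr_fk k'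
  | k :: k2 :: l, _, h => by
    obtain ⟨k', rfl⟩ : ∃ k', k = k' + 1 := ⟨k - 1, by have := h k (by simp); omega⟩
    exact gr_comp (gr_fk k') (gr_cmp (k2 :: l) (by simp) (fun x hx => h x (by simp at hx ⊢; tauto)))

end Pool.Agent.helper12.FD
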