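import Pool.Agent.helper12.FD.Defs

/-!
Module FD-Fun: elementary facts about the functions `iter f`, `fk k` and the growth structures
`Gr`, `Gr0`.

Hints. `iter f (n+1) = f (iter f n) + 1` by `Function.iterate_succ_apply'`.
* `gr_iter`: strict monotonicity since `f y + 1 ≥ y + 1`. Doubling: let `N` be from `h.sup`; take
  `D = N + 1`. If `iter f n ≥ N` then `iter f (n+1) ≥ 2 * iter f n + 1`; otherwise
  `iter f (n + N + 1) ≥ iter f n + N + 1 ≥ 2 * iter f n`.
* `gr0_of_gr`: `F` with doubling constant `D` satisfies `F (n + k * D) ≥ 2 ^ k * F n`, and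
  `F 1 ≥ 1`, so `F n ≥ 2 ^ k ≥ 2 * n` for `k = (n - 1) / D` once `n` is large (`2 ^ k` beats the
  linear function `2 * (k + 1) * D + 2`).
* `gr_comp`: `f (F (n + D)) ≥ f (F n + D) ≥ 2 * f (F n)` with `D` the constant of `f`.
* `absorb`: with `C ≤ 2 ^ C`: `C * (F k + n + 1) ≤ 2 ^ C * F (k + n + 1) ≤ F (k + n + 1 + C * D)
  ≤ F (k + (1 + C * D) * (n + 1))`.
* `absorb2`: `(n + 1) * (F k + 1) ≤ 2 ^ n * F (k + 1) ≤ F (k + 1 + n * D) ≤ F (k + (D+1) * (n+1))`.
-/

namespace Pool.Agent.helper12.FD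

theorem le_self {F : ℕ → ℕ} (h : StrictMono F) (n : ℕ) : n ≤ F n := by
  exact h.le_apply

theorem add_le {F : ℕ → ℕ} (h : StrictMono F) (n k : ℕ) : F n + k ≤ F (n + k) := by
  induction k with
  | zero => exact le_rfl
  | succ k ih =>
    have h1 : F (n + k) < F (n + (k + 1)) := h (by omega)
    omega

@[simp] theorem iter_zero (f : ℕ → ℕ) : iter f 0 = 0 := by
  rfl

theorem iter_succ (f : ℕ → ℕ) (n : ℕ) : iter f (n + 1) = f (iter f n) + 1 := by
  exact Function.iterate_succ_apply' _ _ _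

theorem gr0_fk_zero : Gr0 (fk 0) := by
  refine ⟨fun a b hab => ?_, rfl, 0, fun n _ => le_rfl⟩
  change 2 * a < 2 * b
  omega

theorem gr_iter {f : ℕ → ℕ} (h : Gr0 f) : Gr (iter f) := by
  have hm : StrictMono (iter f) := by
    refine strictMono_nat_of_lt_succ fun n => ?_
    rw [iter_succ]
    have h1 := le_self h.mono (iter f n)
    omega
  refine ⟨hm, rfl, ?_⟩
  obtain ⟨N, hN⟩ := h.sup
  refine ⟨N + 1, fun n => ?_⟩
  by_cases h1 : N ≤ iter f n
  · have h2 : iter f (n + 1) ≤ iter f (n + (N + 1)) := hm.monotone (by omega)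
    rw [iter_succ] at h2
    have h3 := hN _ h1
    omega
  · have h2 := add_le hm n (N + 1)
    omega

theorem gr0_of_gr {F : ℕ → ℕ} (h : Gr F) : Gr0 F := by
  obtain ⟨D, hD⟩ := h.dbl
  refine ⟨h.mono, h.zero, ?_⟩
  have hD1 : 1 ≤ D := by
    by_contra hD0
    have h1 : D = 0 := by omega
    have h2 := hD 1
    have h3 := le_self h.mono 1
    rw [h1] at h2
    simp only [add_zero] at h2
    omega
  have h1 : ∀ k n, 2 ^ k * F n ≤ F (n + k * D) := by
    intro k
    induction k with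
    | zero => intro n; simp
    | succ k ih =>
      intro n
      have h2 := ih n
      have h3 := hD (n + k * D)
      have h4 : n + (k + 1) * D = n + k * D + D := by ring
      rw [h4, pow_succ]
      calc 2 ^ k * 2 * F n = 2 * (2 ^ k * F n) := by ring
        _ ≤ 2 * F (n + k * D) := by omega
        _ ≤ _ := h3
  -- `2 ^ k` beats a linear function
  have h2 : ∃ K : ℕ, ∀ k, K ≤ k → 2 * ((k + 1) * D + 1) ≤ 2 ^ k := by
    have h3 : ∀ k : ℕ, k ^ 2 < 2 ^ k * 4 := by
      intro k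
      induction k with
      | zero => norm_num
      | succ k ih =>
        rcases Nat.lt_or_ge k 3 with hk | hk
        · interval_cases k <;> norm_num
        · rw [pow_succ 2 k]
          nlinarith
    refine ⟨8 * (2 * D + 1) + 8 , fun k hk => ?_⟩
    have h4 := h3 k
    have h5 : 8 * (2 * D + 1) * k ≤ k ^ 2 := by
      rw [pow_two]
      exact Nat.mul_le_mul_right _ (by omega)
    nlinarith
  obtain ⟨K, hK⟩ := h2
  refine ⟨(K + 1) * D + 1, fun n hn => ?_⟩
  have h3 := Nat.div_add_mod (n - 1) D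
  have h4 : (n - 1) % D < D := Nat.mod_lt _ hD1
  have h5 : K ≤ (n - 1) / D := by
    rw [Nat.le_div_iff_mul_le hD1]
    have : K * D ≤ (K + 1) * D := Nat.mul_le_mul_right _ (by omega)
    omega
  have h6 := hK _ h5
  have h7 := h1 ((n - 1) / D) 1
  have h8 : F (1 + (n - 1) / D * D) ≤ F n := by
    apply h.mono.monotone
    have : D * ((n - 1) / D) = (n - 1) / D * D := Nat.mul_comm _ _
    omega
  have h9 := le_self h.mono 1
  have h10 : 2 ^ ((n - 1) / D) ≤ 2 ^ ((n - 1) / D) * F 1 := Nat.le_mul_of_pos_right _ (by omega)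
  have h11 : n ≤ ((n - 1) / D + 1) * D + 1 := by
    have : D * ((n - 1) / D) = (n - 1) / D * D := Nat.mul_comm _ _
    rw [Nat.add_mul]
    omega
  omega

theorem gr0_fk (k : ℕ) : Gr0 (fk k) := by
  induction k with
  | zero => exact gr0_fk_zero
  | succ k ih => exact gr0_of_gr (gr_iter ih)

theorem gr_fk (k : ℕ) : Gr (fk (k + 1)) := by
  exact gr_iter (gr0_fk k)

theorem gr_comp {f F : ℕ → ℕ} (hf : Gr f) (hF : Gr F) : Gr (f ∘ F) := by
  refine ⟨hf.mono.comp hF.mono, ?_, ?_⟩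
  · change f (F 0) = 0
    rw [hF.zero, hf.zero]
  · obtain ⟨D, hD⟩ := hf.dbl
    refine ⟨D, fun n => ?_⟩
    change 2 * f (F n) ≤ f (F (n + D))
    exact (hD _).trans (hf.mono.monotone (add_le hF.mono n D))

theorem dbl_pow_fun {F : ℕ → ℕ} {D : ℕ} (hD : ∀ n, 2 * F n ≤ F (n + D)) (k n : ℕ) :
    2 ^ k * F n ≤ F (n + k * D) := by
  induction k with
  | zero => simp
  | succ k ih =>
    have h3 := hD (n + k * D)
    have h4 : n + (k + 1) * D = n + k * D + D := by ring
    rw [h4, pow_succ]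
    calc 2 ^ k * 2 * F n = 2 * (2 ^ k * F n) := by ring
      _ ≤ 2 * F (n + k * D) := by omega
      _ ≤ _ := h3

theorem absorb {F : ℕ → ℕ} (h : Gr F) (C : ℕ) :
    ∃ D : ℕ, ∀ k n, C * (F k + n + 1) ≤ F (k + D * (n + 1)) := by
  obtain ⟨D, hD⟩ := h.dbl
  refine ⟨1 + C * D, fun k n => ?_⟩
  have h1 : F k + n + 1 ≤ F (k + (n + 1)) := by
    have := add_le h.mono k (n + 1)
    omega
  have h2 : C ≤ 2 ^ C := Nat.lt_two_pow_self.le
  calc C * (F k + n + 1) ≤ 2 ^ C * F (k + (n + 1)) := Nat.mul_le_mul h2 h1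
    _ ≤ F (k + (n + 1) + C * D) := dbl_pow_fun hD C _
    _ ≤ F (k + (1 + C * D) * (n + 1)) := by
        apply h.mono.monotone
        have : C * D ≤ C * D * (n + 1) := Nat.le_mul_of_pos_right _ (by omega)
        rw [Nat.add_mul]
        omega

theorem absorb2 {F : ℕ → ℕ} (h : Gr F) :
    ∃ D : ℕ, ∀ k n, (n + 1) * (F k + 1) ≤ F (k + D * (n + 1)) := by
  obtain ⟨D, hD⟩ := h.dbl
  refine ⟨D + 1, fun k n => ?_⟩
  have h1 : F k + 1 ≤ F (k + 1) := add_le h.mono k 1
  have h2 : n + 1 ≤ 2 ^ n := Nat.lt_two_pow_self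
  calc (n + 1) * (F k + 1) ≤ 2 ^ n * F (k + 1) := Nat.mul_le_mul h2 h1
    _ ≤ F (k + 1 + n * D) := dbl_pow_fun hD n _
    _ ≤ F (k + (D + 1) * (n + 1)) := by
        apply h.mono.monotone
        nlinarith

/-- `F` dominates the composite bound: used for the final comparison of functions. -/
theorem dom_comp {F : ℕ → ℕ} (h : Gr F) {d : ℕ → ℕ} {D : ℕ} (hd : ∀ n, d n ≤ F (D * (n + 1))) :
    Dom d F := by
  refine ⟨D + 1, by omega, fun n => ?_⟩
  have h1 := hd n
  have h2 : F (D * (n + 1)) ≤ F ((D + 1) * n + (D + 1)) := by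
    apply h.mono.monotone
    nlinarith
  have h3 : F ((D + 1) * n + (D + 1)) ≤ (D + 1) * F ((D + 1) * n + (D + 1)) :=
    Nat.le_mul_of_pos_left _ (by omega)
  omega

end Pool.Agent.helper12.FD
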