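import Pool.Agent.helper12.FD.Triv
import Pool.Agent.helper12.FD.Fun

/-!
Module FD-Comp: composition. `G` carries a gadget `(H, T, s, r; f)` and a composite gadget
`(K, U, σ, τ; F)`; in `E = HNN(G; τ → s)` (stable letter `t`, `t τ t⁻¹ = s`, so `cg τ s 1 = τ`,
`cg τ s (-1) = s`) the subgroup `K' = ⟨K, t⁻¹ H t⟩` computes `f ∘ F` from `σ` to `τ' = t⁻¹ r t`.

`rel`. `σ ^ N = k τ ^ M`, `M = F N`, `k ∈ K`; `τ ^ M = t⁻¹ s ^ M t` (`slide`), `s ^ M = h r ^ (f M)`,
`h ∈ H`: `σ ^ N (τ' ^ (f M))⁻¹ = k (t⁻¹ h t)`.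

`add`. Use `path` with `V = Bool` (`false`: the vertex `K`, `true`: the vertex `H`),
`Hv false = K`, `Hv true = H`, `q false = 1`, `q true = t⁻¹`, `sp = r`,
`δ v u v' := (v = false ∧ u = -1 ∧ v' = true) ∨ (v = true ∧ u = 1 ∧ v' = false)`,
`ok v i := (v = false ∧ i = some 1) ∨ (v = true ∧ i ≠ some 1)`,
`Ev v i κ j := ok v i ∧ j.natAbs ≤ (if i = none then f (F κ) else F κ)`, `Λ κ = f (F κ)`,
`TT = of '' U ∪ (fun x => t⁻¹ * of x * t) '' T`. `C ≥ 1` bounds the lengths of `τ`, `s`.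
* `hq`: `q v * t ^ u * (q v')⁻¹ = 1` in both cases.
* `hcr`: trivial (`(false, some 1) → (true, some (-1))`, `(true, some (-1)) → (false, some 1)`).
* `hstep`, vertex `K`: `i = i' = some 1`, `k.add` with `m = κ`, `n = C * c`:
  `κ + C₁ * (C * c + 1) ≤ κ + D * (c + 1)`; `F x ≤ f (F x)`.
* `hstep`, vertex `H`: `i, i'` are the lines `s` (`some (-1)`) or `r` (`none`), `h.mul` with `m = F κ`
  (`val f` is exactly the bound of `Ev`), `n = C * c`: the new bounds are with
  `C₂ * (F κ + C * c + 1) ≤ C₂ * (C + 1) * (F κ + c + 1) ≤ F (κ + D * (c + 1))` (`absorb`).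
  The word `t⁻¹ * of y * t` is short over `TT` (`W_map` for conjugation, `W_subset`).
* `Pa`: `Pa_t_mul` needs `htriv` (`Out.triv`, `Gad.triv_s`) and `hdet` (by cases). If `k' ∈ K'` then
  `k' * x ∈ Pa false v1` for `x ∈ Pa false v1` (`Pa_closure`; for a generator `t⁻¹ * of h * t` use
  `Pa_t_mul` with `u = 1`, `Pa_of_mul`, `Pa_t_mul` with `u = -1`). Apply to `x = t⁻¹ ∈ Pa false true`
  (`= t⁻¹ * of 1`), then `t * (k' * t⁻¹) ∈ Pa true true`.
Given `W (gens φ S) w n`, `|j| ≤ f (F m)`, `τ' ^ j * w * (τ' ^ j')⁻¹ = k' ∈ K'`: `x = t * w * t⁻¹` has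
length `n + 2` and `r ^ j * x * (r ^ j')⁻¹ = t * k' * t⁻¹ ∈ Pa true true`. `path` with `i = i1 = none`,
`κ = m` gives `|j'| ≤ f (F (m + D * (n + 3)))` and the length bound
`(n + 3) * (f (F (m + D * (n + 3))) + 1)`, which is at most `f (F (m + D' * (n + 1)))` by `absorb2` for
`f ∘ F` (`gr_comp`).
-/

namespace Pool.Agent.helper12.FD

open HNNExtension

variable {G : Type*} [Group G] {p : G →* Multiplicative ℤ} {S : Set G}

/-- generators of the composite subgroup -/
def compT (τ s : G) (φ : Subgroup.zpowers τ ≃* Subgroup.zpowers s) (U T : Set G) :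
    Set (HNNExtension G (Subgroup.zpowers τ) (Subgroup.zpowers s) φ) :=
  of '' U ∪ (fun x => t⁻¹ * of x * t) '' T

/-- the subgroups of the two vertices -/
def comp_Hv (H K : Subgroup G) : Bool → Subgroup G
  | false => K
  | true => H

/-- the transitions -/
def comp_d (v : Bool) (u : ℤˣ) (v' : Bool) : Prop :=
  (v = false ∧ u = -1 ∧ v' = true) ∨ (v = true ∧ u = 1 ∧ v' = false)

/-- the conjugating elements of the vertices -/
def comp_q {τ s : G} (φ : Subgroup.zpowers τ ≃* Subgroup.zpowers s) :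
    Bool → HNNExtension G (Subgroup.zpowers τ) (Subgroup.zpowers s) φ
  | false => 1
  | true => t⁻¹

/-- the admissible lines -/
def comp_ok (v : Bool) (i : Option ℤˣ) : Prop :=
  (v = false ∧ i = some 1) ∨ (v = true ∧ i ≠ some 1)

/-- the bounds of the register -/
def comp_Ev (f F : ℕ → ℕ) (v : Bool) (i : Option ℤˣ) (κ : ℕ) (j : ℤ) : Prop :=
  comp_ok v i ∧ (i = none → j.natAbs ≤ f (F κ)) ∧ (i ≠ none → j.natAbs ≤ F κ)

theorem comp_units {u : ℤˣ} (h : u ≠ 1) : u = -1 := (Int.units_eq_one_or u).resolve_left h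

theorem comp_cases {u : ℤˣ} {v v' : Bool} (h : comp_d v u v') :
    (v = false ∧ u = -1 ∧ v' = true) ∨ (v = true ∧ u = 1 ∧ v' = false) := h

theorem comp_det (v : Bool) (u : ℤˣ) (v' v'' : Bool) (h : comp_d v u v')
    (h' : comp_d v' (-u) v'') : v'' = v := by
  rcases h with ⟨rfl, rfl, rfl⟩ | ⟨rfl, rfl, rfl⟩ <;>
    rcases h' with ⟨h1, _, h3⟩ | ⟨h1, _, h3⟩ <;> simp_all

theorem comp_hok (v : Bool) (u : ℤˣ) (v' : Bool) (h : comp_d v u v') :
    comp_ok v (some (-u)) := by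
  rcases h with ⟨rfl, rfl, rfl⟩ | ⟨rfl, rfl, rfl⟩
  · left
    exact ⟨rfl, by rw [neg_neg]⟩
  · right
    exact ⟨rfl, by decide⟩

theorem comp_hcr (f F : ℕ → ℕ) (v : Bool) (u : ℤˣ) (v' : Bool) (κ : ℕ) (j : ℤ)
    (h : comp_d v u v') (hE : comp_Ev f F v (some (-u)) κ j) :
    comp_Ev f F v' (some u) κ j := by
  obtain ⟨_, _, h2⟩ := hE
  refine ⟨?_, fun h3 => by simp at h3, fun _ => h2 (by simp)⟩
  rcases h with ⟨rfl, rfl, rfl⟩ | ⟨rfl, rfl, rfl⟩
  · right
    exact ⟨rfl, by decide⟩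
  · left
    exact ⟨rfl, rfl⟩

theorem comp_htriv {H K : Subgroup G} {T U : Set G} {s r σ τ : G} {f F : ℕ → ℕ}
    (h : Gad S p H T s r f) (k : Out S p K U σ τ F) (v : Bool) (u : ℤˣ) (v' : Bool)
    (hd : comp_d v u v') (j : ℤ) (hj : cg τ s u ^ j ∈ comp_Hv H K v') : j = 0 := by
  rcases hd with ⟨rfl, rfl, rfl⟩ | ⟨rfl, rfl, rfl⟩
  · have e : cg τ s (-1) = s := by
      have : (-1 : ℤˣ) ≠ 1 := by decide
      simp [cg, this]
    rw [e] at hj
    exact h.triv_s hj
  · have e : cg τ s 1 = τ := by simp [cg]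
    rw [e] at hj
    exact k.triv hj

section

variable {H K : Subgroup G} {T U : Set G} {s r σ τ : G} {f F : ℕ → ℕ}
  {φ : Subgroup.zpowers τ ≃* Subgroup.zpowers s}

/-- the subgroup preserves the accepted elements -/
theorem comp_pa (h : Gad S p H T s r f) (k : Out S p K U σ τ F) (hφ : Ph τ s φ)
    {x : HNNExtension G (Subgroup.zpowers τ) (Subgroup.zpowers s) φ}
    (hx : x ∈ Subgroup.closure (compT τ s φ U T)) :
    Pa (comp_Hv H K) comp_d φ true true (t * x * t⁻¹) := by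
  have ht1 : ∀ y, Pa (comp_Hv H K) comp_d φ false true y →
      Pa (comp_Hv H K) comp_d φ true true (t * y) := by
    intro y hy
    have h1 := Pa_t_mul (v := true) (u := 1) hφ (comp_htriv h k) comp_det
      (Or.inr ⟨rfl, rfl, rfl⟩) hy
    rwa [Units.val_one, zpow_one] at h1
  have ht2 : ∀ y, Pa (comp_Hv H K) comp_d φ true true y →
      Pa (comp_Hv H K) comp_d φ false true (t⁻¹ * y) := by
    intro y hy
    have h1 := Pa_t_mul (v := false) (u := -1) hφ (comp_htriv h k) comp_det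
      (Or.inl ⟨rfl, rfl, rfl⟩) hy
    rwa [Units.val_neg, Units.val_one, zpow_neg, zpow_one] at h1
  have hgen : ∀ y ∈ compT τ s φ U T, ∀ x, Pa (comp_Hv H K) comp_d φ false true x →
      Pa (comp_Hv H K) comp_d φ false true (y * x) ∧
        Pa (comp_Hv H K) comp_d φ false true (y⁻¹ * x) := by
    rintro y (⟨k0, hk0, rfl⟩ | ⟨h0, hh0, rfl⟩) x hx
    · have h1 : k0 ∈ comp_Hv H K false := by
        change k0 ∈ K
        rw [← k.gen]
        exact Subgroup.subset_closure hk0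
      refine ⟨Pa_of_mul h1 hx, ?_⟩
      rw [← map_inv]
      exact Pa_of_mul (inv_mem h1) hx
    · have h1 : h0 ∈ comp_Hv H K true := by
        change h0 ∈ H
        rw [← h.gen]
        exact Subgroup.subset_closure hh0
      constructor
      · have h2 := ht2 _ (Pa_of_mul h1 (ht1 _ hx))
        have e : t⁻¹ * of h0 * t * x = t⁻¹ * (of h0 * (t * x)) := by group
        change Pa (comp_Hv H K) comp_d φ false true (t⁻¹ * of h0 * t * x)
        rw [e]
        exact h2
      · have h2 := ht2 _ (Pa_of_mul (inv_mem h1) (ht1 _ hx))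
        have e : (t⁻¹ * of h0 * t)⁻¹ * x = t⁻¹ * (of h0⁻¹ * (t * x)) := by
          rw [map_inv]
          group
        change Pa (comp_Hv H K) comp_d φ false true ((t⁻¹ * of h0 * t)⁻¹ * x)
        rw [e]
        exact h2
  have h0 : Pa (comp_Hv H K) comp_d φ false true (t⁻¹ * of 1) :=
    ht2 _ (Pa_of (one_mem _))
  rw [map_one, mul_one] at h0
  have h1 := ht1 _ (Pa_closure hgen hx _ h0).1
  rwa [← mul_assoc] at h1

/-- the step of the path lemma -/
theorem comp_step (hf : Gr f) (hF : Gr F) (h : Gad S p H T s r f) (k : Out S p K U σ τ F)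
    (C : ℕ) : ∃ D : ℕ, ∀ (v : Bool) (i i' : Option ℤˣ) (κ c : ℕ) (w : G) (j j' : ℤ),
      W S w (C * c) → comp_Ev f F v i κ j → comp_ok v i' →
      lin τ s r i ^ j * w * (lin τ s r i' ^ j')⁻¹ ∈ comp_Hv H K v →
        comp_Ev f F v i' (κ + D * (c + 1)) j' ∧
        W (compT τ s φ U T)
          (comp_q φ v * of (lin τ s r i ^ j * w * (lin τ s r i' ^ j')⁻¹) * (comp_q φ v)⁻¹)
          (f (F (κ + D * (c + 1)))) := by
  obtain ⟨C₁, hC₁⟩ := k.add
  obtain ⟨C₂, hC₂⟩ := h.mul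
  obtain ⟨D₂, hD₂⟩ := absorb hF (C₂ * (C + 1))
  refine ⟨C₁ * (C + 1) + D₂, ?_⟩
  intro v i i' κ c w j j' hw hE hok hmem
  obtain ⟨hok0, hE1, hE2⟩ := hE
  rcases v with _ | _
  · -- the vertex `K`
    have hi : i = some 1 := by
      rcases hok0 with ⟨_, h1⟩ | ⟨h1, _⟩
      · exact h1
      · simp at h1
    have hi' : i' = some 1 := by
      rcases hok with ⟨_, h1⟩ | ⟨h1, _⟩
      · exact h1
      · simp at h1
    subst hi hi'
    have e : lin τ s r (some 1) = τ := by simp [lin, cg]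
    rw [e] at hmem ⊢
    have hb : κ + C₁ * (C * c + 1) ≤ κ + (C₁ * (C + 1) + D₂) * (c + 1) := by
      have h1 : C * c + 1 ≤ (C + 1) * (c + 1) := by nlinarith
      have h2 : C₁ * (C * c + 1) ≤ C₁ * ((C + 1) * (c + 1)) := Nat.mul_le_mul_left _ h1
      nlinarith
    have hbF := hF.mono.monotone hb
    obtain ⟨h1, h2⟩ := hC₁ κ (C * c) w j j' hw (hE2 (by simp)) hmem
    refine ⟨⟨hok, fun h3 => by simp at h3, fun _ => h1.trans hbF⟩, ?_⟩
    have h3 : W (compT τ s φ U T) (of (τ ^ j * w * (τ ^ j')⁻¹))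
        (F (κ + C₁ * (C * c + 1))) :=
      W_subset Set.subset_union_left (W_map of h2)
    change W _ (1 * _ * 1⁻¹) _
    rw [one_mul, inv_one, mul_one]
    exact W_mono h3 (hbF.trans (le_self hf.mono _))
  · -- the vertex `H`
    have hi : i ≠ some 1 := by
      rcases hok0 with ⟨h1, _⟩ | ⟨_, h1⟩
      · simp at h1
      · exact h1
    have hi' : i' ≠ some 1 := by
      rcases hok with ⟨h1, _⟩ | ⟨_, h1⟩
      · simp at h1
      · exact h1
    have hneg : (-1 : ℤˣ) ≠ 1 := by decide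
    have key : ∀ i : Option ℤˣ, i ≠ some 1 → ∃ c : Bool, lin τ s r i = ln s r c ∧
        (c = true ↔ i = none) := by
      intro i hi
      rcases i with _ | u
      · exact ⟨true, by simp [lin, ln], by simp⟩
      · have hu : u = -1 := comp_units fun h1 => hi (by rw [h1])
        subst hu
        exact ⟨false, by simp [lin, ln, cg, hneg], by simp⟩
    obtain ⟨b, hb, hb2⟩ := key i hi
    obtain ⟨b', hb', hb2'⟩ := key i' hi'
    rw [hb, hb'] at hmem ⊢
    have hval : val f b (F κ) j := by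
      unfold val
      split_ifs with h1
      · exact hE1 (hb2.1 h1)
      · exact hE2 fun h2 => h1 (hb2.2 h2)
    obtain ⟨h1, h2⟩ := hC₂ b b' (F κ) (C * c) w j j' hw hval hmem
    have hbd : C₂ * (F κ + C * c + 1) ≤ F (κ + (C₁ * (C + 1) + D₂) * (c + 1)) := by
      have h3 := hD₂ κ c
      have h4 : F κ + C * c + 1 ≤ (C + 1) * (F κ + c + 1) := by nlinarith
      have h5 : C₂ * (F κ + C * c + 1) ≤ C₂ * ((C + 1) * (F κ + c + 1)) :=
        Nat.mul_le_mul_left _ h4
      have h6 : F (κ + D₂ * (c + 1)) ≤ F (κ + (C₁ * (C + 1) + D₂) * (c + 1)) := by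
        apply hF.mono.monotone
        nlinarith [Nat.zero_le (C₁ * (C + 1) * (c + 1))]
      rw [← mul_assoc] at h5
      omega
    have hbf := hf.mono.monotone hbd
    refine ⟨⟨hok, ?_, ?_⟩, ?_⟩
    · intro h3
      have h4 := hb2'.2 h3
      subst h4
      simp only [val, if_true] at h1
      exact h1.trans hbf
    · intro h3
      have h4 : b' = false := by
        rw [← Bool.not_eq_true]
        exact fun h5 => h3 (hb2'.1 h5)
      subst h4
      simp only [val] at h1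
      exact (by simpa using h1 : j'.natAbs ≤ _).trans hbd
    · have h3 := W_map ((MulAut.conj
        (t⁻¹ : HNNExtension G (Subgroup.zpowers τ) (Subgroup.zpowers s) φ)).toMonoidHom.comp of) h2
      have h4 : (⇑((MulAut.conj
        (t⁻¹ : HNNExtension G (Subgroup.zpowers τ) (Subgroup.zpowers s) φ)).toMonoidHom.comp of))
          '' T = (fun x => t⁻¹ * of x * t) '' T := by
        refine Set.image_congr fun x _ => ?_
        simp
      rw [h4] at h3
      have h5 := W_mono (W_subset (S' := compT τ s φ U T) Set.subset_union_right h3) hbf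
      exact h5

end

theorem out_comp {H K : Subgroup G} {T U : Set G} {s r σ τ : G} {f F : ℕ → ℕ}
    {φ : Subgroup.zpowers τ ≃* Subgroup.zpowers s} (hS : Grd G S p) (hf : Gr f) (hF : Gr F)
    (h : Gad S p H T s r f) (k : Out S p K U σ τ F) (hφ : Ph τ s φ) :
    Out (gens φ S) (pe p k.pτ h.ps hφ) (Subgroup.closure (compT τ s φ U T)) (compT τ s φ U T)
      (of σ) (t⁻¹ * of r * t) (f ∘ F) := by
  have hconj : ∀ j : ℤ, (t⁻¹ * of r * t :
      HNNExtension G (Subgroup.zpowers τ) (Subgroup.zpowers s) φ) ^ j =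
      t⁻¹ * of (r ^ j) * t := by
    intro j
    have h1 := conj_zpow (i := j) (a := (t⁻¹ : HNNExtension G (Subgroup.zpowers τ)
      (Subgroup.zpowers s) φ)) (b := of r)
    rw [inv_inv] at h1
    rw [h1, map_zpow]
  have hofK : ∀ x ∈ K, (of x : HNNExtension G (Subgroup.zpowers τ) (Subgroup.zpowers s) φ) ∈
      Subgroup.closure (compT τ s φ U T) := by
    intro x hx
    rw [← k.gen] at hx
    obtain ⟨n, hn⟩ := exists_W hx
    exact W_mem_closure (W_subset Set.subset_union_left (W_map of hn))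
  have hofH : ∀ x ∈ H, (t⁻¹ * of x * t :
      HNNExtension G (Subgroup.zpowers τ) (Subgroup.zpowers s) φ) ∈
      Subgroup.closure (compT τ s φ U T) := by
    intro x hx
    rw [← h.gen] at hx
    obtain ⟨n, hn⟩ := exists_W hx
    have h3 := W_map ((MulAut.conj
        (t⁻¹ : HNNExtension G (Subgroup.zpowers τ) (Subgroup.zpowers s) φ)).toMonoidHom.comp of) hn
    have h4 : (⇑((MulAut.conj
        (t⁻¹ : HNNExtension G (Subgroup.zpowers τ) (Subgroup.zpowers s) φ)).toMonoidHom.comp of))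
          '' T = (fun x => t⁻¹ * of x * t) '' T := by
      refine Set.image_congr fun x _ => ?_
      simp
    rw [h4] at h3
    have h5 := W_mem_closure (W_subset (S' := compT τ s φ U T) Set.subset_union_right h3)
    simpa [MulAut.conj_apply] using h5
  refine ⟨?_, ?_, ?_, rfl, ?_, ?_⟩
  · rw [pe_of]
    exact k.pσ
  · rw [map_mul, map_mul, map_inv, pe_t, pe_of, inv_one, one_mul, mul_one]
    exact h.pt
  · exact (k.fin.image _).union (h.fin.image _)
  · intro N
    have hslide : (of (τ ^ F N) : HNNExtension G (Subgroup.zpowers τ) (Subgroup.zpowers s) φ) =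
        t⁻¹ * of (s ^ F N) * t := by
      have h1 := slide hφ 1 (F N : ℤ)
      have e1 : cg τ s 1 = τ := by simp [cg]
      have e2 : cg τ s (-1) = s := by
        have : (-1 : ℤˣ) ≠ 1 := by decide
        simp [cg, this]
      rw [e1, e2, Units.val_one, zpow_one, zpow_natCast, zpow_natCast] at h1
      rw [mul_assoc, ← h1, inv_mul_cancel_left]
    have h1 := hofK _ (k.rel N)
    have h2 := hofH _ (h.rel (F N))
    have e : (of σ ^ N * ((t⁻¹ * of r * t) ^ (f ∘ F) N)⁻¹ :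
        HNNExtension G (Subgroup.zpowers τ) (Subgroup.zpowers s) φ) =
        of (σ ^ N * (τ ^ F N)⁻¹) * (t⁻¹ * of (s ^ F N * (r ^ f (F N))⁻¹) * t) := by
      have h3 := hconj (f (F N) : ℤ)
      rw [zpow_natCast, zpow_natCast] at h3
      change of σ ^ N * ((t⁻¹ * of r * t) ^ f (F N))⁻¹ = _
      rw [h3, map_mul, map_mul, map_inv, map_inv, hslide, map_pow of σ N]
      group
    rw [e]
    exact mul_mem h1 h2
  · obtain ⟨c1, hc1⟩ := exists_W (S := S) (g := τ) (by rw [hS.gen]; exact Subgroup.mem_top _)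
    obtain ⟨c2, hc2⟩ := exists_W (S := S) (g := s) (by rw [hS.gen]; exact Subgroup.mem_top _)
    obtain ⟨D, hD⟩ := comp_step (φ := φ) hf hF h k (c1 + c2 + 1)
    obtain ⟨D₃, hD₃⟩ := absorb2 (gr_comp hf hF)
    have hmono : StrictMono (f ∘ F) := (gr_comp hf hF).mono
    refine ⟨3 * (D + D₃), ?_⟩
    intro m n w j j' hw hj hmem
    rw [hconj, hconj] at hmem ⊢
    have hx : W (gens φ S) (t * w * t⁻¹) (n + 2) := by
      have h1 : W (gens φ S) (t : HNNExtension G (Subgroup.zpowers τ) (Subgroup.zpowers s) φ) 1 :=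
        W_of_mem (Set.mem_insert _ _)
      exact W_mono (W_mul (W_mul h1 hw) (W_inv h1)) (by omega)
    have hP := comp_pa h k hφ hmem
    have e1 : t * (t⁻¹ * of (r ^ j) * t * w * (t⁻¹ * of (r ^ j') * t)⁻¹) * t⁻¹ =
        (of (lin τ s r none ^ j) * (t * w * t⁻¹) * (of (lin τ s r none ^ j'))⁻¹ :
          HNNExtension G (Subgroup.zpowers τ) (Subgroup.zpowers s) φ) := by
      change _ = of (r ^ j) * (t * w * t⁻¹) * (of (r ^ j'))⁻¹
      group
    rw [e1] at hP
    obtain ⟨h1, h2⟩ := path hS k.pτ h.ps hφ (comp_q φ) (compT τ s φ U T) comp_ok (comp_Ev f F)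
      (f ∘ F) (c1 + c2 + 1) D (by omega) (W_mono hc1 (by omega)) (W_mono hc2 (by omega))
      hmono.monotone
      (fun v i κ κ' j hκ hE => ⟨hE.1, fun h3 => (hE.2.1 h3).trans (hmono.monotone hκ),
        fun h3 => (hE.2.2 h3).trans (hF.mono.monotone hκ)⟩)
      (fun v u v' hd => by
        rcases hd with ⟨rfl, rfl, rfl⟩ | ⟨rfl, rfl, rfl⟩
        · have e : comp_q φ false * t ^ ((-1 : ℤˣ) : ℤ) * (comp_q φ true)⁻¹ = 1 := by
            change 1 * t ^ ((-1 : ℤˣ) : ℤ) * (t⁻¹)⁻¹ = 1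
            simp
          rw [e]
          exact W_one _
        · have e : comp_q φ true * t ^ ((1 : ℤˣ) : ℤ) * (comp_q φ false)⁻¹ = 1 := by
            change t⁻¹ * t ^ ((1 : ℤˣ) : ℤ) * 1⁻¹ = 1
            simp
          rw [e]
          exact W_one _)
      comp_hok (comp_hcr f F) hD hx (v := true) (v1 := true) (i := none) (i1 := none) (y := j)
      (y' := j') (κ := m) ⟨Or.inr ⟨rfl, by simp⟩, fun _ => hj, fun h3 => absurd rfl h3⟩
      (Or.inr ⟨rfl, by simp⟩) hP
    have hb : m + D * (n + 2 + 1) + D₃ * (n + 2 + 1) ≤ m + 3 * (D + D₃) * (n + 1) := by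
      nlinarith [Nat.zero_le (D * n), Nat.zero_le (D₃ * n)]
    constructor
    · refine (h1.2.1 rfl).trans (hmono.monotone (?_ : m + D * (n + 2 + 1) ≤ _))
      have : 0 ≤ D₃ * (n + 2 + 1) := Nat.zero_le _
      omega
    · have e2 : comp_q φ true * (of (lin τ s r none ^ j) * (t * w * t⁻¹) *
          (of (lin τ s r none ^ j'))⁻¹) * (comp_q φ true)⁻¹ =
          t⁻¹ * of (r ^ j) * t * w * (t⁻¹ * of (r ^ j') * t)⁻¹ := by
        change t⁻¹ * (of (r ^ j) * (t * w * t⁻¹) * (of (r ^ j'))⁻¹) * (t⁻¹)⁻¹ = _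
        group
      rw [e2] at h2
      refine W_mono h2 ((hD₃ (m + D * (n + 2 + 1)) (n + 2)).trans (hmono.monotone hb))

end Pool.Agent.helper12.FD
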