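import Pool.Agent.helper12.FD.Triv
import Pool.Agent.helper12.FD.Fun

/-!
Module FD-FinA (this file: the UPPER BOUND): from a composite gadget `(K, U, σ, τ; F)` in `G` to a distortion function.
`E = HNN(G; τ → τ)` with stable letter `t` (commuting with `τ`), `K' = ⟨K, t⟩`, generated by
`finT = insert t (of '' U)`. Claim: the distortion function of `K'` in `E` is `F` up to equivalence.

UPPER BOUND `∃ D, ∀ x n, x ∈ K' → W (gens φ S) x n → W finT x (F (D * (n + 1)))`: `path` with
`V = Unit`, `Hv = K`, `q = 1`, `TT = finT`, `δ = ok = True`, all lines are `τ` (`sp = τ`; `cg τ τ u = τ`),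
`Ev _ _ κ j := j.natAbs ≤ F κ`, `Λ = F`; `hstep` is `k.add` with `m = κ`, `n = C * c`; registers `0` at both
ends (`i = i1 = none`, `κ = 0`, `F 0 = 0`). `K' ⊆ Pa`: `Pa_closure`, `Pa_of_mul`, `Pa_t_mul`
(`htriv` is `Out.triv`). Then `(n + 1) * (F (D * (n + 1)) + 1) ≤ F (D' * (n + 1))` by `absorb2`.

LOWER BOUND. `M ≥ 1` bounds `|p x|` for `x ∈ U` (`U` finite; or from `W S x K₀` and `Grd.W_p`).
(L1) if `W finT x n` there are `g`, `L` with `x = pr φ g L`, `Rd L`, all entries (`g` and those of `L`) in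
`K`, and the last entry (`g` if `L = []`) has `|p| ≤ M * n`. `W_induction`: left multiplication by an
element of `U` changes `g` only (the last entry only if `L = []`); left multiplication by `t ^ v`:
`tmul_cases`; if it cancels then `g = τ ^ j ∈ K`, `j = 0` (`Out.triv`), and the new word is the tail
(`tmul_cancel` with `j = 0`): the last entry is the same; otherwise the new word is `1, (v, g) :: L`.
(L2) `e = σ ^ N t (σ ^ N)⁻¹ = k t k⁻¹` with `k = σ ^ N (τ ^ (F N))⁻¹ ∈ K`, `|p k| = F N - N` (as `t` commutes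
with `τ`, `slide`). If `e = pr φ g L` as in (L1): `mt_of_eq` (`β = 1`) for the words `(g, L)` and
`(k, [(1, k⁻¹)])`: `L = [(u, g1)]`, `k = g (τ ^ j)⁻¹`, `j = 0` as `k, g ∈ K`, so `k⁻¹ = g1`: the last entry. So
`W finT e n` implies `F N - N ≤ M * n`, and `W (gens φ S) e (K₁ * N + 1)`, `e ∈ K'`.

`Eqv`. General facts: for `h ∈ closure T`, `wlen T h ≤ n ↔ W T h n` (`exists_W`, `Nat.sInf_mem`, `W_mono`).
Let `S'`, `T'` be arbitrary finite generating sets of `E` and `K'`; `W_trans` and `exists_bound` compare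
them with `gens φ S` and `finT`. The set `{k | ∃ h ∈ K', wlen S' h ≤ n ∧ wlen T' h = k}` is bounded above by the upper
bound (so `dist S' T' K' n ≤ C * F (C * n + C) + ..`), and contains `wlen T' e` for `n ≥ C * (N + 1)`
(`le_csSup`), which gives `F N ≤ C * dist S' T' K' (C * N + C) + C * N + C`.
-/

namespace Pool.Agent.helper12.FD

open HNNExtension

variable {G : Type*} [Group G] {p : G →* Multiplicative ℤ} {S : Set G}

omit [Group G] in
theorem FinA_cg (τ : G) (u : ℤˣ) : cg τ τ u = τ := by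
  unfold cg
  split_ifs <;> rfl

omit [Group G] in
theorem FinA_lin (τ : G) (i : Option ℤˣ) : lin τ τ τ i = τ := by
  cases i with
  | none => rfl
  | some u => exact FinA_cg τ u

theorem FinA_K {K : Subgroup G} {U : Set G} {σ τ : G} {F : ℕ → ℕ} (k : Out S p K U σ τ F)
    {g : G} (hg : g ∈ U) : g ∈ K := by
  rw [← k.gen]
  exact Subgroup.subset_closure hg

/-- the elements of the final subgroup have accepted words -/
theorem FinA_pa {K : Subgroup G} {U : Set G} {σ τ : G} {F : ℕ → ℕ}
    {φ : Subgroup.zpowers τ ≃* Subgroup.zpowers τ}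
    (k : Out S p K U σ τ F) (hφ : Ph τ τ φ)
    {x : HNNExtension G (Subgroup.zpowers τ) (Subgroup.zpowers τ) φ}
    (hx : x ∈ Subgroup.closure (finT τ φ U)) :
    Pa (V := Unit) (fun _ => K) (fun _ _ _ => True) φ () () x := by
  have htriv : ∀ (v : Unit) (u : ℤˣ) (v' : Unit), True → ∀ j : ℤ, cg τ τ u ^ j ∈ K → j = 0 := by
    intro _ u _ _ j hj
    rw [FinA_cg] at hj
    exact k.triv hj
  have h1 := Pa_closure (V := Unit) (Hv := fun _ => K) (δ := fun _ _ _ => True) (φ := φ)
    (v := ()) (v1 := ()) (T := finT τ φ U) (by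
      intro y hy x hx
      rcases hy with rfl | ⟨g, hg, rfl⟩
      · refine ⟨?_, ?_⟩
        · have h2 := Pa_t_mul (u := 1) hφ htriv (fun _ _ _ _ _ _ => rfl) (v := ()) (v' := ())
            trivial hx
          simpa using h2
        · have h2 := Pa_t_mul (u := -1) hφ htriv (fun _ _ _ _ _ _ => rfl) (v := ()) (v' := ())
            trivial hx
          simpa using h2
      · refine ⟨Pa_of_mul (FinA_K k hg) hx, ?_⟩
        rw [← map_inv]
        exact Pa_of_mul (inv_mem (FinA_K k hg)) hx) hx 1 (by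
      have h2 := Pa_of (V := Unit) (Hv := fun _ => K) (δ := fun _ _ _ => True) (φ := φ)
        (v := ()) (one_mem K)
      rwa [map_one] at h2)
  have h2 := h1.1
  rwa [mul_one] at h2

/-- upper bound -/
theorem fin_upper {K : Subgroup G} {U : Set G} {σ τ : G} {F : ℕ → ℕ}
    {φ : Subgroup.zpowers τ ≃* Subgroup.zpowers τ} (hS : Grd G S p) (hF : Gr F)
    (k : Out S p K U σ τ F) (hφ : Ph τ τ φ) :
    ∃ D : ℕ, ∀ x n, x ∈ Subgroup.closure (finT τ φ U) → W (gens φ S) x n →
      W (finT τ φ U) x (F (D * (n + 1))) := by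
  obtain ⟨C0, hC0⟩ : ∃ n, W S τ n := exists_W (by rw [hS.gen]; exact Subgroup.mem_top τ)
  have hCa : W S τ (C0 + 1) := W_mono hC0 (Nat.le_succ _)
  obtain ⟨C2, hadd⟩ := k.add
  obtain ⟨D', hD'⟩ := absorb2 hF
  have hmono : Monotone F := hF.mono.monotone
  refine ⟨C2 * (C0 + 1 + 1) + D', fun x n hx hW => ?_⟩
  have hsub : ∀ (g : G) (m : ℕ), W U g m → W (finT τ φ U) (of g) m := fun g m h =>
    W_subset (Set.subset_insert _ _) (W_map (HNNExtension.of : G →* _) h)
  have key := path (V := Unit) (Hv := fun _ => K) (δ := fun _ _ _ => True) (sp := τ) hS k.pτ k.pτ hφ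
    (fun _ => 1) (finT τ φ U) (fun _ _ => True) (fun _ _ κ j => j.natAbs ≤ F κ) F (C0 + 1)
    (C2 * (C0 + 1 + 1)) (by omega) hCa hCa hmono
    (fun _ _ κ κ' j h h' => h'.trans (hmono h))
    (by
      intro _ u _ _
      rw [one_mul, inv_one, mul_one]
      rcases Int.units_eq_one_or u with rfl | rfl
      · simpa using W_of_mem (S := finT τ φ U) (Set.mem_insert _ _)
      · apply W_of_inv_mem
        rw [show ((t : HNNExtension G _ _ φ) ^ (((-1 : ℤˣ)) : ℤ))⁻¹ = t by simp]
        exact Set.mem_insert _ _)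
    (fun _ _ _ _ => trivial) (fun _ _ _ _ _ _ h => h)
    (by
      intro _ i i' κ c w j j' hw hj _ hmem
      rw [FinA_lin, FinA_lin] at hmem ⊢
      obtain ⟨h1, h2⟩ := hadd κ ((C0 + 1) * c) w j j' hw hj hmem
      have h3 : κ + C2 * ((C0 + 1) * c + 1) ≤ κ + C2 * (C0 + 1 + 1) * (c + 1) := by
        have h4 : (C0 + 1) * c + 1 ≤ (C0 + 1 + 1) * (c + 1) := by nlinarith
        have h5 := Nat.mul_le_mul_left C2 h4
        rw [← mul_assoc] at h5
        omega
      refine ⟨h1.trans (hmono h3), ?_⟩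
      rw [one_mul, inv_one, mul_one]
      exact hsub _ _ (W_mono h2 (hmono h3)))
    hW (v := ()) (v1 := ()) (i := none) (i1 := none) (y := 0) (y' := 0) (κ := 0)
    (by simp) trivial (by
      simpa using FinA_pa k hφ hx)
  have h1 := key.2
  simp only [zpow_zero, map_one, one_mul, inv_one, mul_one, Nat.zero_add] at h1
  refine W_mono h1 ((hD' _ n).trans (hmono ?_))
  rw [Nat.add_mul]

end Pool.Agent.helper12.FD
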