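import Pool.Agent.helper12.FD.Triv
import Pool.Agent.helper12.FD.Fun

/-!
Module FD-FinB (this file: the LOWER BOUND): from a composite gadget `(K, U, σ, τ; F)` in `G` to a distortion function.
`E = HNN(G; τ → τ)` with stable letter `t` (commuting with `τ`), `K' = ⟨K, t⟩`, generated by
`finT = insert t (of '' U)`. Claim: the distortion function of `K'` in `E` is `F` up to equivalence.

UPPER BOUND `∃ D, ∀ x n, x ∈ K' → W (gens φ S) x n → W finT x (F (D * (n + 1)))`: `path` with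
`V = Unit`, `Hv = K`, `q = 1`, `TT = finT`, `δ = ok = True`, all lines are `τ` (`sp = τ`; `cg τ τ u = τ`),
`Ev _ _ κ j := j.natAbs ≤ F κ`, `Λ = F`; `hstep` is `k.add` with `m = κ`, `n = C * c`; registers `0` at both
ends (`i = i1 = none`, `κ = 0`, `F 0 = 0`). `K' ⊆ Pa`: `Pa_closure`, `Pa_of_mul`, `Pa_t_mul`
(`htriv` is `Out.triv`). Then `(n + 1) * (F (D * (n + 1)) + 1) ≤ F (D' * (n + 1))` by `absorb2`.

LOWER BOUND. `M ≥ 1` bounds `|p x|` for `x ∈ U` (`U` finite; or from `W S x K₀` and `Grd.W_p`).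
(L1) if `W finT x n` there are `g`, `L` with `x = pr φ g L`, `Rd L`, all entries (`g` and those of `L`) in
`K`, and the last entry (`g` if `L = []`) has `|p| ≤ M * n`. `W_induction`: left multiplication by an
element of `U` changes `g` only (the last entry only if `L = []`); left multiplication by `t ^ v`:
`tmul_cases`; if it cancels then `g = τ ^ j ∈ K`, `j = 0` (`Out.triv`), and the new word is the tail
(`tmul_cancel` with `j = 0`): the last entry is the same; otherwise the new word is `1, (v, g) :: L`.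
(L2) `e = σ ^ N t (σ ^ N)⁻¹ = k t k⁻¹` with `k = σ ^ N (τ ^ (F N))⁻¹ ∈ K`, `|p k| = F N - N` (as `t` commutes
with `τ`, `slide`). If `e = pr φ g L` as in (L1): `mt_of_eq` (`β = 1`) for the words `(g, L)` and
`(k, [(1, k⁻¹)])`: `L = [(u, g1)]`, `k = g (τ ^ j)⁻¹`, `j = 0` as `k, g ∈ K`, so `k⁻¹ = g1`: the last entry. So
`W finT e n` implies `F N - N ≤ M * n`, and `W (gens φ S) e (K₁ * N + 1)`, `e ∈ K'`.

`Eqv`. General facts: for `h ∈ closure T`, `wlen T h ≤ n ↔ W T h n` (`exists_W`, `Nat.sInf_mem`, `W_mono`).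
Let `S'`, `T'` be arbitrary finite generating sets of `E` and `K'`; `W_trans` and `exists_bound` compare
them with `gens φ S` and `finT`. The set `{k | ∃ h ∈ K', wlen S' h ≤ n ∧ wlen T' h = k}` is bounded above by the upper
bound (so `dist S' T' K' n ≤ C * F (C * n + C) + ..`), and contains `wlen T' e` for `n ≥ C * (N + 1)`
(`le_csSup`), which gives `F N ≤ C * dist S' T' K' (C * N + C) + C * N + C`.
-/

namespace Pool.Agent.helper12.FD

open HNNExtension

variable {G : Type*} [Group G] {p : G →* Multiplicative ℤ} {S : Set G}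

/-- the last entry of a word -/
def FinB_last : G → List (ℤˣ × G) → G
  | g, [] => g
  | _, (_, g1) :: L => FinB_last g1 L

omit [Group G] in
theorem FinB_cg {τ : G} (u : ℤˣ) : cg τ τ u = τ := by
  unfold cg
  split_ifs <;> rfl

/-- left multiplication of the first entry -/
theorem FinB_last_mul {M : ℕ} {y g : G} {L : List (ℤˣ × G)} {n : ℕ}
    (hy : (p y).toAdd.natAbs ≤ M) (h : (p (FinB_last g L)).toAdd.natAbs ≤ M * n) :
    (p (FinB_last (y * g) L)).toAdd.natAbs ≤ M * (n + 1) := by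
  cases L with
  | nil =>
    change (p (y * g)).toAdd.natAbs ≤ M * (n + 1)
    change (p g).toAdd.natAbs ≤ M * n at h
    rw [map_mul, toAdd_mul]
    have h1 := Int.natAbs_add_le (p y).toAdd (p g).toAdd
    have : M * (n + 1) = M + M * n := by ring
    omega
  | cons x L =>
    obtain ⟨u, g1⟩ := x
    exact h.trans (Nat.mul_le_mul_left _ (Nat.le_succ n))

/-- words of the elements of the subgroup -/
theorem FinB_word {K : Subgroup G} {U : Set G} {σ τ : G} {F : ℕ → ℕ}
    {φ : Subgroup.zpowers τ ≃* Subgroup.zpowers τ}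
    (k : Out S p K U σ τ F) (hφ : Ph τ τ φ) {M : ℕ} (hM : ∀ x ∈ U, (p x).toAdd.natAbs ≤ M)
    {x : HNNExtension G (Subgroup.zpowers τ) (Subgroup.zpowers τ) φ} {n : ℕ}
    (hx : W (finT τ φ U) x n) :
    ∃ g L, Rd τ τ L ∧ x = pr φ g L ∧ g ∈ K ∧ (∀ y ∈ L, y.2 ∈ K) ∧
      (p (FinB_last g L)).toAdd.natAbs ≤ M * n := by
  refine W_induction (P := fun x n => ∃ g L, Rd τ τ L ∧ x = pr φ g L ∧ g ∈ K ∧
    (∀ y ∈ L, y.2 ∈ K) ∧ (p (FinB_last g L)).toAdd.natAbs ≤ M * n) ?_ ?_ ?_ hx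
  · exact ⟨1, [], rd_nil, by simp [pr_nil], one_mem _, by simp, by simp [FinB_last]⟩
  · intro y x n hy hg
    obtain ⟨g, L, hL, rfl, hgK, hLK, hl⟩ := hg
    -- letters of `U`
    have hof : ∀ s : G, s ∈ K → (p s).toAdd.natAbs ≤ M → ∃ g' L', Rd τ τ L' ∧
        of s * pr φ g L = pr φ g' L' ∧ g' ∈ K ∧ (∀ y ∈ L', y.2 ∈ K) ∧
        (p (FinB_last g' L')).toAdd.natAbs ≤ M * (n + 1) := by
      intro s hs hps
      exact ⟨s * g, L, hL, of_mul_pr _ _ _, mul_mem hs hgK, hLK, FinB_last_mul hps hl⟩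
    -- the stable letter
    have ht : ∀ v : ℤˣ, ∃ g' L', Rd τ τ L' ∧
        t ^ (v : ℤ) * pr φ g L = pr φ g' L' ∧ g' ∈ K ∧ (∀ y ∈ L', y.2 ∈ K) ∧
        (p (FinB_last g' L')).toAdd.natAbs ≤ M * (n + 1) := by
      intro v
      rcases tmul_cases v g L hL with ⟨j, g1, L', rfl, rfl⟩ | hR
      · rw [FinB_cg] at hgK
        have hj := k.triv hgK
        subst hj
        refine ⟨g1, L', rd_tail hL, ?_, hLK (-v, g1) (by simp), fun y hy => hLK y (by simp [hy]),
          hl.trans (Nat.mul_le_mul_left _ (Nat.le_succ n))⟩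
        rw [tmul_cancel hφ]
        simp
      · refine ⟨1, (v, g) :: L, hR, tmul_pr _ _ _, one_mem _, ?_,
          hl.trans (Nat.mul_le_mul_left _ (Nat.le_succ n))⟩
        intro y hy
        rcases List.mem_cons.1 hy with rfl | hy
        · exact hgK
        · exact hLK y hy
    have hUK : ∀ s ∈ U, s ∈ K := fun s hs => by
      rw [← k.gen]; exact Subgroup.subset_closure hs
    rcases hy with hy | hy
    · rcases hy with rfl | ⟨s, hs, rfl⟩
      · simpa using ht 1
      · exact hof s (hUK s hs) (hM s hs)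
    · rcases hy with h | ⟨s, hs, hsy⟩
      · have h1 := ht (-1)
        have h2 : y = t ^ (((-1 : ℤˣ) : ℤ)) := by
          rw [← inv_inv y, h]
          simp
        rw [h2]
        exact h1
      · have h1 := hof s⁻¹ (inv_mem (hUK s hs)) (by
          rw [map_inv, toAdd_inv, Int.natAbs_neg]; exact hM s hs)
        have h2 : y = of s⁻¹ := by rw [map_inv, hsy, inv_inv]
        rw [h2]
        exact h1
  · intro x m n hmn h
    obtain ⟨g, L, h1, h2, h3, h4, h5⟩ := h
    exact ⟨g, L, h1, h2, h3, h4, h5.trans (Nat.mul_le_mul_left _ hmn)⟩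

theorem FinB_bound {U : Set G} (hU : U.Finite) : ∃ M : ℕ, ∀ x ∈ U, (p x).toAdd.natAbs ≤ M := by
  classical
  refine ⟨hU.toFinset.sup fun x => (p x).toAdd.natAbs, fun x hx => ?_⟩
  exact Finset.le_sup (f := fun x => (p x).toAdd.natAbs) (by simpa using hx)

/-- `σ ^ N t σ ^ (-N) = k t k⁻¹` for `k = σ ^ N τ ^ (-F N)` -/
theorem FinB_conj {σ τ : G} {φ : Subgroup.zpowers τ ≃* Subgroup.zpowers τ} (hφ : Ph τ τ φ)
    (N f : ℕ) : (of (σ ^ N) * t * of (σ ^ N)⁻¹ :
      HNNExtension G (Subgroup.zpowers τ) (Subgroup.zpowers τ) φ) =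
      of (σ ^ N * (τ ^ f)⁻¹) * t * of (σ ^ N * (τ ^ f)⁻¹)⁻¹ := by
  have h1 := slide hφ 1 (f : ℤ)
  rw [FinB_cg, FinB_cg] at h1
  simp only [Units.val_one, zpow_one, zpow_natCast] at h1
  have h2 : (of ((τ ^ f)⁻¹) * t * of (τ ^ f) :
      HNNExtension G (Subgroup.zpowers τ) (Subgroup.zpowers τ) φ) = t := by
    rw [mul_assoc, h1, ← mul_assoc, ← map_mul, inv_mul_cancel, map_one, one_mul]
  rw [mul_inv_rev, inv_inv]
  have e1 : (of (σ ^ N * (τ ^ f)⁻¹) * t * of (τ ^ f * (σ ^ N)⁻¹) :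
      HNNExtension G (Subgroup.zpowers τ) (Subgroup.zpowers τ) φ) =
      of (σ ^ N) * (of ((τ ^ f)⁻¹) * t * of (τ ^ f)) * of ((σ ^ N)⁻¹) := by
    rw [map_mul, map_mul]
    simp only [mul_assoc]
  rw [e1, h2]

/-- lower bound -/
theorem fin_lower {K : Subgroup G} {U : Set G} {σ τ : G} {F : ℕ → ℕ}
    {φ : Subgroup.zpowers τ ≃* Subgroup.zpowers τ} (hS : Grd G S p) (hF : Gr F)
    (k : Out S p K U σ τ F) (hφ : Ph τ τ φ) :
    ∃ M : ℕ, ∀ N, ∃ x ∈ Subgroup.closure (finT τ φ U), W (gens φ S) x (M * (N + 1)) ∧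
      ∀ n, W (finT τ φ U) x n → F N ≤ M * n + N := by
  obtain ⟨M0, hM0⟩ := FinB_bound (p := p) k.fin
  obtain ⟨Kσ, hKσ⟩ : ∃ n, W S σ n := exists_W (by rw [hS.gen]; trivial)
  refine ⟨M0 + 2 * Kσ + 1, fun N => ?_⟩
  have hk := k.rel N
  have hof : ∀ g ∈ K, (of g : HNNExtension G (Subgroup.zpowers τ) (Subgroup.zpowers τ) φ) ∈
      Subgroup.closure (finT τ φ U) := by
    intro g hg
    rw [← k.gen] at hg
    have h1 : (of g : HNNExtension G (Subgroup.zpowers τ) (Subgroup.zpowers τ) φ) ∈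
        (Subgroup.closure U).map of := ⟨g, hg, rfl⟩
    rw [MonoidHom.map_closure] at h1
    exact Subgroup.closure_mono (Set.subset_insert _ _) h1
  refine ⟨of (σ ^ N) * t * of (σ ^ N)⁻¹, ?_, ?_, ?_⟩
  · rw [FinB_conj hφ N (F N)]
    refine mul_mem (mul_mem (hof _ hk) (Subgroup.subset_closure (Set.mem_insert _ _)))
      (hof _ (inv_mem hk))
  · have h1 : W (gens φ S) (of (σ ^ N)) (Kσ * N) :=
      W_subset (Set.subset_insert _ _) (W_map (of (φ := φ)) (W_pow hKσ N))
    have h2 : W (gens φ S) (t : HNNExtension G (Subgroup.zpowers τ) (Subgroup.zpowers τ) φ) 1 :=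
      W_of_mem (Set.mem_insert _ _)
    have h3 := W_mul (W_mul h1 h2) (W_inv h1)
    rw [← map_inv] at h3
    refine W_mono h3 ?_
    nlinarith
  · intro n hn
    obtain ⟨g, L, hL, hx, hg, hLK, hl⟩ := FinB_word k hφ hM0 hn
    rw [FinB_conj hφ N (F N)] at hx
    set κ := σ ^ N * (τ ^ F N)⁻¹ with hκ
    have h1 : pr φ g L * of 1 = pr φ κ [(1, κ⁻¹)] := by
      rw [← hx, map_one, mul_one, pr_cons, pr_nil]
      simp
    have h2 := mt_of_eq hφ 1 L g κ [(1, κ⁻¹)] hL (by simp [Rd]) h1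
    cases h2 with
    | cons _ _ g1 L1 _ _ _ j hh hm =>
      cases hm with
      | nil _ _ hh' =>
        rw [FinB_cg] at hh hh'
        have h3 : τ ^ j ∈ K := by
          have : τ ^ j = κ⁻¹ * g := by
            rw [hh]; group
          rw [this]
          exact mul_mem (inv_mem hk) hg
        have hj := k.triv h3
        rw [hj, zpow_zero, one_mul, mul_one] at hh'
        change (p g1).toAdd.natAbs ≤ M0 * n at hl
        rw [← hh', map_inv, toAdd_inv, Int.natAbs_neg, hκ, map_mul, map_inv, map_pow, map_pow,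
          k.pσ, k.pτ, toAdd_mul, toAdd_inv, toAdd_pow, toAdd_pow, toAdd_ofAdd] at hl
        simp only [nsmul_eq_mul, mul_one] at hl
        have h4 : F N ≤ M0 * n + N := by omega
        refine h4.trans (Nat.add_le_add_right (Nat.mul_le_mul_right _ (by omega)) _)

end Pool.Agent.helper12.FD
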