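import Pool.Agent.helper12.FD.Triv
import Pool.Agent.helper12.FD.Fun

/-!
Module FD-FinC (this file: the part `Eqv`, `dist_eqv`): from a composite gadget `(K, U, σ, τ; F)` in `G` to a distortion function.
`E = HNN(G; τ → τ)` with stable letter `t` (commuting with `τ`), `K' = ⟨K, t⟩`, generated by
`finT = insert t (of '' U)`. Claim: the distortion function of `K'` in `E` is `F` up to equivalence.

UPPER BOUND `∃ D, ∀ x n, x ∈ K' → W (gens φ S) x n → W finT x (F (D * (n + 1)))`: `path` with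
`V = Unit`, `Hv = K`, `q = 1`, `TT = finT`, `δ = ok = True`, all lines are `τ` (`sp = τ`; `cg τ τ u = τ`),
`Ev _ _ κ j := j.natAbs ≤ F κ`, `Λ = F`; `hstep` is `k.add` with `m = κ`, `n = C * c`; registers `0` at both
ends (`i = i1 = none`, `κ = 0`, `F 0 = 0`). `K' ⊆ Pa`: `Pa_closure`, `Pa_of_mul`, `Pa_t_mul`
(`htriv` is `Out.triv`). Then `(n + 1) * (F (D * (n + 1)) + 1) ≤ F (D' * (n + 1))` by `absorb2`.

LOWER BOUND. `M ≥ 1` bounds `|p x|` for `x ∈ U` (`U` finite; or from `W S x K₀` and `Grd.W_p`).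
(L1) if `W finT x n` there are `g`, `L` with `x = pr φ g L`, `Rd L`, all entries (`g` and those of `L`) in
`K`, and the last entry (`g` if `L = []`) has `|p| ≤ M * n`. `W_induction`: left multiplication by an
element of `U` changes `g` only (the last entry only if `L = []`); left multiplication by `t ^ v`:
`tmul_cases`; if it cancels then `g = τ ^ j ∈ K`, `j = 0` (`Out.triv`), and the new word is the tail
(`tmul_cancel` with `j = 0`): the last entry is the same; otherwise the new word is `1, (v, g) :: L`.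
(L2) `e = σ ^ N t (σ ^ N)⁻¹ = k t k⁻¹` with `k = σ ^ N (τ ^ (F N))⁻¹ ∈ K`, `|p k| = F N - N` (as `t` commutes
with `τ`, `slide`). If `e = pr φ g L` as in (L1): `mt_of_eq` (`β = 1`) for the words `(g, L)` and
`(k, [(1, k⁻¹)])`: `L = [(u, g1)]`, `k = g (τ ^ j)⁻¹`, `j = 0` as `k, g ∈ K`, so `k⁻¹ = g1`: the last entry. So
`W finT e n` implies `F N - N ≤ M * n`, and `W (gens φ S) e (K₁ * N + 1)`, `e ∈ K'`.

`Eqv`. General facts: for `h ∈ closure T`, `wlen T h ≤ n ↔ W T h n` (`exists_W`, `Nat.sInf_mem`, `W_mono`).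
Let `S'`, `T'` be arbitrary finite generating sets of `E` and `K'`; `W_trans` and `exists_bound` compare
them with `gens φ S` and `finT`. The set `{k | ∃ h ∈ K', wlen S' h ≤ n ∧ wlen T' h = k}` is bounded above by the upper
bound (so `dist S' T' K' n ≤ C * F (C * n + C) + ..`), and contains `wlen T' e` for `n ≥ C * (N + 1)`
(`le_csSup`), which gives `F N ≤ C * dist S' T' K' (C * N + C) + C * N + C`.
-/

namespace Pool.Agent.helper12.FD

open HNNExtension

variable {G : Type*} [Group G] {p : G →* Multiplicative ℤ} {S : Set G}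

theorem FinC_wlen_le {E : Type*} [Group E] {S : Set E} {g : E} {n : ℕ} (h : W S g n) :
    wlen S g ≤ n := Nat.sInf_le h

theorem FinC_W_wlen {E : Type*} [Group E] {S : Set E} {g : E} (h : g ∈ Subgroup.closure S) :
    W S g (wlen S g) := Nat.sInf_mem (s := {n | W S g n}) (exists_W h)

/-- comparison with the distortion function for arbitrary generating sets -/
theorem dist_eqv {E : Type*} [Group E] {S₀ T₀ S' T' : Set E} {K' : Subgroup E} {F : ℕ → ℕ}
    (hF : Gr F) (hS₀ : S₀.Finite) (hS₀' : Subgroup.closure S₀ = ⊤) (hT₀ : T₀.Finite)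
    (hT₀' : Subgroup.closure T₀ = K') (hS : S'.Finite) (hS' : Subgroup.closure S' = ⊤)
    (hT : T'.Finite) (hT' : Subgroup.closure T' = K')
    (hup : ∃ D : ℕ, ∀ x n, x ∈ K' → W S₀ x n → W T₀ x (F (D * (n + 1))))
    (hlow : ∃ M : ℕ, ∀ N, ∃ x ∈ K', W S₀ x (M * (N + 1)) ∧ ∀ n, W T₀ x n → F N ≤ M * n + N) :
    Eqv (dist S' T' K') F := by
  obtain ⟨D, hD⟩ := hup
  obtain ⟨M, hM⟩ := hlow
  obtain ⟨A, hA⟩ := exists_bound (S' := S₀) hS (fun x _ => by rw [hS₀']; trivial)
  obtain ⟨B, hB⟩ := exists_bound (S' := S') hS₀ (fun x _ => by rw [hS']; trivial)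
  obtain ⟨P, hP⟩ := exists_bound (S' := T') hT₀ (fun x hx => by
    rw [hT', ← hT₀']; exact Subgroup.subset_closure hx)
  obtain ⟨Q, hQ⟩ := exists_bound (S' := T₀) hT (fun x hx => by
    rw [hT₀', ← hT']; exact Subgroup.subset_closure hx)
  have hup' : ∀ n, ∀ k ∈ {k | ∃ h ∈ K', wlen S' h ≤ n ∧ wlen T' h = k},
      k ≤ P * F (D * (A * n + 1)) := by
    rintro n k ⟨h, hh, hn, rfl⟩
    have h1 : W S' h n := W_mono (FinC_W_wlen (by rw [hS']; trivial)) hn
    exact FinC_wlen_le (W_trans hP (hD h _ hh (W_trans hA h1)))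
  have hmono := hF.mono.monotone
  constructor
  · refine ⟨P + D * A + D + 1, by omega, fun n => ?_⟩
    have h1 : dist S' T' K' n ≤ P * F (D * (A * n + 1)) := csSup_le' (hup' n)
    have h2 : F (D * (A * n + 1)) ≤ F ((P + D * A + D + 1) * n + (P + D * A + D + 1)) := by
      apply hmono
      have e : D * (A * n + 1) = D * A * n + D := by ring
      have h3 : D * A * n ≤ (P + D * A + D + 1) * n := Nat.mul_le_mul_right _ (by omega)
      omega
    have h3 : P * F (D * (A * n + 1)) ≤
        (P + D * A + D + 1) * F ((P + D * A + D + 1) * n + (P + D * A + D + 1)) :=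
      Nat.mul_le_mul (by omega) h2
    omega
  · refine ⟨B * M + M * Q + 1, by omega, fun N => ?_⟩
    obtain ⟨x, hx, hx1, hx2⟩ := hM N
    have h1 : W S' x (B * (M * (N + 1))) := W_trans hB hx1
    have h2 : wlen S' x ≤ (B * M + M * Q + 1) * N + (B * M + M * Q + 1) := by
      refine (FinC_wlen_le h1).trans ?_
      have e : B * (M * (N + 1)) = B * M * N + B * M := by ring
      have h3 : B * M * N ≤ (B * M + M * Q + 1) * N := Nat.mul_le_mul_right _ (by omega)
      omega
    have h3 : wlen T' x ≤ dist S' T' K' ((B * M + M * Q + 1) * N + (B * M + M * Q + 1)) :=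
      le_csSup ⟨_, fun k hk => hup' _ k hk⟩ ⟨x, hx, h2, rfl⟩
    have h4 : W T₀ x (Q * wlen T' x) := W_trans hQ (FinC_W_wlen (by rw [hT']; exact hx))
    have h5 := hx2 _ h4
    have h6 : M * (Q * wlen T' x) ≤ (B * M + M * Q + 1) *
        dist S' T' K' ((B * M + M * Q + 1) * N + (B * M + M * Q + 1)) := by
      have e : M * (Q * wlen T' x) = M * Q * wlen T' x := by ring
      rw [e]
      exact Nat.mul_le_mul (by omega) h3
    have h7 : N ≤ (B * M + M * Q + 1) * N := Nat.le_mul_of_pos_left _ (by omega)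
    omega

end Pool.Agent.helper12.FD
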