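import Pool.Agent.helper12.FD.Triv
import Pool.Agent.helper12.FD.Fun

/-!
Module FD-Iter: iteration. From a gadget `(H, T, s, r; f)` in `G` we get, in `E = HNN(G; r → s)`, the
gadget `(H', T', t⁻¹ r, r; iter f)` with `H' = ⟨H, t⟩`.
-/

namespace Pool.Agent.helper12.FD

open HNNExtension

variable {G : Type*} [Group G] {p : G →* Multiplicative ℤ} {S : Set G}

/-- generators of the new subgroup -/
def iterT (r s : G) (φ : Subgroup.zpowers r ≃* Subgroup.zpowers s) (T : Set G) :
    Set (HNNExtension G (Subgroup.zpowers r) (Subgroup.zpowers s) φ) :=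
  insert t (of '' T)

section

variable {H : Subgroup G} {T : Set G} {s r : G} {f : ℕ → ℕ}
  {φ : Subgroup.zpowers r ≃* Subgroup.zpowers s}

theorem iter_of_mem (h : Gad S p H T s r f) {g : G} (hg : g ∈ H) :
    (of g : HNNExtension G (Subgroup.zpowers r) (Subgroup.zpowers s) φ) ∈
      Subgroup.closure (iterT r s φ T) := by
  have h1 : H.map (of (φ := φ)) ≤ Subgroup.closure (iterT r s φ T) := by
    rw [← h.gen, MonoidHom.map_closure]
    exact Subgroup.closure_mono (Set.subset_insert _ _)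
  exact h1 ⟨g, hg, rfl⟩

theorem iter_t_mem : (t : HNNExtension G (Subgroup.zpowers r) (Subgroup.zpowers s) φ) ∈
      Subgroup.closure (iterT r s φ T) := Subgroup.subset_closure (Set.mem_insert _ _)

/-- elements of the new subgroup are accepted -/
theorem iter_acc (h : Gad S p H T s r f) (hφ : Ph r s φ)
    {x : HNNExtension G (Subgroup.zpowers r) (Subgroup.zpowers s) φ}
    (hx : x ∈ Subgroup.closure (iterT r s φ T)) :
    Pa (V := Unit) (fun _ => H) (fun _ _ _ => True) φ () () x := by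
  have htriv : ∀ (v : Unit) (u : ℤˣ) (v' : Unit), True → ∀ j : ℤ, cg r s u ^ j ∈ H → j = 0 := by
    intro _ u _ _ j hj
    unfold cg at hj
    split_ifs at hj
    · exact h.triv_r hj
    · exact h.triv_s hj
  have hone : Pa (V := Unit) (fun _ => H) (fun _ _ _ => True) φ () () 1 :=
    ⟨1, [], rd_nil, Acc.nil _ _ (one_mem H), by rw [pr_nil, map_one]⟩
  have h1 := Pa_closure (φ := φ) (Hv := fun _ : Unit => H) (δ := fun _ _ _ => True) (v := ())
    (v1 := ()) (T := iterT r s φ T) ?_ hx 1 hone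
  · simpa using h1.1
  · rintro y (rfl | ⟨g, hg, rfl⟩) x hx
    · refine ⟨?_, ?_⟩
      · simpa using Pa_t_mul (u := 1) hφ htriv (fun _ _ _ _ _ _ => rfl) trivial hx
      · simpa using Pa_t_mul (u := -1) hφ htriv (fun _ _ _ _ _ _ => rfl) trivial hx
    · have hg' : g ∈ H := by rw [← h.gen]; exact Subgroup.subset_closure hg
      refine ⟨Pa_of_mul hg' hx, ?_⟩
      rw [← map_inv]
      exact Pa_of_mul (inv_mem hg') hx

/-- the additive bound -/
theorem iter_add (hS : Grd G S p) (hf : Gr0 f) (h : Gad S p H T s r f) (hφ : Ph r s φ) :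
    ∃ C : ℕ, ∀ (m n : ℕ) (w : HNNExtension G (Subgroup.zpowers r) (Subgroup.zpowers s) φ)
      (j j' : ℤ), W (gens φ S) w n → j.natAbs ≤ iter f m →
      (of r) ^ j * w * ((of r) ^ j')⁻¹ ∈ Subgroup.closure (iterT r s φ T) →
      j'.natAbs ≤ iter f (m + C * (n + 1)) ∧
        W (iterT r s φ T) ((of r) ^ j * w * ((of r) ^ j')⁻¹) (iter f (m + C * (n + 1))) := by
  have hG := gr_iter hf
  obtain ⟨n1, hn1⟩ := exists_W (S := S) (g := r) (by rw [hS.gen]; trivial)
  obtain ⟨n2, hn2⟩ := exists_W (S := S) (g := s) (by rw [hS.gen]; trivial)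
  set C := n1 + n2 + 1 with hC
  obtain ⟨C2, hC2⟩ := h.mul
  obtain ⟨D1, hD1⟩ := absorb hG (C2 * (C + 1))
  obtain ⟨D2, hD2⟩ := absorb2 hG
  have hlin : ∀ i : Option ℤˣ, ∃ c : Bool, lin r s r i = ln s r c := by
    rintro (_ | u)
    · exact ⟨true, rfl⟩
    · rcases Int.units_eq_one_or u with rfl | rfl
      · exact ⟨true, by simp [lin, cg, ln]⟩
      · exact ⟨false, by simp [lin, cg, ln]⟩
  have hle : ∀ κ c, f (C2 * (iter f κ + C * c + 1)) ≤ iter f (κ + (D1 + 1) * (c + 1)) := by
    intro κ c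
    have h1 := hD1 κ c
    have h2 : C2 * (iter f κ + C * c + 1) ≤ C2 * (C + 1) * (iter f κ + c + 1) := by
      rw [mul_assoc]
      apply Nat.mul_le_mul_left
      nlinarith
    have h3 := hf.mono.monotone (h2.trans h1)
    have h4 : f (iter f (κ + D1 * (c + 1))) ≤ iter f (κ + D1 * (c + 1) + 1) := by
      rw [iter_succ]; omega
    refine h3.trans (h4.trans (hG.mono.monotone ?_))
    nlinarith
  have hle' : ∀ κ c, C2 * (iter f κ + C * c + 1) ≤ iter f (κ + (D1 + 1) * (c + 1)) :=
    fun κ c => (le_self hf.mono _).trans (hle κ c)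
  refine ⟨D1 + 1 + D2, fun m n w j j' hw hj hx => ?_⟩
  have hP := iter_acc h hφ hx
  have := path hS h.pt h.ps hφ (V := Unit) (Hv := fun _ => H) (δ := fun _ _ _ => True)
    (sp := r) (fun _ => 1) (iterT r s φ T) (fun _ _ => True)
    (fun _ _ κ j => j.natAbs ≤ iter f κ) (iter f) C (D1 + 1) (by omega)
    (W_mono hn1 (by omega)) (W_mono hn2 (by omega)) hG.mono.monotone
    (fun _ _ κ κ' j hκ hj => hj.trans (hG.mono.monotone hκ))
    (fun _ u _ _ => by
      rw [one_mul, inv_one, mul_one]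
      have h1 : W (iterT r s φ T) t 1 := W_of_mem (Set.mem_insert _ _)
      simpa using W_zpow h1 (u : ℤ))
    (fun _ _ _ _ => trivial) (fun _ _ _ _ _ _ hj => hj)
    (fun _ i i' κ c w j j' hw hj _ hx => by
      obtain ⟨c1, e1⟩ := hlin i
      obtain ⟨c2, e2⟩ := hlin i'
      simp only [e1, e2] at hx ⊢
      obtain ⟨h1, h2⟩ := hC2 c1 c2 (iter f κ) (C * c) w j j' hw (by
        unfold val
        split_ifs
        · exact hj.trans (le_self hf.mono _)
        · exact hj) hx
      refine ⟨?_, ?_⟩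
      · unfold val at h1
        split_ifs at h1
        · exact h1.trans (hle κ c)
        · exact h1.trans (hle' κ c)
      · rw [one_mul, inv_one, mul_one]
        have h3 := W_map (of (φ := φ)) h2
        exact W_mono (W_subset (Set.subset_insert _ _) h3) (hle κ c))
    hw (v := ()) (v1 := ()) (i := none) (i1 := none) (y := j) (y' := j') (κ := m) hj trivial
    (by simpa [lin] using hP)
  obtain ⟨h1, h2⟩ := this
  refine ⟨h1.trans (hG.mono.monotone ?_), ?_⟩
  · nlinarith
  · rw [one_mul, inv_one, mul_one] at h2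
    have h3 := hD2 (m + (D1 + 1) * (n + 1)) n
    have h4 : m + (D1 + 1) * (n + 1) + D2 * (n + 1) = m + (D1 + 1 + D2) * (n + 1) := by ring
    rw [h4] at h3
    simpa [lin] using W_mono h2 h3

/-- crossing lemma -/
theorem iter_cross (h : Gad S p H T s r f) (hφ : Ph r s φ) (N : ℕ)
    {x : HNNExtension G (Subgroup.zpowers r) (Subgroup.zpowers s) φ}
    (hx : x ∈ Subgroup.closure (iterT r s φ T)) {g : G} {L : List (ℤˣ × G)} (hL : Rd r s L)
    (he : (t⁻¹ * of r) ^ N * x = pr φ g L) : N ≤ L.length := by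
  obtain ⟨h0, L0, hL0, hA0, rfl⟩ := iter_acc h hφ hx
  have key : ∀ N : ℕ, ∃ g L, Rd r s L ∧ pr φ g L = (t⁻¹ * of r) ^ N * pr φ h0 L0 ∧
      N ≤ L.length ∧ ∀ y ∈ L.head?, y.1 ≠ -1 → g ∈ H := by
    intro N
    induction N with
    | zero =>
      refine ⟨h0, L0, hL0, by simp, by simp, fun _ _ _ => ?_⟩
      exact hA0.mem
    | succ N ih =>
      obtain ⟨g, L, hL, hp, hN, hg⟩ := ih
      refine ⟨1, (-1, r * g) :: L, ?_, ?_, by simpa using hN, ?_⟩
      · unfold Rd at hL ⊢
        rw [List.isChain_cons]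
        refine ⟨?_, hL⟩
        intro y hy hm
        by_contra hne
        have hgH := hg y hy (fun h' => hne h'.symm)
        obtain ⟨j, hj⟩ := (mem_toSubgroup_iff _ _).1 hm
        have hj' : s ^ j = r * g := by
          have : (-1 : ℤˣ) ≠ 1 := by decide
          simpa [cg, this] using hj
        apply h.z1 (-j)
        have : s ^ (-j) * r = g⁻¹ := by
          rw [zpow_neg, hj', mul_inv_rev, mul_assoc, inv_mul_cancel, mul_one]
        rw [this]
        exact inv_mem hgH
      · rw [pow_succ', mul_assoc, ← hp, pr_cons, ← of_mul_pr r g L]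
        simp [mul_assoc]
      · intro y hy hne
        simp only [List.head?_cons, Option.mem_def, Option.some.injEq] at hy
        subst hy
        exact absurd rfl hne
  obtain ⟨g', L', hL', hp, hN, -⟩ := key N
  have h1 := (fst_eq (φ := φ) hL' hL (hp.trans he)).1
  have h2 := congrArg List.length h1
  simp only [List.length_map] at h2
  omega

theorem iter_rel (h : Gad S p H T s r f) (hφ : Ph r s φ) (N : ℕ) :
    (t⁻¹ * of r) ^ N * ((of r) ^ (iter f N))⁻¹ ∈ Subgroup.closure (iterT r s φ T) := by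
  induction N with
  | zero => simp
  | succ N ih =>
    rw [iter_succ]
    have e1 : (t⁻¹ * of r) ^ (N + 1) * ((of r : HNNExtension G (Subgroup.zpowers r)
        (Subgroup.zpowers s) φ) ^ (f (iter f N) + 1))⁻¹ =
        ((t⁻¹ * of r) ^ N * ((of r) ^ (iter f N))⁻¹) *
        (((of r) ^ (iter f N) * t⁻¹ * ((of s) ^ (iter f N))⁻¹)) *
        of (s ^ (iter f N) * (r ^ (f (iter f N)))⁻¹) := by
      simp only [map_mul, map_inv, map_pow, pow_succ]
      group
    have e2 : (of r : HNNExtension G (Subgroup.zpowers r) (Subgroup.zpowers s) φ) ^ (iter f N) *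
        t⁻¹ * ((of s) ^ (iter f N))⁻¹ = t⁻¹ := by
      have h1 := slide hφ 1 (iter f N)
      have : (-1 : ℤˣ) ≠ 1 := by decide
      simp only [cg, if_true, this, if_false, zpow_natCast, map_pow, Units.val_one,
        zpow_one] at h1
      rw [mul_inv_eq_iff_eq_mul, ← mul_inv_eq_iff_eq_mul.2 h1.symm.symm]
      simp only [mul_assoc]
      group
    rw [e1, e2]
    exact mul_mem (mul_mem ih (inv_mem iter_t_mem)) (iter_of_mem h (h.rel _))

theorem iter_pow_short (hS : Grd G S p) :
    ∃ K : ℕ, 1 ≤ K ∧ ∀ j : ℤ, W (gens φ S)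
      ((t⁻¹ * of r : HNNExtension G (Subgroup.zpowers r) (Subgroup.zpowers s) φ) ^ j)
      (K * j.natAbs) := by
  obtain ⟨n1, hn1⟩ := exists_W (S := S) (g := r) (by rw [hS.gen]; trivial)
  refine ⟨n1 + 1, by omega, fun j => W_zpow ?_ j⟩
  have h1 : W (gens φ S) (t : HNNExtension G (Subgroup.zpowers r) (Subgroup.zpowers s) φ) 1 :=
    W_of_mem (Set.mem_insert _ _)
  have h2 : W (gens φ S) (of r : HNNExtension G (Subgroup.zpowers r) (Subgroup.zpowers s) φ) n1 :=
    W_subset (Set.subset_insert _ _) (W_map (of (φ := φ)) hn1)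
  exact W_mono (W_mul (W_inv h1) h2) (by omega)

/-- from the line `r` to the line `t⁻¹ r` -/
theorem iter_back (hS : Grd G S p) (hf : Gr0 f) (h : Gad S p H T s r f) (hφ : Ph r s φ) :
    ∃ C : ℕ, ∀ (m n : ℕ) (w : HNNExtension G (Subgroup.zpowers r) (Subgroup.zpowers s) φ)
      (j j' : ℤ), W (gens φ S) w n → j.natAbs ≤ iter f m →
      (of r) ^ j * w * ((t⁻¹ * of r) ^ j')⁻¹ ∈ Subgroup.closure (iterT r s φ T) →
      j'.natAbs ≤ m + C * (n + 1) ∧
        W (iterT r s φ T) ((of r) ^ j * w * ((t⁻¹ * of r) ^ j')⁻¹)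
          (iter f (C * (m + n + 1))) := by
  have hG := gr_iter hf
  obtain ⟨D, hD⟩ := iter_add hS hf h hφ
  obtain ⟨K, hK1, hK⟩ := iter_pow_short (s := s) (r := r) (φ := φ) hS
  obtain ⟨n1, hn1⟩ := exists_W (S := S) (g := r) (by rw [hS.gen]; trivial)
  obtain ⟨n2, hn2⟩ := exists_W (S := S) (g := s) (by rw [hS.gen]; trivial)
  refine ⟨(D + 1) * (K * (D + 1) + 1) * 2 + D + 1, fun m n w j j' hw hj hx => ?_⟩
  have hb : j'.natAbs ≤ m + (D + 1) * (n + 1) := by
    obtain ⟨N, rfl | rfl⟩ := j'.eq_nat_or_neg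
    · have h1 := iter_rel h hφ N
      have h2 := mul_mem hx h1
      rw [zpow_natCast, mul_assoc, inv_mul_cancel_left, ← zpow_natCast (of r)] at h2
      have h3 := (hD m n w j (iter f N : ℕ) hw hj h2).1
      rw [Int.natAbs_natCast] at h3
      have h4 := hG.mono.le_iff_le.1 h3
      rw [Int.natAbs_natCast]
      nlinarith
    · rw [Int.natAbs_neg, Int.natAbs_natCast]
      obtain ⟨g, L, c, m', hL, hp, -, -, hT, hn⟩ := rep hS h.pt h.ps hφ
        (C := n1 + n2 + 1) (by omega) (W_mono hn1 (by omega)) (W_mono hn2 (by omega)) (W_inv hw)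
      have h1 := hT.length_le
      -- the reduced word of `w⁻¹ r ^ (-j)`
      obtain ⟨g', L', hL', hlen, hp'⟩ : ∃ g' L', Rd r s L' ∧ L'.length = L.length ∧
          pr φ g L * of (r ^ (-j)) = pr φ g' L' := by
        cases L with
        | nil => exact ⟨g * r ^ (-j), [], rd_nil, rfl, by rw [pr_nil, pr_nil, map_mul]⟩
        | cons y L =>
          obtain ⟨u, g1⟩ := y
          refine ⟨g, lmul (r ^ (-j)) ((u, g1) :: L), rd_lmul hL, ?_, (pr_lmul _ _ _ _ _).symm⟩
          have := congrArg List.length (lmul_fst (r ^ (-j)) ((u, g1) :: L))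
          simpa using this
      have h2 := iter_cross h hφ N (inv_mem hx) hL' (by
        rw [← hp', ← hp]
        simp only [zpow_neg, zpow_natCast, inv_inv, mul_inv_rev, map_inv, map_zpow]
        group)
      nlinarith
  refine ⟨?_, ?_⟩
  · refine hb.trans ?_
    nlinarith [Nat.zero_le ((D + 1) * (K * (D + 1) + 1) * 2 * (n + 1))]
  · have hx' : (of r) ^ j * (w * ((t⁻¹ * of r) ^ j')⁻¹) * ((of r) ^ (0 : ℤ))⁻¹ ∈
        Subgroup.closure (iterT r s φ T) := by
      rw [zpow_zero, inv_one, mul_one, ← mul_assoc]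
      exact hx
    have h1 := (hD m (n + K * j'.natAbs) _ j 0 (W_mul hw (W_inv (hK j'))) hj hx').2
    rw [zpow_zero, inv_one, mul_one, ← mul_assoc] at h1
    refine W_mono h1 (hG.mono.monotone ?_)
    have h2 : K * j'.natAbs ≤ K * (m + (D + 1) * (n + 1)) := Nat.mul_le_mul_left _ hb
    have h3 : n + K * j'.natAbs + 1 ≤ (K * (D + 1) + 1) * (m + n + 1) := by
      have : K * (m + (D + 1) * (n + 1)) ≤ K * (D + 1) * (m + n + 1) := by
        rw [mul_assoc]
        apply Nat.mul_le_mul_left
        nlinarith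
      nlinarith
    have h4 : D * (n + K * j'.natAbs + 1) ≤ D * ((K * (D + 1) + 1) * (m + n + 1)) :=
      Nat.mul_le_mul_left _ h3
    have h5 : m ≤ (m + n + 1) := by omega
    nlinarith [Nat.zero_le (D * (m + n + 1)), Nat.zero_le ((K * (D + 1) + 1) * (m + n + 1))]

theorem gad_iter (hS : Grd G S p) (hf : Gr0 f) (h : Gad S p H T s r f) (hφ : Ph r s φ) :
    Gad (gens φ S) (pe p h.pt h.ps hφ) (Subgroup.closure (iterT r s φ T)) (iterT r s φ T)
      (t⁻¹ * of r) (of r) (iter f) := by
  have hG := gr_iter hf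
  obtain ⟨D, hD⟩ := iter_add hS hf h hφ
  obtain ⟨B, hB⟩ := iter_back hS hf h hφ
  obtain ⟨K, hK1, hK⟩ := iter_pow_short (s := s) (r := r) (φ := φ) hS
  refine ⟨?_, ?_, ?_, rfl, ?_, ?_, ?_, ⟨D, hD⟩⟩
  · rw [map_mul, map_inv, pe_t, pe_of, inv_one, one_mul, h.pt]
  · rw [pe_of, h.pt]
  · exact (h.fin.image _).insert _
  · intro N
    exact iter_rel h hφ N
  · intro i hi
    obtain ⟨N, rfl | rfl⟩ := i.eq_nat_or_neg
    · have h1 := mul_mem (inv_mem hi) (iter_rel h hφ N)
      rw [zpow_natCast, mul_inv_rev, mul_assoc, inv_mul_cancel_left] at h1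
      have h2 : (of r : HNNExtension G (Subgroup.zpowers r) (Subgroup.zpowers s) φ) ^
          (-((iter f N : ℤ) + 1)) ∈ Subgroup.closure (iterT r s φ T) := by
        have e : (of r : HNNExtension G (Subgroup.zpowers r) (Subgroup.zpowers s) φ) ^
          (-((iter f N : ℤ) + 1)) = (of r)⁻¹ * ((of r) ^ (iter f N))⁻¹ := by
          rw [← zpow_natCast]
          group
        rw [e]
        exact h1
      have h3 : -((iter f N : ℤ) + 1) = 0 := by
        refine triv_aux (B := iter f (0 + D * (0 + 1))) (fun j hj => ?_) h2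
        refine (hD 0 0 1 0 j (W_one 0) (by simp) ?_).1
        simpa using inv_mem hj
      omega
    · by_cases hN : N = 0
      · subst hN
        simp only [Nat.cast_zero, neg_zero, zpow_zero, one_mul] at hi
        have h3 : (1 : ℤ) = 0 := by
          refine triv_aux (x := (of r : HNNExtension G (Subgroup.zpowers r)
            (Subgroup.zpowers s) φ)) (H := Subgroup.closure (iterT r s φ T))
            (B := iter f (0 + D * (0 + 1))) (fun j hj => ?_) (by simpa using hi)
          refine (hD 0 0 1 0 j (W_one 0) (by simp) ?_).1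
          simpa using inv_mem hj
        omega
      · have h1 := iter_cross h hφ N hi (g := r) (L := []) rd_nil (by
          rw [pr_nil, zpow_neg, zpow_natCast, mul_inv_cancel_left])
        simp only [List.length_nil, Nat.le_zero] at h1
        exact hN h1
  · -- the four cases
    set C := (D + B + 1) * (K + 1) * (B + 1) * 2 with hC
    have hback : ∀ (m n : ℕ) (w : HNNExtension G (Subgroup.zpowers r) (Subgroup.zpowers s) φ)
      (j' : ℤ), W (gens φ S) w ((K + 1) * (m + n + 1)) →
      w * ((t⁻¹ * of r) ^ j')⁻¹ ∈ Subgroup.closure (iterT r s φ T) →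
      j'.natAbs ≤ C * (m + n + 1) ∧
        W (iterT r s φ T) (w * ((t⁻¹ * of r) ^ j')⁻¹) (iter f (C * (m + n + 1))) := by
      intro m n w j' hw hx
      obtain ⟨h1, h2⟩ := hB 0 _ w 0 j' hw (by simp) (by simpa using hx)
      rw [zpow_zero, one_mul] at h2
      have h3 : B * (0 + (K + 1) * (m + n + 1) + 1) ≤ C * (m + n + 1) := by
        have e1 : 0 + (K + 1) * (m + n + 1) + 1 ≤ (K + 1) * 2 * (m + n + 1) := by nlinarith
        calc _ ≤ B * ((K + 1) * 2 * (m + n + 1)) := Nat.mul_le_mul_left _ e1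
          _ = B * ((K + 1) * 2) * (m + n + 1) := by ring
          _ ≤ C * (m + n + 1) := by
            apply Nat.mul_le_mul_right
            rw [hC]
            have : B * ((K + 1) * 2) ≤ (D + B + 1) * ((K + 1) * 2) * (B + 1) := by
              have e2 : B ≤ (D + B + 1) * (B + 1) := by nlinarith
              calc _ ≤ (D + B + 1) * (B + 1) * ((K + 1) * 2) := Nat.mul_le_mul_right _ e2
                _ = _ := by ring
            refine this.trans (le_of_eq (by ring))
      refine ⟨?_, W_mono h2 (hG.mono.monotone h3)⟩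
      refine h1.trans (le_trans ?_ h3)
      rw [Nat.zero_add, Nat.zero_add]
    refine ⟨C, fun c d m n w j j' hw hj hx => ?_⟩
    have hmn : m ≤ m + n + 1 := by omega
    have hC1 : D + 1 ≤ C := by
      rw [hC]
      have : 1 ≤ (K + 1) * (B + 1) * 2 := Nat.succ_le_of_lt (by positivity)
      calc D + 1 ≤ (D + B + 1) * 1 := by omega
        _ ≤ (D + B + 1) * ((K + 1) * (B + 1) * 2) := Nat.mul_le_mul_left _ this
        _ = _ := by ring
    have hC2 : B + 1 ≤ C := by
      rw [hC]
      have : 1 ≤ (K + 1) * (B + 1) * 2 := Nat.succ_le_of_lt (by positivity)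
      calc B + 1 ≤ (D + B + 1) * 1 := by omega
        _ ≤ (D + B + 1) * ((K + 1) * (B + 1) * 2) := Nat.mul_le_mul_left _ this
        _ = _ := by ring
    have hC3 : (D + 1) * ((K + 1) * 2) ≤ C := by
      rw [hC]
      have : 1 ≤ B + 1 := by omega
      calc (D + 1) * ((K + 1) * 2) ≤ (D + B + 1) * ((K + 1) * 2) :=
            Nat.mul_le_mul_right _ (by omega)
        _ = (D + B + 1) * ((K + 1) * 2) * 1 := by ring
        _ ≤ (D + B + 1) * ((K + 1) * 2) * (B + 1) := Nat.mul_le_mul_left _ this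
        _ = _ := by ring
    have hshort : j.natAbs ≤ m → W (gens φ S) ((t⁻¹ * of r) ^ j * w) ((K + 1) * (m + n + 1)) := by
      intro hj
      refine W_mono (W_mul (hK j) hw) ?_
      have : K * j.natAbs ≤ K * m := Nat.mul_le_mul_left _ hj
      nlinarith
    cases c <;> cases d
    · -- from `t⁻¹ r` to `t⁻¹ r`
      simp only [val, ln, Bool.false_eq_true, if_false] at hj hx ⊢
      exact hback m n _ j' (hshort hj) hx
    · simp only [val, ln, Bool.false_eq_true, if_false, if_true] at hj hx ⊢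
      obtain ⟨h1, h2⟩ := hD 0 _ _ 0 j' (hshort hj) (by simp) (by simpa using hx)
      rw [zpow_zero, one_mul] at h2
      have h3 : 0 + D * ((K + 1) * (m + n + 1) + 1) ≤ C * (m + n + 1) := by
        have e1 : (K + 1) * (m + n + 1) + 1 ≤ (K + 1) * 2 * (m + n + 1) := by nlinarith
        calc _ ≤ D * ((K + 1) * 2 * (m + n + 1)) := by
              rw [Nat.zero_add]; exact Nat.mul_le_mul_left _ e1
          _ = D * ((K + 1) * 2) * (m + n + 1) := by ring
          _ ≤ C * (m + n + 1) := Nat.mul_le_mul_right _ (le_trans (Nat.mul_le_mul_right _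
              (by omega)) hC3)
      exact ⟨h1.trans (hG.mono.monotone h3), W_mono h2 (hG.mono.monotone h3)⟩
    · simp only [val, ln, Bool.false_eq_true, if_false, if_true] at hj hx ⊢
      obtain ⟨h1, h2⟩ := hB m n w j j' hw hj hx
      refine ⟨h1.trans ?_, W_mono h2 (hG.mono.monotone (Nat.mul_le_mul_right _ (by omega)))⟩
      have : (B + 1) * (m + n + 1) ≤ C * (m + n + 1) := Nat.mul_le_mul_right _ hC2
      nlinarith
    · simp only [val, ln, if_true] at hj hx ⊢
      obtain ⟨h1, h2⟩ := hD m n w j j' hw hj hx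
      have h3 : m + D * (n + 1) ≤ C * (m + n + 1) := by
        have : (D + 1) * (m + n + 1) ≤ C * (m + n + 1) := Nat.mul_le_mul_right _ hC1
        nlinarith
      exact ⟨h1.trans (hG.mono.monotone h3), W_mono h2 (hG.mono.monotone h3)⟩

end

end Pool.Agent.helper12.FD
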