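import Pool.Agent.helper12.FD.Triv

/-!
Module FD-Per: gadgets persist in HNN extensions.

* `W_of_hnn`: let `C ≥ 1` bound the lengths of `a`, `b` (`exists_W`, closure `S = ⊤`). By `rep`
  `of g = pr φ g' L`, `Rd L`, `W S g' (C * c)`, `c ≤ n`; `fst_nil` gives `L = []`, `g' = g`.
* `grd_hnn`: `fin`: image and insert; `gen`: `HNNExtension.induction_on` or
  `Subgroup.closure` contains the range of `of` (map of the closure) and `t`; `one`: `pe_of`, `pe_t`.
* `gad_hnn`: `s ^ j * w * (r ^ j')⁻¹ ∈ of H` (images) gives `w = of w₀` (`w = of (..)` by solving for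
  `w`), `W S w₀ (C * n)` by `W_of_hnn`, `of` is injective (`HNNExtension.of_injective φ`), then the
  constants of `h` with `C * n` in place of `n`: `C₁ * (m + C * n + 1) ≤ C₁ * (C + 1) * (m + n + 1)`,
  `m + C₁ * (C * n + 1) ≤ m + C₁ * (C + 1) * (n + 1)`, and `f` is monotone (`val` is monotone in the
  potential). `W_map` for the bound on the word length over `of '' T`. `gen`: `MonoidHom.map_closure`.
-/

namespace Pool.Agent.helper12.FD

open HNNExtension

variable {G : Type*} [Group G] {a b : G} {φ : Subgroup.zpowers a ≃* Subgroup.zpowers b}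
  {p : G →* Multiplicative ℤ} {S : Set G}

theorem W_of_hnn (hS : Grd G S p) (ha : p a = Multiplicative.ofAdd 1)
    (hb : p b = Multiplicative.ofAdd 1) (hφ : Ph a b φ) :
    ∃ C, 1 ≤ C ∧ ∀ g n, W (gens φ S) (of g) n → W S g (C * n) := by
  obtain ⟨A, hA⟩ := exists_W (S := S) (g := a) (by rw [hS.gen]; trivial)
  obtain ⟨B, hB⟩ := exists_W (S := S) (g := b) (by rw [hS.gen]; trivial)
  refine ⟨A + B + 1, by omega, fun g n h => ?_⟩
  obtain ⟨g', L, c, m, hL, h1, hw, -, -, hn⟩ := rep hS ha hb hφ (C := A + B + 1) (by omega)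
    (W_mono hA (by omega)) (W_mono hB (by omega)) h
  obtain ⟨-, rfl⟩ := fst_nil hL h1.symm
  exact W_mono hw (Nat.mul_le_mul_left _ (by omega))

theorem Per_range_le {S : Set G} (hS : Subgroup.closure S = ⊤) (g : G) :
    (of g : HNNExtension G (Subgroup.zpowers a) (Subgroup.zpowers b) φ) ∈
      Subgroup.closure (gens φ S) := by
  have h1 : (Subgroup.closure S).map (of (φ := φ)) ≤ Subgroup.closure (gens φ S) := by
    rw [MonoidHom.map_closure]
    exact Subgroup.closure_mono (Set.subset_insert _ _)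
  exact h1 ⟨g, by rw [hS]; trivial, rfl⟩

theorem grd_hnn (hS : Grd G S p) (ha : p a = Multiplicative.ofAdd 1)
    (hb : p b = Multiplicative.ofAdd 1) (hφ : Ph a b φ) :
    Grd (HNNExtension G (Subgroup.zpowers a) (Subgroup.zpowers b) φ) (gens φ S)
      (pe p ha hb hφ) := by
  refine ⟨(hS.fin.image _).insert _, ?_, ?_⟩
  · rw [eq_top_iff]
    intro x _
    induction x using HNNExtension.induction_on with
    | of g => exact Per_range_le hS.gen g
    | t => exact Subgroup.subset_closure (Set.mem_insert _ _)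
    | mul x y hx hy => exact mul_mem (hx trivial) (hy trivial)
    | inv x hx => exact inv_mem (hx trivial)
  · intro x hx
    rcases hx with rfl | ⟨g, hg, rfl⟩
    · rw [pe_t]; simp
    · rw [pe_of]; exact hS.one g hg

theorem Per_ln (s r : G) (c : Bool) :
    ln (of s : HNNExtension G (Subgroup.zpowers a) (Subgroup.zpowers b) φ) (of r) c =
      of (ln s r c) := by
  cases c <;> rfl

theorem Per_mem {H : Subgroup G} {x y : G}
    {w : HNNExtension G (Subgroup.zpowers a) (Subgroup.zpowers b) φ}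
    (h : of x * w * (of y)⁻¹ ∈ H.map (of (φ := φ))) :
    ∃ w₀, w = of w₀ ∧ x * w₀ * y⁻¹ ∈ H := by
  obtain ⟨z, hz, h1⟩ := h
  refine ⟨x⁻¹ * z * y, ?_, ?_⟩
  · rw [map_mul, map_mul, map_inv, h1]
    group
  · have : x * (x⁻¹ * z * y) * y⁻¹ = z := by group
    rw [this]
    exact hz

theorem Per_val {f : ℕ → ℕ} (hf : Monotone f) {c : Bool} {m m' : ℕ} (hm : m ≤ m') {j : ℤ}
    (h : val f c m j) : val f c m' j := by
  cases c
  · simp only [val] at h ⊢
    simpa using le_trans (by simpa using h) hm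
  · simp only [val] at h ⊢
    simpa using le_trans (by simpa using h) (hf hm)

theorem gad_hnn (hS : Grd G S p) (ha : p a = Multiplicative.ofAdd 1)
    (hb : p b = Multiplicative.ofAdd 1) (hφ : Ph a b φ) {H : Subgroup G} {T : Set G} {s r : G}
    {f : ℕ → ℕ} (hf : Monotone f) (h : Gad S p H T s r f) :
    Gad (gens φ S) (pe p ha hb hφ) (H.map (of (φ := φ))) (of '' T) (of s) (of r) f := by
  obtain ⟨C, -, hC⟩ := W_of_hnn hS ha hb hφ
  refine ⟨by rw [pe_of, h.ps], by rw [pe_of, h.pt], h.fin.image _, ?_, ?_, ?_, ?_, ?_⟩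
  · rw [← h.gen, MonoidHom.map_closure]
  · intro N
    exact ⟨_, h.rel N, by simp⟩
  · rintro i ⟨z, hz, h1⟩
    apply h.z1 i
    have h2 : (of z : HNNExtension G (Subgroup.zpowers a) (Subgroup.zpowers b) φ) =
        of (s ^ i * r) := by
      rw [h1]; simp
    rw [← HNNExtension.of_injective φ h2]
    exact hz
  · obtain ⟨C₁, h1⟩ := h.mul
    refine ⟨C₁ * (C + 1), ?_⟩
    intro c d m n w j j' hw hj hx
    rw [Per_ln, Per_ln, ← map_zpow, ← map_zpow] at hx ⊢
    obtain ⟨w₀, rfl, hw₀⟩ := Per_mem hx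
    obtain ⟨h2, h3⟩ := h1 c d m (C * n) w₀ j j' (hC _ _ hw) hj hw₀
    have h4 : C₁ * (m + C * n + 1) ≤ C₁ * (C + 1) * (m + n + 1) := by
      rw [mul_assoc]
      apply Nat.mul_le_mul_left
      nlinarith [Nat.zero_le (C * m), Nat.zero_le C]
    refine ⟨Per_val hf h4 h2, ?_⟩
    rw [← map_inv, ← map_mul, ← map_mul]
    exact W_mono (W_map _ h3) (hf h4)
  · obtain ⟨C₁, h1⟩ := h.add
    refine ⟨C₁ * (C + 1), ?_⟩
    intro m n w j j' hw hj hx
    rw [← map_zpow, ← map_zpow] at hx ⊢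
    obtain ⟨w₀, rfl, hw₀⟩ := Per_mem hx
    obtain ⟨h2, h3⟩ := h1 m (C * n) w₀ j j' (hC _ _ hw) hj hw₀
    have h4 : m + C₁ * (C * n + 1) ≤ m + C₁ * (C + 1) * (n + 1) := by
      rw [mul_assoc]
      apply Nat.add_le_add_left
      apply Nat.mul_le_mul_left
      nlinarith [Nat.zero_le (C * n), Nat.zero_le C, Nat.zero_le n]
    refine ⟨h2.trans (hf h4), ?_⟩
    rw [← map_inv, ← map_mul, ← map_mul]
    exact W_mono (W_map _ h3) (hf h4)

end Pool.Agent.helper12.FD
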