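import Pool.Agent.helper12.FD.Base
import Pool.Agent.helper12.FD.Fbc
import Pool.Agent.helper12.FD.Per
import Pool.Agent.helper12.FD.Iter
import Pool.Agent.helper12.FD.Comp
import Pool.Agent.helper12.FD.FinA
import Pool.Agent.helper12.FD.FinB
import Pool.Agent.helper12.FD.FinC
import Pool.Agent.helper12.FD.Cm

/-! Assembly: all finite compositions of the functions `fk k`, `k ≥ 1`, are distortion functions of
subgroups of free-by-cyclic groups. -/

namespace Pool.Agent.helper12.FD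

open HNNExtension

/-- a free-by-cyclic group with gadgets for `fk 0, …, fk K`, with the same output line `r` -/
structure Tow (K : ℕ) (G : Type) [Group G] (S : Set G) (p : G →* Multiplicative ℤ) (r : G) :
    Prop where
  fbc : FBC G p
  grd : Grd G S p
  gad : ∀ k ≤ K, ∃ (H : Subgroup G) (T : Set G) (s : G), Gad S p H T s r (fk k)

theorem exists_tow (K : ℕ) : ∃ (G : Type) (_ : Group G) (S : Set G) (p : G →* Multiplicative ℤ)
    (r : G), Tow K G S p r := by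
  induction K with
  | zero =>
    obtain ⟨G, _, S, p, H, T, s, r, h1, h2, h3⟩ := base
    refine ⟨G, _, S, p, r, h1, h2, fun k hk => ?_⟩
    obtain rfl : k = 0 := by omega
    exact ⟨H, T, s, h3⟩
  | succ K ih =>
    obtain ⟨G, _, S, p, r, h⟩ := ih
    obtain ⟨H, T, s, hg⟩ := h.gad K le_rfl
    obtain ⟨φ, hφ⟩ := exists_phi hg.pt hg.ps
    refine ⟨HNNExtension G (Subgroup.zpowers r) (Subgroup.zpowers s) φ, inferInstance, gens φ S,
      pe p hg.pt hg.ps hφ, of r, fbc_hnn h.fbc hg.pt hg.ps hφ, grd_hnn h.grd hg.pt hg.ps hφ,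
      fun k hk => ?_⟩
    rcases Nat.lt_or_ge K k with hk' | hk'
    · obtain rfl : k = K + 1 := by omega
      exact ⟨_, _, _, gad_iter h.grd (gr0_fk K) hg hφ⟩
    · obtain ⟨H', T', s', hg'⟩ := h.gad k hk'
      exact ⟨_, _, _, gad_hnn h.grd hg.pt hg.ps hφ (gr0_fk k).mono.monotone hg'⟩

theorem exists_out (K : ℕ) : ∀ (l : List ℕ), l ≠ [] → (∀ k ∈ l, 1 ≤ k ∧ k ≤ K) →
    ∃ (G : Type) (_ : Group G) (S : Set G) (p : G →* Multiplicative ℤ) (r : G)
      (H : Subgroup G) (U : Set G) (σ τ : G), Tow K G S p r ∧ Out S p H U σ τ (cmp l)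
  | [], h, _ => absurd rfl h
  | [k], _, h => by
    obtain ⟨G, _, S, p, r, hT⟩ := exists_tow K
    obtain ⟨H, T, s, hg⟩ := hT.gad k (h k (by simp)).2
    exact ⟨G, _, S, p, r, H, T, s, r, hT, hg.out⟩
  | k :: k2 :: l, _, h => by
    have hl : ∀ x ∈ k2 :: l, 1 ≤ x ∧ x ≤ K := fun x hx => h x (by simp at hx ⊢; tauto)
    obtain ⟨G, _, S, p, r, H, U, σ, τ, hT, hO⟩ := exists_out K (k2 :: l) (by simp) hl
    obtain ⟨H', T', s, hg⟩ := hT.gad k (h k (by simp)).2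
    obtain ⟨φ, hφ⟩ := exists_phi hO.pτ hg.ps
    obtain ⟨k', hk'⟩ : ∃ k', k = k' + 1 := ⟨k - 1, by have := (h k (by simp)).1; omega⟩
    refine ⟨HNNExtension G (Subgroup.zpowers τ) (Subgroup.zpowers s) φ, inferInstance, gens φ S,
      pe p hO.pτ hg.ps hφ, of r, _, _, _, _, ⟨fbc_hnn hT.fbc hO.pτ hg.ps hφ,
      grd_hnn hT.grd hO.pτ hg.ps hφ, fun x hx => ?_⟩,
      out_comp hT.grd (by rw [hk']; exact gr_fk k')
        (gr_cmp (k2 :: l) (by simp) fun x hx => (hl x hx).1) hg hO hφ⟩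
    obtain ⟨H'', T'', s'', hg''⟩ := hT.gad x hx
    exact ⟨_, _, _, gad_hnn hT.grd hO.pτ hg.ps hφ (gr0_fk x).mono.monotone hg''⟩

/-- a free-by-cyclic group with a subgroup whose distortion function is `cmp l` -/
theorem exists_dist (l : List ℕ) (hl : l ≠ []) (h1 : ∀ k ∈ l, 1 ≤ k) :
    ∃ (E : Type) (_ : Group E) (p : E →* Multiplicative ℤ) (S₀ T₀ : Set E), FBC E p ∧
      S₀.Finite ∧ Subgroup.closure S₀ = ⊤ ∧ T₀.Finite ∧
      (∃ D : ℕ, ∀ x n, x ∈ Subgroup.closure T₀ → W S₀ x n → W T₀ x (cmp l (D * (n + 1)))) ∧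
      (∃ M : ℕ, ∀ N, ∃ x ∈ Subgroup.closure T₀, W S₀ x (M * (N + 1)) ∧
        ∀ n, W T₀ x n → cmp l N ≤ M * n + N) := by
  obtain ⟨K, hK⟩ : ∃ K, ∀ k ∈ l, k ≤ K := by
    refine ⟨l.sum, fun k hk => List.single_le_sum (fun _ _ => Nat.zero_le _) k hk⟩
  obtain ⟨G, _, S, p, r, H, U, σ, τ, hT, hO⟩ := exists_out K l hl (fun k hk => ⟨h1 k hk, hK k hk⟩)
  obtain ⟨φ, hφ⟩ := exists_phi hO.pτ hO.pτ
  have hg := grd_hnn hT.grd hO.pτ hO.pτ hφ
  have hF := gr_cmp l hl h1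
  refine ⟨HNNExtension G (Subgroup.zpowers τ) (Subgroup.zpowers τ) φ, inferInstance,
    pe p hO.pτ hO.pτ hφ, gens φ S, finT τ φ U, fbc_hnn hT.fbc hO.pτ hO.pτ hφ, hg.fin, hg.gen,
    (hO.fin.image _).insert _, fin_upper hT.grd hF hO hφ, fin_lower hT.grd hF hO hφ⟩

/-- **Main theorem.** -/
theorem main (l : List ℕ) (hl : l ≠ []) (h1 : ∀ k ∈ l, 1 ≤ k) :
    ∃ (r : ℕ) (ψ : MulAut (FreeGroup (Fin r)))
      (H : Subgroup (FreeGroup (Fin r) ⋊[zpowersHom _ ψ] Multiplicative ℤ)),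
      1 ≤ r ∧ H.FG ∧
      ∀ S T : Set (FreeGroup (Fin r) ⋊[zpowersHom _ ψ] Multiplicative ℤ), S.Finite →
        Subgroup.closure S = ⊤ → T.Finite → Subgroup.closure T = H →
        Eqv (dist S T H) (cmp l) := by
  obtain ⟨E, _, p, S₀, T₀, ⟨r, ψ, e, hr, -⟩, hS, hS', hT, ⟨D, hD⟩, ⟨M, hM⟩⟩ := exists_dist l hl h1
  have hF := gr_cmp l hl h1
  have e1 : ∀ x : E, e.toMonoidHom x = e x := fun _ => rfl
  have hcl : Subgroup.closure (e '' T₀) = (Subgroup.closure T₀).map e.toMonoidHom := by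
    rw [MonoidHom.map_closure]; rfl
  have hback : ∀ (A : Set E) (x : E) (n : ℕ), W (e '' A) (e x) n → W A x n := by
    intro A x n h
    have h2 := W_map e.symm.toMonoidHom h
    have h3 : (e.symm.toMonoidHom '' (e '' A)) = A := by
      ext y
      simp
    rw [h3] at h2
    simpa using h2
  have hforw : ∀ (A : Set E) (x : E) (n : ℕ), W A x n → W (e '' A) (e x) n :=
    fun A x n h => W_map e.toMonoidHom h
  refine ⟨r, ψ, (Subgroup.closure T₀).map e.toMonoidHom, hr, ?_, fun S T a1 a2 a3 a4 => ?_⟩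
  · rw [← hcl]
    exact ⟨(hT.image e).toFinset, by simp⟩
  · refine dist_eqv hF (S₀ := e '' S₀) (T₀ := e '' T₀) (hS.image _) ?_ (hT.image _) hcl a1 a2 a3 a4
      ⟨D, ?_⟩ ⟨M, ?_⟩
    · have h2 : Subgroup.closure (e '' S₀) = (Subgroup.closure S₀).map e.toMonoidHom := by
        rw [MonoidHom.map_closure]; rfl
      rw [h2, hS']
      exact Subgroup.map_top_of_surjective _ e.surjective
    · rintro x n ⟨y, hy, rfl⟩ hx
      exact hforw _ _ _ (hD y n hy (hback _ _ _ hx))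
    · intro N
      obtain ⟨x, hx, h2, h3⟩ := hM N
      exact ⟨e x, ⟨x, hx, rfl⟩, hforw _ _ _ h2, fun n hn => h3 n (hback _ _ _ hn)⟩

end Pool.Agent.helper12.FD
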