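import Pool.Agent.helper12.FD.Red

/-! Reduced words with costs, accepted words, and the path lemma. -/

namespace Pool.Agent.helper12.FD

open HNNExtension

variable {G : Type*} [Group G] {a b : G} {φ : Subgroup.zpowers a ≃* Subgroup.zpowers b}
  {p : G →* Multiplicative ℤ} {S : Set G}

/-- generators of the HNN extension -/
def gens (φ : Subgroup.zpowers a ≃* Subgroup.zpowers b) (S : Set G) :
    Set (HNNExtension G (Subgroup.zpowers a) (Subgroup.zpowers b) φ) :=
  insert t (of '' S)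

/-- costs of the entries of a word: total cost `m`, where an entry of cost `c` counts `c + 1` -/
inductive Tot (S : Set G) (p : G →* Multiplicative ℤ) (C : ℕ) : List (ℤˣ × G) → ℕ → Prop
  | nil : Tot S p C [] 0
  | cons (u : ℤˣ) (g : G) (L : List (ℤˣ × G)) (c m : ℕ) (hw : W S g (C * c))
      (hp : (p g).toAdd.natAbs ≤ c) (h : Tot S p C L m) : Tot S p C ((u, g) :: L) (c + m + 1)

theorem Tot.length_le {C : ℕ} {L : List (ℤˣ × G)} {m : ℕ} (h : Tot S p C L m) :
    L.length ≤ m := by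
  induction h with
  | nil => simp
  | cons u g L c m hw hp h ih => simp only [List.length_cons]; omega

/-- **Reduction with costs.** -/
theorem rep (hS : Grd G S p) (ha : p a = Multiplicative.ofAdd 1)
    (hb : p b = Multiplicative.ofAdd 1) (hφ : Ph a b φ) {C : ℕ} (hC : 1 ≤ C)
    (hCa : W S a C) (hCb : W S b C)
    {x : HNNExtension G (Subgroup.zpowers a) (Subgroup.zpowers b) φ} {n : ℕ}
    (hx : W (gens φ S) x n) :
    ∃ g L c m, Rd a b L ∧ x = pr φ g L ∧ W S g (C * c) ∧ (p g).toAdd.natAbs ≤ c ∧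
      Tot S p C L m ∧ c + m ≤ n := by
  refine W_induction (P := fun x n => ∃ g L c m, Rd a b L ∧ x = pr φ g L ∧ W S g (C * c) ∧
    (p g).toAdd.natAbs ≤ c ∧ Tot S p C L m ∧ c + m ≤ n) ?_ ?_ ?_ hx
  · exact ⟨1, [], 0, 0, rd_nil, by simp [pr_nil], W_one _, by simp, Tot.nil, le_rfl⟩
  · intro y x n hy hg
    obtain ⟨g, L, c, m, hL, rfl, hw, hp, hT, hn⟩ := hg
    -- letters of `G`
    have hof : ∀ s : G, W S s 1 → (p s).toAdd.natAbs ≤ 1 → ∃ g' L' c' m', Rd a b L' ∧
        of s * pr φ g L = pr φ g' L' ∧ W S g' (C * c') ∧ (p g').toAdd.natAbs ≤ c' ∧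
        Tot S p C L' m' ∧ c' + m' ≤ n + 1 := by
      intro s hs hps
      refine ⟨s * g, L, c + 1, m, hL, of_mul_pr _ _ _, ?_, ?_, hT, by omega⟩
      · refine W_mono (W_mul hs hw) ?_
        nlinarith
      · rw [map_mul, toAdd_mul]
        have := Int.natAbs_add_le (p s).toAdd (p g).toAdd
        omega
    -- the stable letter
    have ht : ∀ v : ℤˣ, ∃ g' L' c' m', Rd a b L' ∧
        t ^ (v : ℤ) * pr φ g L = pr φ g' L' ∧ W S g' (C * c') ∧ (p g').toAdd.natAbs ≤ c' ∧
        Tot S p C L' m' ∧ c' + m' ≤ n + 1 := by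
      intro v
      rcases tmul_cases v g L hL with ⟨j, g1, L', rfl, rfl⟩ | hR
      · cases hT with
        | cons u g1 L' c1 m1 hw1 hp1 hT1 =>
          have hcv : p (cg a b v) = Multiplicative.ofAdd 1 := by
            unfold cg; split_ifs <;> assumption
          have hcv' : p (cg a b (-v)) = Multiplicative.ofAdd 1 := by
            unfold cg; split_ifs <;> assumption
          have hWc : W S (cg a b (-v)) C := by
            unfold cg; split_ifs <;> assumption
          rw [p_zpow hcv] at hp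
          refine ⟨cg a b (-v) ^ j * g1, L', c + c1, m1, rd_tail hL, tmul_cancel hφ v j g1 L',
            ?_, ?_, hT1, by omega⟩
          · refine W_mono (W_mul (W_zpow hWc j) hw1) ?_
            have : C * j.natAbs ≤ C * c := Nat.mul_le_mul_left _ hp
            rw [Nat.mul_add]; omega
          · rw [map_mul, toAdd_mul, p_zpow hcv']
            have := Int.natAbs_add_le j (p g1).toAdd
            omega
      · exact ⟨1, (v, g) :: L, 0, c + m + 1, hR, tmul_pr _ _ _, W_one _, by simp,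
          Tot.cons v g L c m hw hp hT, by omega⟩
    have key : ∀ y, (y ∈ gens φ S) → (∃ s : G, W S s 1 ∧ (p s).toAdd.natAbs ≤ 1 ∧ of s = y) ∨
        y = t := by
      intro y hy
      rcases hy with rfl | ⟨s, hs, rfl⟩
      · exact Or.inr rfl
      · refine Or.inl ⟨s, W_of_mem hs, ?_, rfl⟩
        have := hS.one s hs
        rw [Int.abs_eq_natAbs] at this
        omega
    rcases hy with hy | hy
    · rcases key y hy with ⟨s, hs, hps, rfl⟩ | rfl
      · exact hof s hs hps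
      · simpa using ht 1
    · rcases key _ hy with ⟨s, hs, hps, hsy⟩ | h
      · have h1 := hof s⁻¹ (W_inv hs) (by simpa using hps)
        have h2 : y = of s⁻¹ := by rw [map_inv, hsy, inv_inv]
        rw [h2]
        exact h1
      · have h1 := ht (-1)
        have h2 : y = t ^ (((-1 : ℤˣ) : ℤ)) := by
          rw [← inv_inv y, h]
          simp
        rw [h2]
        exact h1
  · intro x m n hmn h
    obtain ⟨g, L, c, m', h1, h2, h3, h4, h5, h6⟩ := h
    exact ⟨g, L, c, m', h1, h2, h3, h4, h5, h6.trans hmn⟩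

section acc

variable {V : Type*} (Hv : V → Subgroup G) (δ : V → ℤˣ → V → Prop)

/-- accepted words from the vertex `v` to the vertex `v1` -/
inductive Acc : V → G → List (ℤˣ × G) → V → Prop
  | nil (v : V) (g : G) (hg : g ∈ Hv v) : Acc v g [] v
  | cons (v : V) (g : G) (u : ℤˣ) (v' : V) (g1 : G) (L : List (ℤˣ × G)) (v1 : V) (hg : g ∈ Hv v)
      (hd : δ v u v') (h : Acc v' g1 L v1) : Acc v g ((u, g1) :: L) v1

theorem Acc.mem {v v1 : V} {g : G} {L : List (ℤˣ × G)} (h : Acc Hv δ v g L v1) : g ∈ Hv v := by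
  cases h with
  | nil _ _ hg => exact hg
  | cons _ _ _ _ _ _ _ hg _ _ => exact hg

theorem Acc.mul_left {v v1 : V} {g k : G} {L : List (ℤˣ × G)} (h : Acc Hv δ v g L v1)
    (hk : k ∈ Hv v) : Acc Hv δ v (k * g) L v1 := by
  cases h with
  | nil _ _ hg => exact Acc.nil _ _ (mul_mem hk hg)
  | cons _ _ _ _ _ _ _ hg hd h => exact Acc.cons _ _ _ _ _ _ _ (mul_mem hk hg) hd h

/-- elements with a reduced accepted word from `v` to `v1` -/
def Pa (φ : Subgroup.zpowers a ≃* Subgroup.zpowers b) (v v1 : V)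
    (x : HNNExtension G (Subgroup.zpowers a) (Subgroup.zpowers b) φ) : Prop :=
  ∃ g L, Rd a b L ∧ Acc Hv δ v g L v1 ∧ x = pr φ g L

variable {Hv δ}

theorem Pa_of {v : V} {g : G} (hg : g ∈ Hv v) : Pa Hv δ φ v v (of g) :=
  ⟨g, [], rd_nil, Acc.nil _ _ hg, by rw [pr_nil]⟩

theorem Pa_of_mul {v v1 : V} {g : G} (hg : g ∈ Hv v)
    {x : HNNExtension G (Subgroup.zpowers a) (Subgroup.zpowers b) φ}
    (hx : Pa Hv δ φ v v1 x) : Pa Hv δ φ v v1 (of g * x) := by
  obtain ⟨h, L, h1, h2, rfl⟩ := hx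
  exact ⟨g * h, L, h1, h2.mul_left Hv δ hg, of_mul_pr _ _ _⟩

theorem Pa_t_mul (hφ : Ph a b φ)
    (htriv : ∀ v u v', δ v u v' → ∀ j : ℤ, cg a b u ^ j ∈ Hv v' → j = 0)
    (hdet : ∀ v u v' v'', δ v u v' → δ v' (-u) v'' → v'' = v) {v v' v1 : V} {u : ℤˣ}
    (hd : δ v u v') {x : HNNExtension G (Subgroup.zpowers a) (Subgroup.zpowers b) φ}
    (hx : Pa Hv δ φ v' v1 x) : Pa Hv δ φ v v1 (t ^ (u : ℤ) * x) := by
  obtain ⟨g, L, hL, hA, rfl⟩ := hx
  rcases tmul_cases u g L hL with ⟨j, g1, L', rfl, rfl⟩ | hR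
  · have hj := htriv v u v' hd j hA.mem
    subst hj
    rw [tmul_cancel hφ]
    cases hA with
    | cons _ _ _ v'' _ _ _ hg hd' h =>
      obtain rfl := hdet v u v' v'' hd hd'
      exact ⟨g1, L', rd_tail hL, h, by simp⟩
  · exact ⟨1, (u, g) :: L, hR, Acc.cons _ _ _ _ _ _ _ (one_mem _) hd hA, tmul_pr _ _ _⟩

/-- the subgroup generated by elements whose left multiplication preserves `Pa v v1` -/
theorem Pa_closure {v v1 : V}
    {T : Set (HNNExtension G (Subgroup.zpowers a) (Subgroup.zpowers b) φ)}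
    (hT : ∀ y ∈ T, ∀ x, Pa Hv δ φ v v1 x → Pa Hv δ φ v v1 (y * x) ∧ Pa Hv δ φ v v1 (y⁻¹ * x))
    {h : HNNExtension G (Subgroup.zpowers a) (Subgroup.zpowers b) φ}
    (hh : h ∈ Subgroup.closure T) :
    ∀ x, Pa Hv δ φ v v1 x → Pa Hv δ φ v v1 (h * x) ∧ Pa Hv δ φ v v1 (h⁻¹ * x) := by
  induction hh using Subgroup.closure_induction with
  | mem y hy => exact hT y hy
  | one => intro x hx; simpa using hx
  | mul y z _ _ ihy ihz =>
    intro x hx
    refine ⟨?_, ?_⟩
    · rw [mul_assoc]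
      exact (ihy _ (ihz _ hx).1).1
    · rw [mul_inv_rev, mul_assoc]
      exact (ihz _ (ihy _ hx).2).2
  | inv y _ ih =>
    intro x hx
    rw [inv_inv]
    exact (ih x hx).symm

end acc

/-- the lines: `some u` is the line of the HNN extension on the side `u`, `none` a special one -/
def lin (a b sp : G) (i : Option ℤˣ) : G := i.elim sp (cg a b)

/-- **The path lemma**, for words. -/
theorem path_word {V : Type*} {Hv : V → Subgroup G} {δ : V → ℤˣ → V → Prop} {sp : G}
    (q : V → HNNExtension G (Subgroup.zpowers a) (Subgroup.zpowers b) φ)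
    (TT : Set (HNNExtension G (Subgroup.zpowers a) (Subgroup.zpowers b) φ))
    (ok : V → Option ℤˣ → Prop) (Ev : V → Option ℤˣ → ℕ → ℤ → Prop) (Λ : ℕ → ℕ) (C D : ℕ)
    (hΛ : Monotone Λ)
    (hq : ∀ v u v', δ v u v' → W TT (q v * t ^ (u : ℤ) * (q v')⁻¹) 1)
    (hok : ∀ v u v', δ v u v' → ok v (some (-u)))
    (hcr : ∀ v u v' κ j, δ v u v' → Ev v (some (-u)) κ j → Ev v' (some u) κ j)
    (hstep : ∀ v i i' κ c w j j', W S w (C * c) → Ev v i κ j → ok v i' →
      lin a b sp i ^ j * w * (lin a b sp i' ^ j')⁻¹ ∈ Hv v →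
        Ev v i' (κ + D * (c + 1)) j' ∧
        W TT (q v * of (lin a b sp i ^ j * w * (lin a b sp i' ^ j')⁻¹) * (q v)⁻¹)
          (Λ (κ + D * (c + 1)))) (L : List (ℤˣ × G)) :
    ∀ (g h : G) (L' : List (ℤˣ × G)) (v v1 : V) (i i1 : Option ℤˣ) (y y' : ℤ) (κ c m : ℕ),
      Tot S p C L m → W S g (C * c) → Ev v i κ y → ok v1 i1 →
      Mt a b (lin a b sp i1 ^ y')⁻¹ (lin a b sp i ^ y * g) L h L' → Acc Hv δ v h L' v1 →
      Ev v1 i1 (κ + D * (c + 1 + m)) y' ∧
        W TT (q v * pr φ h L' * (q v1)⁻¹) ((L.length + 1) * (Λ (κ + D * (c + 1 + m)) + 1)) := by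
  induction L with
  | nil =>
    intro g h L' v v1 i i1 y y' κ c m hT hw hE ho hM hA
    cases hT
    cases hM with
    | nil _ _ hh =>
      subst hh
      cases hA with
      | nil _ _ hg =>
        obtain ⟨h1, h2⟩ := hstep v i i1 κ c g y y' hw hE ho hg
        refine ⟨h1, ?_⟩
        rw [pr_nil]
        refine W_mono h2 ?_
        simp only [List.length_nil, Nat.zero_add, Nat.add_zero]
        omega
  | cons x L ih =>
    intro g h L' v v1 i i1 y y' κ c m hT hw hE ho hM hA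
    cases hT with
    | cons u g1 _ c1 m1 hw1 hp1 hT1 =>
      cases hM with
      | cons _ _ _ _ _ h1 L1 j hh hm =>
        cases hA with
        | cons _ _ _ v' _ _ _ hg hd hA1 =>
          subst hh
          obtain ⟨e1, e2⟩ := hstep v i (some (-u)) κ c g y j hw hE (hok v u v' hd) hg
          have e3 := hcr v u v' _ _ hd e1
          obtain ⟨e4, e5⟩ := ih g1 h1 L1 v' v1 (some u) i1 j y' (κ + D * (c + 1)) c1 m1 hT1 hw1
            e3 ho hm hA1
          have e6 : κ + D * (c + 1) + D * (c1 + 1 + m1) = κ + D * (c + 1 + (c1 + m1 + 1)) := by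
            ring
          rw [e6] at e4 e5
          refine ⟨e4, ?_⟩
          rw [pr_cons]
          have e7 : q v * (of (lin a b sp i ^ y * g * (cg a b (-u) ^ j)⁻¹) * t ^ (u : ℤ) *
              pr φ h1 L1) * (q v1)⁻¹ =
              (q v * of (lin a b sp i ^ y * g * (lin a b sp (some (-u)) ^ j)⁻¹) * (q v)⁻¹) *
              (q v * t ^ (u : ℤ) * (q v')⁻¹) * (q v' * pr φ h1 L1 * (q v1)⁻¹) := by
            simp only [lin, Option.elim]
            group
          rw [e7]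
          refine W_mono (W_mul (W_mul e2 (hq v u v' hd)) e5) ?_
          have e8 : Λ (κ + D * (c + 1)) ≤ Λ (κ + D * (c + 1 + (c1 + m1 + 1))) := by
            apply hΛ
            have : D * (c + 1) ≤ D * (c + 1 + (c1 + m1 + 1)) := Nat.mul_le_mul_left _ (by omega)
            omega
          simp only [List.length_cons]
          have e9 : (L.length + 1 + 1) * (Λ (κ + D * (c + 1 + (c1 + m1 + 1))) + 1) =
            (Λ (κ + D * (c + 1 + (c1 + m1 + 1))) + 1) +
            (L.length + 1) * (Λ (κ + D * (c + 1 + (c1 + m1 + 1))) + 1) := by ring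
          omega

/-- **The path lemma.** -/
theorem path (hS : Grd G S p) (ha : p a = Multiplicative.ofAdd 1)
    (hb : p b = Multiplicative.ofAdd 1) (hφ : Ph a b φ)
    {V : Type*} {Hv : V → Subgroup G} {δ : V → ℤˣ → V → Prop} {sp : G}
    (q : V → HNNExtension G (Subgroup.zpowers a) (Subgroup.zpowers b) φ)
    (TT : Set (HNNExtension G (Subgroup.zpowers a) (Subgroup.zpowers b) φ))
    (ok : V → Option ℤˣ → Prop) (Ev : V → Option ℤˣ → ℕ → ℤ → Prop) (Λ : ℕ → ℕ) (C D : ℕ)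
    (hC : 1 ≤ C) (hCa : W S a C) (hCb : W S b C)
    (hΛ : Monotone Λ)
    (hEv : ∀ v i κ κ' j, κ ≤ κ' → Ev v i κ j → Ev v i κ' j)
    (hq : ∀ v u v', δ v u v' → W TT (q v * t ^ (u : ℤ) * (q v')⁻¹) 1)
    (hok : ∀ v u v', δ v u v' → ok v (some (-u)))
    (hcr : ∀ v u v' κ j, δ v u v' → Ev v (some (-u)) κ j → Ev v' (some u) κ j)
    (hstep : ∀ v i i' κ c w j j', W S w (C * c) → Ev v i κ j → ok v i' →
      lin a b sp i ^ j * w * (lin a b sp i' ^ j')⁻¹ ∈ Hv v →
        Ev v i' (κ + D * (c + 1)) j' ∧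
        W TT (q v * of (lin a b sp i ^ j * w * (lin a b sp i' ^ j')⁻¹) * (q v)⁻¹)
          (Λ (κ + D * (c + 1))))
    {x : HNNExtension G (Subgroup.zpowers a) (Subgroup.zpowers b) φ} {n : ℕ}
    (hx : W (gens φ S) x n) {v v1 : V} {i i1 : Option ℤˣ} {y y' : ℤ} {κ : ℕ}
    (hE : Ev v i κ y) (ho : ok v1 i1)
    (hP : Pa Hv δ φ v v1 (of (lin a b sp i ^ y) * x * (of (lin a b sp i1 ^ y'))⁻¹)) :
    Ev v1 i1 (κ + D * (n + 1)) y' ∧
      W TT (q v * (of (lin a b sp i ^ y) * x * (of (lin a b sp i1 ^ y'))⁻¹) * (q v1)⁻¹)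
        ((n + 1) * (Λ (κ + D * (n + 1)) + 1)) := by
  obtain ⟨g, L, c, m, hL, rfl, hw, hp, hT, hn⟩ := rep hS ha hb hφ hC hCa hCb hx
  obtain ⟨h, L', hL', hA, he⟩ := hP
  rw [of_mul_pr, ← map_inv] at he
  have hM := mt_of_eq hφ _ L _ _ L' hL hL' he
  obtain ⟨h1, h2⟩ := path_word q TT ok Ev Λ C D hΛ hq hok hcr hstep L g h L' v v1 i i1 y y' κ c m
    hT hw hE ho hM hA
  have h3 : κ + D * (c + 1 + m) ≤ κ + D * (n + 1) :=
    Nat.add_le_add_left (Nat.mul_le_mul_left _ (by omega)) _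
  refine ⟨hEv _ _ _ _ _ h3 h1, ?_⟩
  rw [of_mul_pr, ← map_inv, he]
  refine W_mono h2 ?_
  have h4 := hT.length_le
  exact Nat.mul_le_mul (by omega) (Nat.add_le_add_right (hΛ h3) 1)

end Pool.Agent.helper12.FD
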