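import Pool.Agent.helper12.FD.Wl

/-!
Module FD-Base: the base gadget in `ℤ × ℤ`.

`G = Multiplicative ℤ × Multiplicative ℤ`, element `(i, l)` stands for `a ^ i t ^ l`. `p (i, l) = l`,
`S = {(1, 0), (0, 1)}`, `H = {(k, -k)}` generated by `T = {(1, -1)}`, `s = (1, 1)`, `t = (0, 1)`,
`f m = 2 m` (`= fk 0 m`).

For `W S w n`, `w = (i, l)`, one has `|i| + |l| ≤ n` (hence also `|i| ≤ n`, `|l| ≤ n`).
* `t^j w t^(-j') = (i, j + l - j') ∈ H` iff `j' = j + l + i`; it is `T`-generator to the power `i`.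
* `t^j w s^(-j') = (i - j', j + l - j')` in `H` iff `2 j' = i + j + l`.
* `s^j w t^(-j') = (j + i, j + l - j')` in `H` iff `j' = 2 j + i + l`.
* `s^j w s^(-j') = (j + i - j', j + l - j')` in `H` iff `2 j' = 2 j + i + l`.
The constants `C = 4` should do for `mul`, `C = 2` for `add`. `z1`: `s^i t = (i, i + 1)`, and
`i + 1 = -i` is impossible. `rel`: `s^N t^(-2N) = (N, -N)`.
`FBC`: `r = 1`, `φ = 1`: `G ≃* FreeGroup (Fin 1) ⋊[zpowersHom _ 1] Multiplicative ℤ`
(`FreeGroup (Fin 1)` is infinite cyclic, e.g. `FreeGroup.freeGroupUnitEquivInt` or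
`FreeGroup.equivIntOfUnique` style equivalences; the action is trivial).
-/

namespace Pool.Agent.helper12.FD

namespace Base

/-- the group -/
abbrev G0 : Type := Multiplicative ℤ × Multiplicative ℤ

def el (i l : ℤ) : G0 := (Multiplicative.ofAdd i, Multiplicative.ofAdd l)
def fi (x : G0) : ℤ := Multiplicative.toAdd x.1
def se (x : G0) : ℤ := Multiplicative.toAdd x.2

theorem fi_mul (x y : G0) : fi (x * y) = fi x + fi y := rfl
theorem se_mul (x y : G0) : se (x * y) = se x + se y := rfl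
theorem fi_inv (x : G0) : fi x⁻¹ = -fi x := rfl
theorem se_inv (x : G0) : se x⁻¹ = -se x := rfl
theorem fi_one : fi 1 = 0 := rfl
theorem se_one : se 1 = 0 := rfl
theorem fi_zpow (x : G0) (j : ℤ) : fi (x ^ j) = j * fi x := by
  simp [fi]
theorem se_zpow (x : G0) (j : ℤ) : se (x ^ j) = j * se x := by
  simp [se]
theorem fi_pow (x : G0) (j : ℕ) : fi (x ^ j) = j * fi x := by
  simp [fi]
theorem se_pow (x : G0) (j : ℕ) : se (x ^ j) = j * se x := by
  simp [se]
theorem fi_el (i l : ℤ) : fi (el i l) = i := rfl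
theorem se_el (i l : ℤ) : se (el i l) = l := rfl

theorem ext {x y : G0} (h1 : fi x = fi y) (h2 : se x = se y) : x = y := by
  refine Prod.ext ?_ ?_
  · exact Multiplicative.toAdd.injective h1
  · exact Multiplicative.toAdd.injective h2

theorem mem_H (x : G0) : x ∈ Subgroup.zpowers (el 1 (-1)) ↔ fi x + se x = 0 := by
  rw [Subgroup.mem_zpowers_iff]
  constructor
  · rintro ⟨k, rfl⟩
    rw [fi_zpow, se_zpow, fi_el, se_el]
    ring
  · intro h
    refine ⟨fi x, ext ?_ ?_⟩
    · rw [fi_zpow, fi_el, mul_one]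
    · rw [se_zpow, se_el]
      linarith

theorem W_T {x : G0} (h : fi x + se x = 0) {N : ℕ} (hN : (fi x).natAbs ≤ N) :
    W {el 1 (-1)} x N := by
  have h1 : x = (el 1 (-1)) ^ (fi x) := by
    refine ext ?_ ?_
    · rw [fi_zpow, fi_el, mul_one]
    · rw [se_zpow, se_el]
      linarith
  have h2 : W ({el 1 (-1)} : Set G0) (el 1 (-1)) 1 := W_of_mem (by simp)
  have h3 := W_zpow h2 (fi x)
  rw [← h1, one_mul] at h3
  exact W_mono h3 hN

theorem W_S {w : G0} {n : ℕ} (h : W ({el 1 0, el 0 1} : Set G0) w n) :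
    (fi w).natAbs + (se w).natAbs ≤ n := by
  refine W_induction (P := fun g n => (fi g).natAbs + (se g).natAbs ≤ n) ?_ ?_ ?_ h
  · simp [fi_one, se_one]
  · intro y g n hy hg
    have hy' : (fi y).natAbs + (se y).natAbs ≤ 1 := by
      rcases hy with hy | hy
      · rcases hy with rfl | hy
        · rw [fi_el, se_el]; decide
        · rw [Set.mem_singleton_iff] at hy
          rw [hy, fi_el, se_el]; decide
      · have e1 : fi y⁻¹ = -fi y := fi_inv y
        have e2 : se y⁻¹ = -se y := se_inv y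
        rcases hy with hy | hy
        · rw [hy, fi_el] at e1
          rw [hy, se_el] at e2
          omega
        · rw [Set.mem_singleton_iff] at hy
          rw [hy, fi_el] at e1
          rw [hy, se_el] at e2
          omega
    rw [fi_mul, se_mul]
    omega
  · intro g m n hmn hg
    exact hg.trans hmn

theorem fbc : FBC G0 (MonoidHom.snd (Multiplicative ℤ) (Multiplicative ℤ)) := by
  let ψ : FreeGroup (Fin 1) ≃* Multiplicative ℤ := FreeGroup.mulEquivIntOfUnique
  refine ⟨1, 1, ?_, le_rfl, ?_⟩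
  · exact
      { toFun := fun g => ⟨ψ.symm g.1, g.2⟩
        invFun := fun x => (ψ x.left, x.right)
        left_inv := fun g => by simp
        right_inv := fun x => by ext <;> simp
        map_mul' := fun x y => by
          refine SemidirectProduct.ext ?_ ?_
          · simp
          · simp }
  · intro g
    rfl

theorem grd : Grd G0 {el 1 0, el 0 1} (MonoidHom.snd (Multiplicative ℤ) (Multiplicative ℤ)) := by
  refine ⟨by simp, ?_, ?_⟩
  · rw [eq_top_iff]
    intro x _
    have h1 : el 1 0 ∈ Subgroup.closure ({el 1 0, el 0 1} : Set G0) :=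
      Subgroup.subset_closure (by simp)
    have h2 : el 0 1 ∈ Subgroup.closure ({el 1 0, el 0 1} : Set G0) :=
      Subgroup.subset_closure (by simp)
    have h3 : x = (el 1 0) ^ (fi x) * (el 0 1) ^ (se x) := by
      refine ext ?_ ?_
      · rw [fi_mul, fi_zpow, fi_zpow, fi_el, fi_el]; ring
      · rw [se_mul, se_zpow, se_zpow, se_el, se_el]; ring
    rw [h3]
    exact mul_mem (zpow_mem h1 _) (zpow_mem h2 _)
  · intro x hx
    rcases hx with rfl | hx
    · show |se (el 1 0)| ≤ 1
      rw [se_el]; norm_num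
    · rw [Set.mem_singleton_iff] at hx
      rw [hx]
      show |se (el 0 1)| ≤ 1
      rw [se_el]; norm_num

theorem gad : Gad ({el 1 0, el 0 1} : Set G0) (MonoidHom.snd (Multiplicative ℤ) (Multiplicative ℤ))
    (Subgroup.zpowers (el 1 (-1))) {el 1 (-1)} (el 1 1) (el 0 1) (fk 0) := by
  have hf : ∀ n, fk 0 n = 2 * n := fun n => rfl
  refine ⟨rfl, rfl, by simp, ?_, ?_, ?_, ⟨4, ?_⟩, ⟨2, ?_⟩⟩
  · rw [Subgroup.zpowers_eq_closure]
  · intro N
    rw [mem_H, fi_mul, se_mul, fi_inv, se_inv, fi_pow, se_pow, fi_pow, se_pow, hf, fi_el, se_el,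
      fi_el, se_el]
    push_cast
    ring
  · intro i h
    rw [mem_H, fi_mul, se_mul, fi_zpow, se_zpow, fi_el, se_el, fi_el, se_el] at h
    omega
  · intro c d m n w j j' hw hj hx
    have h1 := W_S hw
    rw [mem_H] at hx
    have e1 : fi (ln (el 1 1) (el 0 1) c ^ j * w * (ln (el 1 1) (el 0 1) d ^ j')⁻¹) =
        (if c then 0 else j) + fi w - (if d then 0 else j') := by
      rw [fi_mul, fi_mul, fi_inv, fi_zpow, fi_zpow]
      cases c <;> cases d <;> simp [ln, fi_el] <;> ring
    have e2 : se (ln (el 1 1) (el 0 1) c ^ j * w * (ln (el 1 1) (el 0 1) d ^ j')⁻¹) =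
        j + se w - j' := by
      rw [se_mul, se_mul, se_inv, se_zpow, se_zpow]
      cases c <;> cases d <;> simp [ln, se_el] <;> ring
    have hx' := hx
    rw [e1, e2] at hx'
    refine ⟨?_, W_T hx ?_⟩
    · unfold val at hj ⊢
      rw [hf] at hj ⊢
      cases c <;> cases d <;> simp at hj hx' ⊢ <;> omega
    · rw [e1, hf]
      unfold val at hj
      rw [hf] at hj
      cases c <;> cases d <;> simp at hj hx' ⊢ <;> omega
  · intro m n w j j' hw hj hx
    have h1 := W_S hw
    rw [mem_H] at hx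
    have e1 : fi ((el 0 1) ^ j * w * ((el 0 1) ^ j')⁻¹) = fi w := by
      rw [fi_mul, fi_mul, fi_inv, fi_zpow, fi_zpow, fi_el]
      ring
    have e2 : se ((el 0 1) ^ j * w * ((el 0 1) ^ j')⁻¹) = j + se w - j' := by
      rw [se_mul, se_mul, se_inv, se_zpow, se_zpow, se_el]
      ring
    have hx' := hx
    rw [e1, e2] at hx'
    rw [hf] at hj ⊢
    refine ⟨by omega, W_T hx ?_⟩
    rw [e1]
    omega

end Base

theorem base : ∃ (G : Type) (_ : Group G) (S : Set G) (p : G →* Multiplicative ℤ)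
    (H : Subgroup G) (T : Set G) (s t : G),
    FBC G p ∧ Grd G S p ∧ Gad S p H T s t (fk 0) :=
  ⟨Base.G0, inferInstance, _, _, _, _, _, _, Base.fbc, Base.grd, Base.gad⟩

end Pool.Agent.helper12.FD
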