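import Pool.Agent.helper12.FD.Wl

/-! Reduced words in the HNN extension. -/

namespace Pool.Agent.helper12.FD

open HNNExtension

variable {G : Type*} [Group G] {a b : G} {φ : Subgroup.zpowers a ≃* Subgroup.zpowers b}

/-- product of a word -/
def pr (φ : Subgroup.zpowers a ≃* Subgroup.zpowers b) (g : G) (L : List (ℤˣ × G)) :
    HNNExtension G (Subgroup.zpowers a) (Subgroup.zpowers b) φ :=
  of g * (L.map (fun x => t ^ (x.1 : ℤ) * of x.2)).prod

/-- reduced list -/
def Rd (a b : G) (L : List (ℤˣ × G)) : Prop :=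
  L.IsChain (fun x y => x.2 ∈ toSubgroup (Subgroup.zpowers a) (Subgroup.zpowers b) x.1 → x.1 = y.1)

theorem pr_nil (g : G) : pr φ g [] = of g := by simp [pr]

theorem pr_cons (g : G) (u : ℤˣ) (g1 : G) (L : List (ℤˣ × G)) :
    pr φ g ((u, g1) :: L) = of g * t ^ (u : ℤ) * pr φ g1 L := by
  simp [pr, mul_assoc]

theorem of_mul_pr (x g : G) (L : List (ℤˣ × G)) : of x * pr φ g L = pr φ (x * g) L := by
  simp [pr, mul_assoc]

theorem rd_nil : Rd a b [] := by simp [Rd]

theorem rd_tail {x : ℤˣ × G} {L : List (ℤˣ × G)} (h : Rd a b (x :: L)) : Rd a b L := by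
  unfold Rd at *
  exact (List.isChain_cons.1 h).2

/-- multiply the last entry by `β` -/
def lmul (β : G) : List (ℤˣ × G) → List (ℤˣ × G)
  | [] => []
  | [(u, g)] => [(u, g * β)]
  | x :: y :: L => x :: lmul β (y :: L)

theorem lmul_fst (β : G) (L : List (ℤˣ × G)) :
    (lmul β L).map Prod.fst = L.map Prod.fst := by
  induction L with
  | nil => simp [lmul]
  | cons x L ih =>
    cases L with
    | nil => obtain ⟨u, g⟩ := x; simp [lmul]
    | cons y L =>
      simp only [lmul, List.map_cons]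
      rw [ih]
      simp

theorem pr_lmul (β g u g1) (L : List (ℤˣ × G)) :
    pr φ g (lmul β ((u, g1) :: L)) = pr φ g ((u, g1) :: L) * of β := by
  induction L generalizing g u g1 with
  | nil => simp [lmul, pr, mul_assoc]
  | cons y L ih =>
    obtain ⟨v, g2⟩ := y
    simp only [lmul]
    rw [pr_cons, ih, pr_cons g u g1]
    simp only [mul_assoc]

theorem rd_lmul {β : G} {L : List (ℤˣ × G)} (h : Rd a b L) : Rd a b (lmul β L) := by
  induction L with
  | nil => simp [lmul, Rd]
  | cons x L ih =>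
    cases L with
    | nil => obtain ⟨u, g⟩ := x; simp [lmul, Rd]
    | cons y L =>
      have h1 := ih (rd_tail h)
      unfold Rd at h h1 ⊢
      simp only [lmul]
      rw [List.isChain_cons] at h ⊢
      refine ⟨?_, h1⟩
      intro z hz hx
      have h2 : (lmul β (y :: L)).head?.map Prod.fst = (y :: L).head?.map Prod.fst := by
        rw [← List.head?_map, lmul_fst, List.head?_map]
      rw [Option.mem_def] at hz
      rw [hz] at h2
      simp only [Option.map_some, List.head?_cons, Option.some.injEq] at h2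
      rw [h2]
      exact h.1 y (by simp) hx

theorem fst_eq {g h : G} {L L' : List (ℤˣ × G)} (hL : Rd a b L) (hL' : Rd a b L')
    (h1 : pr φ g L = pr φ h L') :
    L.map Prod.fst = L'.map Prod.fst ∧ ∀ u ∈ L.head?.map Prod.fst,
      g⁻¹ * h ∈ toSubgroup (Subgroup.zpowers a) (Subgroup.zpowers b) (-u) := by
  exact HNNExtension.ReducedWord.map_fst_eq_and_of_prod_eq φ (w₁ := ⟨g, L, hL⟩) (w₂ := ⟨h, L', hL'⟩)
    h1

theorem fst_nil {g h : G} {L : List (ℤˣ × G)} (hL : Rd a b L)
    (h1 : pr φ g L = of h) : L = [] ∧ g = h := by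
  have h2 := (fst_eq (φ := φ) (h := h) hL rd_nil (by rw [h1, pr_nil])).1
  have h3 : L = [] := by simpa using h2
  subst h3
  rw [pr_nil] at h1
  exact ⟨rfl, HNNExtension.of_injective φ h1⟩

theorem slide' (h : Ph a b φ) (u : ℤˣ) (j : ℤ) :
    (of (cg a b (-u) ^ j) * t ^ (u : ℤ) :
      HNNExtension G (Subgroup.zpowers a) (Subgroup.zpowers b) φ) =
    t ^ (u : ℤ) * of (cg a b u ^ j) := (slide h u j).symm

/-- matching of two words; `β` is an extra factor at the end of the first -/
inductive Mt (a b β : G) : G → List (ℤˣ × G) → G → List (ℤˣ × G) → Prop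
  | nil (g h : G) (hh : h = g * β) : Mt a b β g [] h []
  | cons (g : G) (u : ℤˣ) (g1 : G) (L : List (ℤˣ × G)) (h h1 : G) (L' : List (ℤˣ × G)) (j : ℤ)
      (hh : h = g * (cg a b (-u) ^ j)⁻¹) (hm : Mt a b β (cg a b u ^ j * g1) L h1 L') :
      Mt a b β g ((u, g1) :: L) h ((u, h1) :: L')

theorem mt_of_eq (hφ : Ph a b φ) (β : G) (L : List (ℤˣ × G)) :
    ∀ (g h : G) (L' : List (ℤˣ × G)), Rd a b L → Rd a b L' →
      pr φ g L * of β = pr φ h L' → Mt a b β g L h L' := by
  induction L with
  | nil =>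
    intro g h L' _ hL' h1
    rw [pr_nil, ← map_mul] at h1
    obtain ⟨rfl, h2⟩ := fst_nil hL' h1.symm
    exact Mt.nil _ _ h2
  | cons x L ih =>
    obtain ⟨u, g1⟩ := x
    intro g h L' hL hL' h1
    have h2 := fst_eq (rd_lmul (β := β) hL) hL' (by rw [pr_lmul, h1])
    rw [lmul_fst] at h2
    obtain ⟨h2, h3⟩ := h2
    cases L' with
    | nil => simp at h2
    | cons y L' =>
      obtain ⟨v, h1'⟩ := y
      simp only [List.map_cons, List.cons.injEq] at h2
      obtain ⟨rfl, h2⟩ := h2
      have h4 := h3 u (by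
        have h5 : (lmul β ((u, g1) :: L)).head?.map Prod.fst =
          ((u, g1) :: L).head?.map Prod.fst := by
          rw [← List.head?_map, lmul_fst, List.head?_map]
        rw [h5]; simp)
      obtain ⟨i, hi⟩ := (mem_toSubgroup_iff _ _).1 h4
      have h5 : h = g * (cg a b (-u) ^ (-i))⁻¹ := by
        rw [zpow_neg, inv_inv, hi]; group
      refine Mt.cons g u g1 L h h1' L' (-i) h5 (ih _ _ _ (rd_tail hL) (rd_tail hL') ?_)
      rw [pr_cons, pr_cons] at h1
      have h6 : (of h : HNNExtension G (Subgroup.zpowers a) (Subgroup.zpowers b) φ) =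
          of g * of (cg a b (-u) ^ i) := by
        rw [h5, ← map_mul, zpow_neg, inv_inv]
      rw [h6] at h1
      have h7 : pr φ g1 L * of β = of (cg a b u ^ i) * pr φ h1' L' := by
        have h8 : (of g * t ^ (u : ℤ) : HNNExtension G (Subgroup.zpowers a)
          (Subgroup.zpowers b) φ) * (pr φ g1 L * of β) =
          of g * t ^ (u : ℤ) * (of (cg a b u ^ i) * pr φ h1' L') := by
          rw [← mul_assoc, h1]
          simp only [mul_assoc]
          rw [← mul_assoc (of (cg a b (-u) ^ i)), slide' hφ]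
          simp only [mul_assoc]
        exact mul_left_cancel h8
      rw [← of_mul_pr, mul_assoc, h7, ← mul_assoc, ← map_mul, zpow_neg]
      simp

/-- multiplication by the stable letter on the left: either it cancels or stays reduced -/
theorem tmul_cases (v : ℤˣ) (g : G) (L : List (ℤˣ × G)) (hL : Rd a b L) :
    (∃ j g1 L', L = (-v, g1) :: L' ∧ g = cg a b v ^ (j : ℤ)) ∨ Rd a b ((v, g) :: L) := by
  by_cases hc : ∃ j g1 L', L = (-v, g1) :: L' ∧ g = cg a b v ^ (j : ℤ)
  · exact Or.inl hc
  · right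
    unfold Rd at *
    rw [List.isChain_cons]
    refine ⟨?_, hL⟩
    intro y hy hg
    by_contra hne
    apply hc
    obtain ⟨j, hj⟩ := (mem_toSubgroup_iff _ _).1 hg
    cases L with
    | nil => simp at hy
    | cons z L =>
      obtain ⟨w, g1⟩ := z
      simp only [List.head?_cons, Option.mem_def, Option.some.injEq] at hy
      subst hy
      simp only at hne
      have : w = -v := by
        rcases Int.units_eq_one_or v with rfl | rfl <;>
        rcases Int.units_eq_one_or w with rfl | rfl <;> simp_all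
      exact ⟨j, g1, L, by rw [this], hj.symm⟩

theorem tmul_pr (v : ℤˣ) (g : G) (L : List (ℤˣ × G)) :
    t ^ (v : ℤ) * pr φ g L = pr φ 1 ((v, g) :: L) := by
  simp [pr_cons]

theorem tmul_cancel (hφ : Ph a b φ) (v : ℤˣ) (j : ℤ) (g1 : G) (L : List (ℤˣ × G)) :
    t ^ (v : ℤ) * pr φ (cg a b v ^ j) ((-v, g1) :: L) = pr φ (cg a b (-v) ^ j * g1) L := by
  rw [pr_cons, ← mul_assoc, ← mul_assoc, slide hφ, ← of_mul_pr]
  simp

end Pool.Agent.helper12.FD
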