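import Pool.Agent.helper12.FD.Aut

/-! The lines of a gadget meet the subgroup trivially. -/

namespace Pool.Agent.helper12.FD

variable {G : Type*} [Group G] {S : Set G} {p : G →* Multiplicative ℤ} {H : Subgroup G}
  {T : Set G} {s r : G} {f : ℕ → ℕ}

theorem triv_aux {x : G} {B : ℕ} (h : ∀ j : ℤ, x ^ j ∈ H → j.natAbs ≤ B) {j : ℤ}
    (hj : x ^ j ∈ H) : j = 0 := by
  by_contra h0
  have h1 := h (j * (B + 1 : ℕ)) (by rw [zpow_mul]; exact zpow_mem hj _)
  rw [Int.natAbs_mul, Int.natAbs_natCast] at h1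
  have h2 : 1 ≤ j.natAbs := Int.natAbs_pos.2 h0
  have h3 : 1 * (B + 1) ≤ j.natAbs * (B + 1) := Nat.mul_le_mul_right _ h2
  omega

theorem Gad.triv_r (h : Gad S p H T s r f) {j : ℤ} (hj : r ^ j ∈ H) : j = 0 := by
  obtain ⟨C, hC⟩ := h.add
  refine triv_aux (B := f (0 + C * (0 + 1))) (fun j hj => ?_) hj
  refine (hC 0 0 1 0 j (W_one 0) (by simp) ?_).1
  simpa using inv_mem hj

theorem Gad.triv_s (h : Gad S p H T s r f) {j : ℤ} (hj : s ^ j ∈ H) : j = 0 := by
  obtain ⟨C, hC⟩ := h.mul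
  refine triv_aux (B := C * (0 + 0 + 1)) (fun j hj => ?_) hj
  have := (hC false false 0 0 1 0 j (W_one 0) (by simp [val]) (by
    simpa [ln] using inv_mem hj)).1
  simpa [val] using this

theorem Out.triv {K : Subgroup G} {U : Set G} {σ τ : G} {F : ℕ → ℕ} (h : Out S p K U σ τ F)
    {j : ℤ} (hj : τ ^ j ∈ K) : j = 0 := by
  obtain ⟨C, hC⟩ := h.add
  refine triv_aux (B := F (0 + C * (0 + 1))) (fun j hj => ?_) hj
  refine (hC 0 0 1 0 j (W_one 0) (by simp) ?_).1
  simpa using inv_mem hj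

/-- a gadget is a composite gadget -/
theorem Gad.out (h : Gad S p H T s r f) : Out S p H T s r f :=
  ⟨h.ps, h.pt, h.fin, h.gen, h.rel, h.add⟩

/-- generators of the final subgroup -/
def finT (τ : G) (φ : Subgroup.zpowers τ ≃* Subgroup.zpowers τ) (U : Set G) :
    Set (HNNExtension G (Subgroup.zpowers τ) (Subgroup.zpowers τ) φ) :=
  insert HNNExtension.t (HNNExtension.of '' U)

end Pool.Agent.helper12.FD
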